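import Pool.Agent.T2H18.Split

set_option autoImplicit false

/-! Split skew products over the translation: maps with algebraic coefficients. -/

namespace Pool.Agent.T2H18

open MvPolynomial Height

lemma exists_map_of_coeff {κ : Type} (L : IntermediateField ℚ ℂ) (P : MvPolynomial κ ℂ)
    (h : ∀ a, P.coeff a ∈ L) : ∃ Q : MvPolynomial κ L, map (algebraMap L ℂ) Q = P := by
  classical
  have h1 : P ∈ Set.range (map (σ := κ) (algebraMap L ℂ)) := by
    rw [mem_range_map_iff_coeffs_subset]
    intro c hc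
    simp only [coeffs, Finset.coe_image, Set.mem_image] at hc
    obtain ⟨a, -, rfl⟩ := hc
    exact ⟨⟨_, h a⟩, rfl⟩
  exact h1

theorem split_alg {ι : Type} [Fintype ι] [DecidableEq ι] (d : ι → ℕ)
    (hd : ∀ i j, 2 ≤ d i → d i = d j → i = j)
    (h : ι → Fin 2 → MvPolynomial (Option (Fin 2)) ℂ)
    (hh : ∀ i s, ∀ a ∈ (h i s).support, a (some 0) + a (some 1) = d i)
    (halg : ∀ i s a, IsAlgebraic ℚ ((h i s).coeff a))
    (hne : ∀ i (z : Option (Fin 2) → ℂ), (∃ s, z (some s) ≠ 0) → ∃ s, eval z (h i s) ≠ 0)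
    (x : ℕ → ℂ) (y : ℕ → ι → Fin 2 → ℂ) (hx0 : IsAlgebraic ℚ (x 0))
    (hya : ∀ i s, IsAlgebraic ℚ (y 0 i s)) (hx : ∀ n, x (n + 1) = x n + 1)
    (hy0 : ∀ i, y 0 i ≠ 0) (hy : ∀ n i s, y (n + 1) i s = eval (pnt (x n) (y n i)) (h i s))
    (V : Set (MvPolynomial (Option (ι × Fin 2)) ℂ)) (hV : ∀ F ∈ V, ∃ m, MultiForm F m) :
    ∃ T : Finset (ℕ × ℕ), {n | ∀ F ∈ V, eval (zz x y n) F = 0} =
      {n : ℕ | ∃ q ∈ T, ∃ m : ℕ, n = q.1 * m + q.2} := by
  classical
  let S : Set ℂ := insert (x 0) ((⋃ i, Set.range (y 0 i)) ∪ ⋃ i, ⋃ s, ((h i s).coeffs : Set ℂ))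
  have hSf : S.Finite := by
    refine Set.Finite.insert _ (Set.Finite.union ?_ ?_)
    · exact Set.finite_iUnion fun i => Set.finite_range _
    · exact Set.finite_iUnion fun i => Set.finite_iUnion fun s => Finset.finite_toSet _
  have hSa : ∀ c ∈ S, IsIntegral ℚ c := by
    rintro c (rfl | hc | hc)
    · exact hx0.isIntegral
    · obtain ⟨i, hc⟩ := Set.mem_iUnion.1 hc
      obtain ⟨s, rfl⟩ := hc
      exact (hya i s).isIntegral
    · obtain ⟨i, hc⟩ := Set.mem_iUnion.1 hc
      obtain ⟨s, hc⟩ := Set.mem_iUnion.1 hc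
      simp only [coeffs, Finset.coe_image, Set.mem_image] at hc
      obtain ⟨a, -, rfl⟩ := hc
      exact (halg i s a).isIntegral
  have : Finite S := hSf
  have hfd : FiniteDimensional ℚ (IntermediateField.adjoin ℚ S) :=
    IntermediateField.finiteDimensional_adjoin hSa
  set L := IntermediateField.adjoin ℚ S with hL
  have hnf : NumberField L := NumberField.mk
  have hmem : ∀ c ∈ S, c ∈ L := fun c hc => IntermediateField.subset_adjoin ℚ S hc
  have hcoef : ∀ i s a, (h i s).coeff a ∈ L := by
    intro i s a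
    by_cases h0 : (h i s).coeff a = 0
    · rw [h0]
      exact zero_mem L
    · apply hmem
      refine Or.inr (Or.inr ?_)
      refine Set.mem_iUnion.2 ⟨i, Set.mem_iUnion.2 ⟨s, ?_⟩⟩
      simp only [coeffs, Finset.coe_image, Set.mem_image]
      exact ⟨a, Finset.mem_coe.2 (mem_support_iff.2 h0), rfl⟩
  choose h' hh' using fun i s => exists_map_of_coeff L (h i s) (hcoef i s)
  have hx0L : x 0 ∈ L := hmem _ (Or.inl rfl)
  have hy0L : ∀ i s, y 0 i s ∈ L := fun i s =>
    hmem _ (Or.inr (Or.inl (Set.mem_iUnion.2 ⟨i, s, rfl⟩)))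
  -- the orbit over `L`
  let x' : ℕ → L := fun n => ⟨x 0, hx0L⟩ + (n : L)
  let y' : ℕ → ι → Fin 2 → L := fun n => Nat.rec (fun i s => ⟨y 0 i s, hy0L i s⟩)
    (fun n Y i s => eval (pnt (x' n) (Y i)) (h' i s)) n
  have hx' : ∀ n, x' (n + 1) = x' n + 1 := by
    intro n
    simp only [x']
    push_cast
    ring
  have hxx : ∀ n, algebraMap L ℂ (x' n) = x n := by
    intro n
    induction n with
    | zero => simp [x']
    | succ n ih => rw [hx', map_add, ih, map_one, hx]
  have hyy : ∀ n i s, algebraMap L ℂ (y' n i s) = y n i s := by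
    intro n
    induction n with
    | zero => intro i s; rfl
    | succ n ih =>
      intro i s
      have h1 : y' (n + 1) i s = eval (pnt (x' n) (y' n i)) (h' i s) := rfl
      rw [h1, ← eval_map_hom, hh', hy]
      congr 2
      funext o
      cases o with
      | none => exact hxx n
      | some t => exact ih i t
  have hinj : Function.Injective (algebraMap L ℂ) := (algebraMap L ℂ).injective
  have key := split_main (K := L) (algebraMap L ℂ) d hd h'
    (by
      intro i s a ha
      apply hh i s a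
      rw [← hh' i s, mem_support_iff, coeff_map]
      intro h0
      exact mem_support_iff.1 ha (hinj (by rw [h0, map_zero])))
    (by
      intro i z hz
      obtain ⟨s, hs⟩ := hne i z hz
      exact ⟨s, by rw [hh']; exact hs⟩)
    x' y' hx'
    (by
      intro i h0
      apply hy0 i
      funext s
      have h1 := hyy 0 i s
      rw [h0] at h1
      simpa using h1.symm)
    (fun n i s => rfl) V hV
  have hz : ∀ n, (fun v => algebraMap L ℂ (zz x' y' n v)) = zz x y n := by
    intro n
    funext v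
    cases v with
    | none => exact hxx n
    | some q => exact hyy n q.1 q.2
  simp only [hz] at key
  exact key

end Pool.Agent.T2H18
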