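import Pool.Agent.T2H18.Exact

set_option autoImplicit false

/-! Growth of sequences of heights. -/

namespace Pool.Agent.T2H18

open NumberField Height

lemma log_succ (n : ℕ) : Real.log ((n + 1 : ℕ) + 2) ≤ 5 / 3 * Real.log (n + 2) := by
  have h1 : 3 * Real.log ((n + 1 : ℕ) + 2) ≤ 5 * Real.log ((n : ℝ) + 2) := by
    have h2 : (3 : ℝ) * Real.log ((n + 1 : ℕ) + 2) = Real.log ((((n + 1 : ℕ) : ℝ) + 2) ^ 3) := by
      rw [Real.log_pow]; push_cast; ring
    have h3 : (5 : ℝ) * Real.log ((n : ℝ) + 2) = Real.log (((n : ℝ) + 2) ^ 5) := by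
      rw [Real.log_pow]; push_cast; ring
    rw [h2, h3]
    apply Real.log_le_log (by positivity)
    push_cast
    have hn : (0 : ℝ) ≤ n := Nat.cast_nonneg _
    have h4 : ((n : ℝ) + 2) ^ 5 - (n + 1 + 2) ^ 3 =
        n ^ 5 + 10 * n ^ 4 + 39 * n ^ 3 + 71 * n ^ 2 + 53 * n + 5 := by ring
    have h5 : (0 : ℝ) ≤ (n : ℝ) ^ 5 + 10 * n ^ 4 + 39 * n ^ 3 + 71 * n ^ 2 + 53 * n + 5 := by
      positivity
    linarith
  linarith

/-- The dichotomy: logarithmic growth or full exponential growth. -/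
theorem dichotomy (H : ℕ → ℝ) (d : ℕ) (hd : 2 ≤ d) (C : ℝ) (hC : 0 ≤ C)
    (h : ∀ n, d * H n ≤ H (n + 1) + C * Real.log (n + 2)) :
    (∀ n : ℕ, H n ≤ 3 * C * Real.log (n + 2)) ∨
      ∃ c : ℝ, 0 < c ∧ ∃ n₁, ∀ n, n₁ ≤ n → c * (d : ℝ) ^ n ≤ H n := by
  by_cases hall : ∀ n : ℕ, H n ≤ 3 * C * Real.log (n + 2)
  · left; exact hall
  right
  push Not at hall
  obtain ⟨n₀, hn₀⟩ := hall
  have hdR : (2 : ℝ) ≤ d := by exact_mod_cast hd
  set E : ℕ → ℝ := fun n => H n - 3 * C * Real.log (n + 2) with hE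
  have hstep : ∀ n, (d : ℝ) * E n ≤ E (n + 1) := by
    intro n
    have h1 := h n
    have h2 := log_succ n
    have h3 : 0 ≤ Real.log ((n : ℝ) + 2) := log_two_pos.le.trans (log_ge_log_two n)
    simp only [hE]
    have h4 : C * Real.log (((n + 1 : ℕ) : ℝ) + 2) ≤ C * (5 / 3 * Real.log (n + 2)) :=
      mul_le_mul_of_nonneg_left h2 hC
    have h5 : 0 ≤ C * Real.log ((n : ℝ) + 2) := mul_nonneg hC h3
    nlinarith
  have hE0 : 0 < E n₀ := by
    simp only [hE]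
    linarith
  have hpow : ∀ k, (d : ℝ) ^ k * E n₀ ≤ E (n₀ + k) := by
    intro k
    induction k with
    | zero => simp
    | succ k ih =>
      have h1 := hstep (n₀ + k)
      have h2 : (d : ℝ) * (d ^ k * E n₀) ≤ d * E (n₀ + k) :=
        mul_le_mul_of_nonneg_left ih (by linarith)
      calc (d : ℝ) ^ (k + 1) * E n₀ = d * (d ^ k * E n₀) := by ring
        _ ≤ _ := h2
        _ ≤ _ := h1
  refine ⟨E n₀ / (d : ℝ) ^ n₀, by positivity, n₀, fun n hn => ?_⟩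
  obtain ⟨k, rfl⟩ : ∃ k, n = n₀ + k := ⟨n - n₀, by omega⟩
  have h1 := hpow k
  have h2 : E n₀ / (d : ℝ) ^ n₀ * (d : ℝ) ^ (n₀ + k) = d ^ k * E n₀ := by
    rw [pow_add]
    field_simp
  rw [h2]
  refine h1.trans ?_
  simp only [hE]
  have h3 : 0 ≤ 3 * C * Real.log (((n₀ + k : ℕ) : ℝ) + 2) :=
    mul_nonneg (by positivity) (log_two_pos.le.trans (log_ge_log_two _))
  linarith

/-- Growth strictly below `δ ^ n`. -/
def Dom (δ : ℕ) (H : ℕ → ℝ) : Prop := ∃ A : ℝ, 0 ≤ A ∧ ∀ n, H n ≤ A * ((δ : ℝ) - 1 / 4) ^ n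

lemma log_le_pow (δ : ℕ) (hδ : 2 ≤ δ) (n : ℕ) :
    Real.log (n + 2) ≤ 2 * ((δ : ℝ) - 1 / 4) ^ n := by
  have hδR : (2 : ℝ) ≤ δ := by exact_mod_cast hδ
  have h1 : Real.log ((n : ℝ) + 2) ≤ n + 1 := by
    have := Real.log_le_sub_one_of_pos (show (0 : ℝ) < (n : ℝ) + 2 by positivity)
    linarith
  have h2 : 1 + (n : ℝ) * (3 / 4) ≤ (1 + 3 / 4 : ℝ) ^ n :=
    one_add_mul_le_pow (by norm_num) n
  have h3 : (1 + 3 / 4 : ℝ) ^ n ≤ ((δ : ℝ) - 1 / 4) ^ n :=
    pow_le_pow_left₀ (by norm_num) (by linarith) n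
  have h4 : (0 : ℝ) ≤ n := Nat.cast_nonneg _
  linarith

lemma Dom.log {δ : ℕ} (hδ : 2 ≤ δ) {H : ℕ → ℝ} (C : ℝ) (hC : 0 ≤ C)
    (h : ∀ n : ℕ, H n ≤ C * Real.log (n + 2)) : Dom δ H := by
  refine ⟨C * 2, by positivity, fun n => (h n).trans ?_⟩
  rw [mul_assoc]
  exact mul_le_mul_of_nonneg_left (log_le_pow δ hδ n) hC

lemma Dom.add {δ : ℕ} (hδ : 2 ≤ δ) {H H' : ℕ → ℝ} (h : Dom δ H) (h' : Dom δ H') :
    Dom δ (fun n => H n + H' n) := by
  obtain ⟨A, hA, h⟩ := h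
  obtain ⟨A', hA', h'⟩ := h'
  refine ⟨A + A', by positivity, fun n => ?_⟩
  rw [add_mul]
  exact add_le_add (h n) (h' n)

lemma Dom.const_mul {δ : ℕ} {H : ℕ → ℝ} (c : ℝ) (hc : 0 ≤ c) (h : Dom δ H) :
    Dom δ (fun n => c * H n) := by
  obtain ⟨A, hA, h⟩ := h
  refine ⟨c * A, by positivity, fun n => ?_⟩
  rw [mul_assoc]
  exact mul_le_mul_of_nonneg_left (h n) hc

lemma Dom.sum {δ : ℕ} (hδ : 2 ≤ δ) {κ : Type} (s : Finset κ) (H : κ → ℕ → ℝ)
    (h : ∀ i ∈ s, Dom δ (H i)) : Dom δ (fun n => ∑ i ∈ s, H i n) := by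
  classical
  induction s using Finset.induction_on with
  | empty =>
    refine ⟨0, le_rfl, fun n => ?_⟩
    simp
  | insert a s ha ih =>
    simp only [Finset.sum_insert ha]
    exact (h a (Finset.mem_insert_self _ _)).add hδ
      (ih fun i hi => h i (Finset.mem_insert_of_mem hi))

/-- A recursion with a smaller degree. -/
lemma Dom.of_rec {δ : ℕ} (hδ : 2 ≤ δ) (H : ℕ → ℝ) (hH : ∀ n, 0 ≤ H n) (d : ℕ) (hd : d < δ) (C : ℝ)
    (hC : 0 ≤ C) (h : ∀ n, H (n + 1) ≤ d * H n + C * Real.log (n + 2)) : Dom δ H := by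
  have hδR : (2 : ℝ) ≤ δ := by exact_mod_cast hδ
  have hdR : (d : ℝ) + 1 ≤ δ := by exact_mod_cast hd
  have hd0 : (0 : ℝ) ≤ d := Nat.cast_nonneg _
  refine ⟨H 0 + 3 * C, by have := hH 0; positivity, fun n => ?_⟩
  induction n with
  | zero =>
    rw [pow_zero, mul_one]
    linarith
  | succ n ih =>
    have h1 := log_le_pow δ hδ n
    set μ : ℝ := (δ : ℝ) - 1 / 4 with hμ
    have hμ0 : 0 < μ ^ n := by
      have : 0 < μ := by rw [hμ]; linarith
      positivity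
    have hA : 0 ≤ H 0 + 3 * C := by have := hH 0; positivity
    calc H (n + 1) ≤ d * H n + C * Real.log (n + 2) := h n
      _ ≤ d * ((H 0 + 3 * C) * μ ^ n) + C * (2 * μ ^ n) :=
          add_le_add (mul_le_mul_of_nonneg_left ih hd0) (mul_le_mul_of_nonneg_left h1 hC)
      _ = ((H 0 + 3 * C) * d + 2 * C) * μ ^ n := by ring
      _ ≤ ((H 0 + 3 * C) * μ) * μ ^ n := by
          apply mul_le_mul_of_nonneg_right _ hμ0.le
          have h2 : (H 0 + 3 * C) * (3 / 4) ≤ (H 0 + 3 * C) * (μ - d) := by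
            apply mul_le_mul_of_nonneg_left _ hA
            rw [hμ]
            linarith
          have := hH 0
          nlinarith
      _ = _ := by rw [pow_succ]; ring

lemma Dom.lt {δ : ℕ} (hδ : 2 ≤ δ) {H : ℕ → ℝ} (h : Dom δ H) (c : ℝ) (hc : 0 < c) :
    ∃ n₁, ∀ n, n₁ ≤ n → H n < c * (δ : ℝ) ^ n := by
  obtain ⟨A, hA, h⟩ := h
  have hδR : (2 : ℝ) ≤ δ := by exact_mod_cast hδ
  set μ : ℝ := (δ : ℝ) - 1 / 4 with hμ
  have hμ0 : 0 < μ := by rw [hμ]; linarith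
  have hμδ : μ / δ < 1 := by
    rw [div_lt_one (by linarith), hμ]
    linarith
  obtain ⟨n₁, hn₁⟩ := exists_pow_lt_of_lt_one (show 0 < c / (A + 1) by positivity) hμδ
  refine ⟨n₁, fun n hn => ?_⟩
  have h1 : (μ / δ) ^ n < c / (A + 1) :=
    (pow_le_pow_of_le_one (by positivity) hμδ.le hn).trans_lt hn₁
  rw [div_pow, div_lt_div_iff₀ (by positivity) (by positivity)] at h1
  have h2 := h n
  have h3 : 0 < μ ^ n := by positivity
  nlinarith

/-- The heights of the integers. -/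
lemma slow_natCast (K : Type) [Field K] [NumberField K] : Slow (fun n : ℕ => (n : K)) := by
  refine ⟨Module.finrank ℚ K, fun n => ?_⟩
  rw [NumberField.logHeight₁_eq]
  have h1 : ∑ᶠ v : FinitePlace K, Real.posLog (v (n : K)) = 0 := by
    rw [← finsum_zero (α := FinitePlace K)]
    congr 1
    funext v
    rw [Real.posLog_eq_zero_iff]
    rw [abs_of_nonneg (by positivity)]
    have h2 : IsNonarchimedean (v ·) := FinitePlace.add_le v
    exact IsNonarchimedean.apply_natCast_le_one h2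
  rw [h1, add_zero]
  have h2 : ∀ v : InfinitePlace K, (v.mult : ℝ) * Real.posLog (v (n : K)) ≤
      v.mult * Real.log (n + 2) := by
    intro v
    apply mul_le_mul_of_nonneg_left _ (Nat.cast_nonneg _)
    have h3 : v (n : K) = n := by simp
    rw [h3, Real.posLog_apply]
    apply max_le
    · exact log_two_pos.le.trans (log_ge_log_two n)
    · rcases Nat.eq_zero_or_pos n with h4 | h4
      · rw [h4, Nat.cast_zero, Real.log_zero]
        exact log_two_pos.le.trans (by simpa using log_ge_log_two 0)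
      · apply Real.log_le_log (by exact_mod_cast h4)
        linarith
  refine (Finset.sum_le_sum fun v _ => h2 v).trans ?_
  rw [← Finset.sum_mul]
  have h5 : (∑ v : InfinitePlace K, (v.mult : ℝ)) = Module.finrank ℚ K := by
    exact_mod_cast InfinitePlace.sum_mult_eq
  rw [h5]

end Pool.Agent.T2H18
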