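import Pool.Agent.T2H18.Padic
import Pool.Agent.T2H18.Grow

set_option autoImplicit false

/-! Split skew products over the translation: the coordinates with slowly growing heights and the
linear coordinates. -/

namespace Pool.Agent.T2H18

open MvPolynomial Height NumberField Pool.Agent.H936R2 Pool.Agent.R847.Gap

lemma eval_map_hom {A B κ : Type} [CommRing A] [CommRing B] (f : A →+* B) (z : κ → A)
    (P : MvPolynomial κ A) : eval (fun i => f (z i)) (map f P) = f (eval z P) := by
  rw [eval_map]
  have h := eval₂_comp_left f (RingHom.id _) z P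
  rw [RingHom.comp_id] at h
  exact h.symm

lemma Slow.comp_affine {K : Type} [Field K] [NumberField K] {w : ℕ → K} (h : Slow w) (b k : ℕ) :
    Slow (fun m => w (b + k * m)) := by
  obtain ⟨C, hC⟩ := h
  have hC0 : 0 ≤ C := by
    have h1 := (zero_le_logHeight₁ (w 0)).trans (hC 0)
    simp only [CharP.cast_eq_zero, zero_add] at h1
    exact nonneg_of_mul_nonneg_left h1 log_two_pos
  refine Slow.of_le (C * Real.log (b + k + 1)) C fun m => ?_
  refine (hC _).trans ?_
  rw [← mul_add]
  apply mul_le_mul_of_nonneg_left _ hC0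
  rw [← Real.log_mul (by positivity) (by positivity)]
  apply Real.log_le_log (by positivity)
  push_cast
  have h1 : (0 : ℝ) ≤ b := Nat.cast_nonneg _
  have h2 : (0 : ℝ) ≤ k := Nat.cast_nonneg _
  have h3 : (0 : ℝ) ≤ m := Nat.cast_nonneg _
  have h4 : ((b : ℝ) + k + 1) * (m + 2) = b * m + 2 * b + k * m + 2 * k + m + 2 := by ring
  rw [h4]
  have h5 : 0 ≤ (b : ℝ) * m := mul_nonneg h1 h3
  linarith

variable {K : Type} [Field K] [NumberField K] {ι : Type} [Fintype ι] [DecidableEq ι]

/-- The coordinates of the orbit. -/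
def zz (x : ℕ → K) (y : ℕ → ι → Fin 2 → K) (n : ℕ) : Option (ι × Fin 2) → K :=
  fun o => o.elim (x n) fun q => y n q.1 q.2

theorem base_case (σ : K →+* ℂ) (d : ι → ℕ) (h : ι → Fin 2 → MvPolynomial (Option (Fin 2)) K)
    (hh : ∀ i s, ∀ a ∈ (h i s).support, wt a = d i)
    (hcert : ∀ i, ∃ (M : ℕ) (U : Fin 2 × Fin 2 → MvPolynomial (Option (Fin 2)) K),
      ∀ k, ∑ s, U (k, s) * h i s = X (some k) ^ (M + d i))
    (x : ℕ → K) (y : ℕ → ι → Fin 2 → K) (hx : ∀ n, x (n + 1) = x n + 1)
    (hy0 : ∀ i, y 0 i ≠ 0) (hy : ∀ n i s, y (n + 1) i s = eval (pnt (x n) (y n i)) (h i s)) :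
    ∃ n0 k : ℕ, 0 < k ∧ ∀ (F : MvPolynomial (Option (ι × Fin 2)) K) (m : ι → ℕ),
      MultiForm F m →
      (∀ i, m i ≠ 0 → (∃ C : ℝ, ∀ n : ℕ, logHeight (y n i) ≤ C * Real.log (n + 2)) ∨ d i = 1) →
      ∀ r, (∃ N, ∀ l, N ≤ l → eval (zz x y (n0 + r + k * l)) F = 0) ∨
        ∃ N, ∀ l, N ≤ l → eval (zz x y (n0 + r + k * l)) F ≠ 0 := by
  classical
  choose M U hU using hcert
  have hs0 : ∀ i, ∃ s, y 0 i s ≠ 0 := fun i => Function.ne_iff.1 (hy0 i)
  choose s0 hs0 using hs0
  -- the finite set of numbers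
  let cf : {κ : Type} → MvPolynomial κ K → Set ℂ := fun P =>
    (fun μ => σ (P.coeff μ)) '' (P.support : Set _)
  have hcf : ∀ {κ : Type} (P : MvPolynomial κ K), (cf P).Finite := fun P =>
    P.support.finite_toSet.image _
  let s1 : Set ℂ := ⋃ i, ⋃ s, cf (h i s)
  let s2 : Set ℂ := ⋃ i, ⋃ q, cf (U i q)
  let s3 : Set ℂ := insert (σ (x 0)) (⋃ i, Set.range fun s => σ (y 0 i s))
  let s4 : Set ℂ := Set.range fun i => (σ (y 0 i (s0 i)))⁻¹
  have hs : (s1 ∪ s2 ∪ s3 ∪ s4).Finite :=
    (((Set.finite_iUnion fun i => Set.finite_iUnion fun s => hcf _).union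
      (Set.finite_iUnion fun i => Set.finite_iUnion fun s => hcf _)).union
      ((Set.finite_iUnion fun i => Set.finite_range _).insert _)).union (Set.finite_range _)
  obtain ⟨N₀, hN₀⟩ := emb_finite hs.toFinset
  obtain ⟨p, hpN, hp⟩ := Nat.exists_infinite_primes (N₀ + 1)
  have : Fact p.Prime := ⟨hp⟩
  obtain ⟨τ, hτ⟩ := hN₀ p (by omega)
  have hτ' : ∀ c ∈ s1 ∪ s2 ∪ s3 ∪ s4, ‖τ c‖ ≤ 1 := fun c hc => hτ c (hs.mem_toFinset.2 hc)
  set τK : K →+* PadicAlgCl p := (τ : ℂ →+* PadicAlgCl p).comp σ with hτK
  have hτKv : ∀ c, τK c = τ (σ c) := fun c => rfl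
  have hp0 := norm_p_pos p
  have hp1 := norm_p_lt p
  -- lifts
  have hlift : ∀ {κ : Type} (P : MvPolynomial κ K), (∀ c ∈ cf P, ‖τ c‖ ≤ 1) →
      ∃ Q : MvPolynomial κ (unitBall (PadicAlgCl p)),
        map (unitBall (PadicAlgCl p)).subtype Q = map τK P := by
    intro κ P hP
    apply Pool.Agent.R847.Gap.exists_lift
    intro μ
    rw [coeff_map]
    by_cases hμ : μ ∈ P.support
    · exact hP _ ⟨μ, hμ, rfl⟩
    · rw [notMem_support_iff.1 hμ, map_zero, norm_zero]
      exact zero_le_one
  have hliftval : ∀ {κ : Type} (P : MvPolynomial κ K)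
      (Q : MvPolynomial κ (unitBall (PadicAlgCl p))),
      map (unitBall (PadicAlgCl p)).subtype Q = map τK P →
      ∀ w : κ → unitBall (PadicAlgCl p), ((eval w Q : unitBall (PadicAlgCl p)) : PadicAlgCl p) =
        eval (fun v => (w v : PadicAlgCl p)) (map τK P) := by
    intro κ P Q hQ w
    rw [eval_coe, hQ]
  have hliftK : ∀ {κ : Type} (P : MvPolynomial κ K)
      (Q : MvPolynomial κ (unitBall (PadicAlgCl p))),
      map (unitBall (PadicAlgCl p)).subtype Q = map τK P →
      ∀ (w : κ → unitBall (PadicAlgCl p)) (z : κ → K), (∀ v, (w v : PadicAlgCl p) = τK (z v)) →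
      ((eval w Q : unitBall (PadicAlgCl p)) : PadicAlgCl p) = τK (eval z P) := by
    intro κ P Q hQ w z hwz
    rw [hliftval P Q hQ, ← eval_map_hom]
    congr 2
    funext v
    exact hwz v
  have hh1 : ∀ i s, ∃ Q : MvPolynomial (Option (Fin 2)) (unitBall (PadicAlgCl p)),
      map (unitBall (PadicAlgCl p)).subtype Q = map τK (h i s) := fun i s =>
    hlift (h i s) fun c hc => hτ' c (Or.inl (Or.inl (Or.inl
      (Set.mem_iUnion.2 ⟨i, Set.mem_iUnion.2 ⟨s, hc⟩⟩))))
  choose hO hhO using hh1
  have hU1 : ∀ i q, ∃ Q : MvPolynomial (Option (Fin 2)) (unitBall (PadicAlgCl p)),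
      map (unitBall (PadicAlgCl p)).subtype Q = map τK (U i q) := fun i s =>
    hlift (U i s) fun c hc => hτ' c (Or.inl (Or.inl (Or.inr
      (Set.mem_iUnion.2 ⟨i, Set.mem_iUnion.2 ⟨s, hc⟩⟩))))
  choose UO hUO using hU1
  have hhd : ∀ i s, ∀ a ∈ (hO i s).support, wt a = d i := by
    intro i s a ha
    apply hh i s a
    rw [mem_support_iff] at ha ⊢
    intro h0
    apply ha
    have h1 := congrArg (coeff a) (hhO i s)
    rw [coeff_map, coeff_map, h0, map_zero] at h1
    exact Subtype.ext h1
  have hnorm : ∀ i (t : unitBall (PadicAlgCl p)) (u : Fin 2 → unitBall (PadicAlgCl p)),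
      (∃ s, ‖(u s : PadicAlgCl p)‖ = 1) →
      ∃ s, ‖((eval (pnt t u) (hO i s) : unitBall (PadicAlgCl p)) : PadicAlgCl p)‖ = 1 := by
    rintro i t u ⟨k, hk⟩
    by_contra hcon
    push Not at hcon
    have h1 : ∀ s, ‖((eval (pnt t u) (hO i s) : unitBall (PadicAlgCl p)) : PadicAlgCl p)‖ < 1 :=
      fun s => lt_of_le_of_ne (unitBall_norm_le _) (hcon s)
    have h2 := congrArg (fun P => eval (fun v => ((pnt t u v : unitBall (PadicAlgCl p)) :
      PadicAlgCl p)) (map τK P)) (hU i k)
    simp only [map_sum, map_mul, map_pow, map_X, eval_X] at h2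
    have h3 : ‖∑ s, (eval fun v => ((pnt t u v : unitBall (PadicAlgCl p)) : PadicAlgCl p))
        (map τK (U i (k, s))) *
        (eval fun v => ((pnt t u v : unitBall (PadicAlgCl p)) : PadicAlgCl p))
        (map τK (h i s))‖ < 1 := by
      have h4 : ∀ s, ‖(eval fun v => ((pnt t u v : unitBall (PadicAlgCl p)) : PadicAlgCl p))
          (map τK (U i (k, s))) *
          (eval fun v => ((pnt t u v : unitBall (PadicAlgCl p)) : PadicAlgCl p))
          (map τK (h i s))‖ < 1 := by
        intro s
        rw [norm_mul, ← hliftval _ _ (hUO i (k, s)), ← hliftval _ _ (hhO i s)]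
        calc _ ≤ 1 * ‖((eval (pnt t u) (hO i s) : unitBall (PadicAlgCl p)) : PadicAlgCl p)‖ :=
              mul_le_mul_of_nonneg_right (unitBall_norm_le _) (norm_nonneg _)
          _ = _ := one_mul _
          _ < 1 := h1 s
      rw [Fin.sum_univ_two]
      exact (IsUltrametricDist.norm_add_le_max _ _).trans_lt (max_lt (h4 0) (h4 1))
    rw [h2, norm_pow] at h3
    have h5 : ((pnt t u (some k) : unitBall (PadicAlgCl p)) : PadicAlgCl p) = u k := rfl
    rw [h5, hk, one_pow] at h3
    exact lt_irrefl _ h3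
  -- the starting point
  let a : Option (ι × Fin 2) → unitBall (PadicAlgCl p) := fun o =>
    ⟨τK (zz x y 0 o), by
      rw [mem_unitBall]
      apply hτ'
      left; right
      cases o with
      | none => left; rfl
      | some q =>
        right
        exact Set.mem_iUnion.2 ⟨q.1, q.2, rfl⟩⟩
  have ha : ∀ i, ∃ s, ‖(a (some (i, s)) : PadicAlgCl p)‖ = 1 := by
    intro i
    refine ⟨s0 i, le_antisymm (unitBall_norm_le _) ?_⟩
    have h1 : ‖τ (σ (y 0 i (s0 i)))⁻¹‖ ≤ 1 := hτ' _ (Or.inr ⟨i, rfl⟩)
    have h2 : (a (some (i, s0 i)) : PadicAlgCl p) = τ (σ (y 0 i (s0 i))) := rfl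
    rw [map_inv₀, norm_inv] at h1
    rw [h2]
    have h3 : 0 < ‖τ (σ (y 0 i (s0 i)))‖ := by
      rw [norm_pos_iff, ← hτKv]
      exact (map_ne_zero τK).2 (hs0 i)
    exact (inv_le_one₀ h3).1 h1
  have horb : ∀ n o, (((pt (smap hO))^[n] a o : unitBall (PadicAlgCl p)) : PadicAlgCl p) =
      τK (zz x y n o) := by
    intro n
    induction n with
    | zero => intro o; rfl
    | succ n ih =>
      intro o
      rw [Function.iterate_succ_apply']
      cases o with
      | none =>
        rw [pt_smap_none]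
        push_cast
        rw [ih none]
        simp only [zz, Option.elim_none]
        rw [hx, map_add, map_one]
      | some q =>
        obtain ⟨i, s⟩ := q
        rw [pt_smap_some]
        have h1 : zz x y (n + 1) (some (i, s)) = eval (pnt (x n) (y n i)) (h i s) := hy n i s
        rw [h1]
        apply hliftK _ _ (hhO i s)
        intro v
        cases v with
        | none => exact ih none
        | some s' => exact ih (some (i, s'))
  obtain ⟨n0, k, z', hk, hx', hlin, hsh, hch⟩ := padic_core p hO d hhd hnorm a ha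
  have hxn : ∀ n, x n = x 0 + n := by
    intro n
    induction n with
    | zero => simp
    | succ n ih =>
      rw [hx, ih]
      push_cast
      ring
  obtain ⟨q, hq0, -, hqint⟩ := exists_nat_le_mulHeight₁ (x 0)
  refine ⟨n0, k, hk, fun F m hF hm r => ?_⟩
  set t : ℕ → K := fun l => x (n0 + r + k * l) with ht
  have htint : ∀ l, IsIntegral ℤ ((q : K) * t l) := by
    intro l
    simp only [ht]
    rw [hxn, mul_add]
    exact hqint.add ((isIntegral_natCast' q).mul (isIntegral_natCast' _))
  have htslow : Slow t := by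
    have h1 : Slow fun n : ℕ => x n := by
      have h2 : (fun n : ℕ => x n) = fun n : ℕ => x 0 + (n : K) := by
        funext n
        exact hxn n
      rw [h2]
      exact (Slow.const (x 0)).add (slow_natCast K)
    exact h1.comp_affine _ _
  have htinj : Function.Injective t := by
    intro l l' hll
    simp only [ht] at hll
    rw [hxn (n0 + r + k * l), hxn (n0 + r + k * l')] at hll
    have h1 : ((n0 + r + k * l : ℕ) : K) = ((n0 + r + k * l' : ℕ) : K) := add_left_cancel hll
    have h2 : n0 + r + k * l = n0 + r + k * l' := Nat.cast_injective h1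
    have h3 : k * l = k * l' := by omega
    exact Nat.eq_of_mul_eq_mul_left hk h3
  -- the scaling factors
  have hscale : ∀ i, m i ≠ 0 → ∃ N, ∀ l, N ≤ l → ∃ lam : PadicAlgCl p, lam ≠ 0 ∧
      ∀ s, ((pt (smap hO))^[r + k * l] z' (some (i, s)) : PadicAlgCl p) =
        lam * τK (y (n0 + r + k * l) i s) := by
    intro i hi
    rcases hm i hi with ⟨C, hC⟩ | hd1
    · obtain ⟨s, hs⟩ := hch r i
      obtain ⟨s', hs', hss⟩ : ∃ s', s' ≠ s ∧ ∀ j, j = s ∨ j = s' := by
        fin_cases s
        · exact ⟨1, by simp, fun j => by fin_cases j <;> simp⟩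
        · exact ⟨0, by simp, fun j => by fin_cases j <;> simp⟩
      have hys : ∀ l, y (n0 + r + k * l) i s ≠ 0 := by
        intro l h0
        have h1 := (hs l).1
        rw [horb] at h1
        have h2 : zz x y (n0 + r + k * l) (some (i, s)) = 0 := h0
        rw [h2, map_zero, norm_zero] at h1
        exact zero_ne_one h1
      have hwslow : Slow fun l => y (n0 + r + k * l) i s' / y (n0 + r + k * l) i s := by
        have h1 : Slow fun n => y n i s' / y n i s := by
          refine ⟨C, fun n => le_trans (le_of_eq ?_) (hC n)⟩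
          rw [logHeight₁_div_eq_logHeight]
          have h2 : y n i = ![y n i 0, y n i 1] := by
            funext j
            fin_cases j <;> rfl
          fin_cases s
          · have h3 : s' = 1 := by
              rcases hss 1 with h | h
              · exact absurd h (by simp)
              · exact h.symm
            subst h3
            rw [h2, logHeight_swap]
            rfl
          · have h3 : s' = 0 := by
              rcases hss 0 with h | h
              · exact absurd h (by simp)
              · exact h.symm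
            subst h3
            rw [h2]
            rfl
        exact h1.comp_affine _ _
      obtain ⟨N, hN⟩ := exact_shadow τK (hsh r) t
        (fun l => y (n0 + r + k * l) i s' / y (n0 + r + k * l) i s) (X none)
        (X (some (i, s'))) (X (some (i, s))) q hq0 htint htslow htinj hwslow
        (fun l => by
          rw [aeval_X]
          exact horb _ _)
        (fun l => by
          rw [aeval_X, hx' (r + k * l), ← Nat.add_assoc]
          exact horb _ _)
        (fun l => by
          rw [aeval_X, aeval_X, horb, horb, ← map_mul]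
          congr 1
          have h1 := hys l
          simp only [zz, Option.elim_some]
          field_simp)
        (fun l => by
          rw [aeval_X]
          exact (hs l).1)
        (fun l => by
          rw [aeval_X]
          exact (hs l).2)
      refine ⟨N, fun l hl => ?_⟩
      have h1 := hN l hl
      rw [aeval_X, aeval_X] at h1
      have h2 : τK (y (n0 + r + k * l) i s) ≠ 0 := (map_ne_zero τK).2 (hys l)
      have h3 : ((pt (smap hO))^[r + k * l] z' (some (i, s)) : PadicAlgCl p) ≠ 0 := by
        intro h0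
        have h4 := (hs l).2
        rw [h0, norm_zero] at h4
        exact zero_ne_one h4
      refine ⟨((pt (smap hO))^[r + k * l] z' (some (i, s)) : PadicAlgCl p) /
        τK (y (n0 + r + k * l) i s), div_ne_zero h3 h2, fun j => ?_⟩
      rcases hss j with rfl | rfl
      · field_simp
      · rw [h1, map_div₀]
        ring
    · refine ⟨0, fun l _ => ⟨1, one_ne_zero, fun s => ?_⟩⟩
      rw [hlin i hd1 (r + k * l) s, ← Nat.add_assoc, horb, one_mul]
      rfl
  -- a uniform bound
  have hscale' : ∃ N, ∀ l, N ≤ l → ∀ i, m i ≠ 0 → ∃ lam : PadicAlgCl p, lam ≠ 0 ∧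
      ∀ s, ((pt (smap hO))^[r + k * l] z' (some (i, s)) : PadicAlgCl p) =
        lam * τK (y (n0 + r + k * l) i s) := by
    have h1 : ∀ i, ∃ N, m i ≠ 0 → ∀ l, N ≤ l → ∃ lam : PadicAlgCl p, lam ≠ 0 ∧
      ∀ s, ((pt (smap hO))^[r + k * l] z' (some (i, s)) : PadicAlgCl p) =
        lam * τK (y (n0 + r + k * l) i s) := by
      intro i
      by_cases hi : m i = 0
      · exact ⟨0, fun h => absurd hi h⟩
      · obtain ⟨N, hN⟩ := hscale i hi
        exact ⟨N, fun _ => hN⟩
    choose N hN using h1
    refine ⟨Finset.univ.sup N, fun l hl i hi => hN i hi l ?_⟩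
    exact (Finset.le_sup (Finset.mem_univ i)).trans hl
  obtain ⟨N, hN⟩ := hscale'
  obtain ⟨c, Q, hc, hQ⟩ := exists_scale p hp1 (map τK F)
  have hF' : MultiForm (map τK F) m := by
    intro b hb i
    apply hF b
    exact support_map_subset _ _ hb
  have hQz : ∀ l, ((eval ((pt (smap hO))^[n0 + r + k * l] a) Q : unitBall (PadicAlgCl p)) :
      PadicAlgCl p) = c * τK (eval (zz x y (n0 + r + k * l)) F) := by
    intro l
    rw [eval_coe, hQ, map_mul, eval_C, ← eval_map_hom]
    congr 3
    funext o
    exact horb _ _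
  have hQz' : ∀ l, N ≤ l → ∃ μ : PadicAlgCl p, μ ≠ 0 ∧
      ((eval ((pt (smap hO))^[r + k * l] z') Q : unitBall (PadicAlgCl p)) : PadicAlgCl p) =
      μ * τK (eval (zz x y (n0 + r + k * l)) F) := by
    intro l hl
    choose lam hlam0 hlam using hN l hl
    let L : ι → PadicAlgCl p := fun i => if hi : m i ≠ 0 then lam i hi else 1
    have hL0 : ∀ i, L i ≠ 0 := by
      intro i
      simp only [L]
      split_ifs with hi
      · exact hlam0 i hi
      · exact one_ne_zero
    refine ⟨c * ∏ i, L i ^ m i, mul_ne_zero hc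
      (Finset.prod_ne_zero_iff.2 fun i _ => pow_ne_zero _ (hL0 i)), ?_⟩
    rw [eval_coe, hQ, map_mul, eval_C, ← eval_map_hom, mul_assoc]
    congr 1
    apply eval_scale (map τK F) m hF'
    · change ((pt (smap hO))^[r + k * l] z' none : PadicAlgCl p) = _
      rw [hx' (r + k * l), ← Nat.add_assoc, horb]
    · intro i
      by_cases hi : m i = 0
      · left; exact hi
      · right
        intro s
        simp only [L]
        rw [dif_pos hi]
        exact hlam i hi s
  by_cases hinf : {l | eval ((pt (smap hO))^[r + k * l] z') Q = 0}.Infinite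
  · left
    refine ⟨N, fun l hl => ?_⟩
    have h1 := (hsh r).inf Q (by simpa only [aeval_eq_eval] using hinf) l
    obtain ⟨μ, hμ, h2⟩ := hQz' l hl
    have h3 : eval ((pt (smap hO))^[r + k * l] z') Q = 0 := h1
    rw [h3, ZeroMemClass.coe_zero] at h2
    exact (map_eq_zero τK).1 ((mul_eq_zero.1 h2.symm).resolve_left hμ)
  · right
    rw [Set.not_infinite] at hinf
    obtain ⟨B, hB⟩ := hinf.bddAbove
    refine ⟨max N (B + 1), fun l hl h0 => ?_⟩
    obtain ⟨μ, hμ, h2⟩ := hQz' l ((le_max_left _ _).trans hl)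
    rw [h0, map_zero, mul_zero] at h2
    have h3 : eval ((pt (smap hO))^[r + k * l] z') Q = 0 := Subtype.ext h2
    have h4 := hB h3
    have h5 := (le_max_right N (B + 1)).trans hl
    omega

end Pool.Agent.T2H18
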