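import Pool.Agent.T2H18.HtB

set_option autoImplicit false

/-! Certificates of the Nullstellensatz for two binary forms with coefficients in `K[x]` which have
no common zero over `ℂ`. -/

namespace Pool.Agent.T2H18

open MvPolynomial

/-- The degree in the variables `some 0`, `some 1`. -/
def wt (a : Option (Fin 2) →₀ ℕ) : ℕ := a (some 0) + a (some 1)

lemma wt_add (a b : Option (Fin 2) →₀ ℕ) : wt (a + b) = wt a + wt b := by
  simp only [wt, Finsupp.add_apply]
  ring

lemma wt_single (k : Fin 2) (e : ℕ) : wt (Finsupp.single (some k) e) = e := by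
  fin_cases k <;> simp [wt]

theorem cert_small {K : Type} [Field K] (σ : K →+* ℂ)
    (h : Fin 2 → MvPolynomial (Option (Fin 2)) K) (d : ℕ)
    (hh : ∀ s, ∀ a ∈ (h s).support, wt a = d)
    (hne : ∀ z : Option (Fin 2) → ℂ, (∃ s, z (some s) ≠ 0) → ∃ s, eval z (map σ (h s)) ≠ 0) :
    ∃ (M : ℕ) (U : Fin 2 × Fin 2 → MvPolynomial (Option (Fin 2)) K),
      (∀ q, ∀ a ∈ (U q).support, wt a = M) ∧
      ∀ k, ∑ s, U (k, s) * h s = X (some k) ^ (M + d) := by
  classical
  have hrad : ∀ k : Fin 2, (X (some k) : MvPolynomial (Option (Fin 2)) ℂ) ∈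
      (Ideal.span (Set.range fun s => map σ (h s))).radical := by
    intro k
    rw [← MvPolynomial.vanishingIdeal_zeroLocus_eq_radical (K := ℂ),
      MvPolynomial.mem_vanishingIdeal_iff]
    intro z hz
    rw [MvPolynomial.mem_zeroLocus_iff] at hz
    rw [aeval_X]
    by_contra hk
    obtain ⟨s, hs⟩ := hne z ⟨k, hk⟩
    exact hs (hz _ (Ideal.subset_span ⟨s, rfl⟩))
  choose e he using hrad
  have hV : ∀ k, ∃ V : Fin 2 → MvPolynomial (Option (Fin 2)) ℂ,
      ∑ s, V s * map σ (h s) = X (some k) ^ e k := by
    intro k
    have h1 := he k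
    rw [Ideal.mem_span_range_iff_exists_fun] at h1
    exact h1
  choose V hV using hV
  set E : ℕ := e 0 + e 1 + d with hE
  have hek : ∀ k, e k ≤ E - d + d := by
    intro k
    fin_cases k
    · simp only [Fin.zero_eta]; omega
    · simp only [Fin.mk_one]; omega
  set M : ℕ := E - d with hM
  have hMd : M + d = E := by omega
  let W : Fin 2 → Fin 2 → MvPolynomial (Option (Fin 2)) ℂ := fun k s =>
    X (some k) ^ (E - e k) * V k s
  have hW : ∀ k, ∑ s, W k s * map σ (h s) = X (some k) ^ E := by
    intro k
    have h1 : E - e k + e k = E := by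
      have := hek k
      omega
    calc ∑ s, W k s * map σ (h s) = X (some k) ^ (E - e k) * ∑ s, V k s * map σ (h s) := by
          rw [Finset.mul_sum]
          apply Finset.sum_congr rfl
          intro s _
          simp only [W]
          ring
      _ = _ := by rw [hV, ← pow_add, h1]
  -- the functional
  let : Algebra K ℂ := σ.toAlgebra
  have hker : LinearMap.ker (Algebra.linearMap K ℂ) = ⊥ := by
    rw [LinearMap.ker_eq_bot]
    exact σ.injective
  obtain ⟨φ, hφ⟩ := LinearMap.exists_leftInverse_of_injective (Algebra.linearMap K ℂ) hker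
  have hφσ : ∀ c : K, ∀ v : ℂ, φ (v * σ c) = φ v * c := by
    intro c v
    have h1 : v * σ c = c • v := by
      rw [Algebra.smul_def, mul_comm]
      rfl
    rw [h1, map_smul, smul_eq_mul, mul_comm]
  have hφ1 : φ 1 = 1 := by
    have h1 := LinearMap.congr_fun hφ 1
    simpa using h1
  let U : Fin 2 × Fin 2 → MvPolynomial (Option (Fin 2)) K := fun q =>
    ∑ a ∈ (W q.1 q.2).support, if wt a = M then monomial a (φ ((W q.1 q.2).coeff a)) else 0
  have hU : ∀ q a, (U q).coeff a = if wt a = M then φ ((W q.1 q.2).coeff a) else 0 := by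
    intro q a
    simp only [U]
    rw [coeff_sum]
    by_cases ha : a ∈ (W q.1 q.2).support
    · rw [Finset.sum_eq_single_of_mem a ha]
      · split_ifs
        · rw [coeff_monomial, if_pos rfl]
        · rw [coeff_zero]
      · intro b _ hb
        split_ifs
        · rw [coeff_monomial, if_neg hb]
        · rw [coeff_zero]
    · rw [Finset.sum_eq_zero]
      · rw [notMem_support_iff.1 ha, map_zero, ite_self]
      · intro b hb
        have hba : b ≠ a := fun h0 => ha (h0 ▸ hb)
        split_ifs
        · rw [coeff_monomial, if_neg hba]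
        · rw [coeff_zero]
  refine ⟨M, U, fun q a ha => ?_, fun k => ?_⟩
  · rw [mem_support_iff, hU] at ha
    by_contra hne
    rw [if_neg hne] at ha
    exact ha rfl
  · ext c
    rw [hMd, coeff_sum, coeff_X_pow]
    have hterm : ∀ s, coeff c (U (k, s) * h s) =
        if wt c = E then φ (coeff c (W k s * map σ (h s))) else 0 := by
      intro s
      rw [coeff_mul, coeff_mul]
      split_ifs with hc
      · rw [map_sum]
        apply Finset.sum_congr rfl
        intro x hx
        rw [Finset.HasAntidiagonal.mem_antidiagonal] at hx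
        rw [coeff_map, hφσ, hU]
        by_cases hx2 : coeff x.2 (h s) = 0
        · rw [hx2, mul_zero, mul_zero]
        · have h1 := hh s x.2 (mem_support_iff.2 hx2)
          have h2 : wt x.1 = M := by
            have h3 := wt_add x.1 x.2
            rw [hx, hc, h1] at h3
            omega
          rw [if_pos h2]
      · apply Finset.sum_eq_zero
        intro x hx
        rw [Finset.HasAntidiagonal.mem_antidiagonal] at hx
        rw [hU]
        by_cases hx2 : coeff x.2 (h s) = 0
        · rw [hx2, mul_zero]
        · have h1 := hh s x.2 (mem_support_iff.2 hx2)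
          have h2 : ¬ wt x.1 = M := by
            intro h4
            have h3 := wt_add x.1 x.2
            rw [hx, h4, h1] at h3
            exact hc (by omega)
          rw [if_neg h2, zero_mul]
    rw [Finset.sum_congr rfl fun s _ => hterm s]
    split_ifs with hc1 hc2 hc2
    · rw [← map_sum, ← coeff_sum, hW, coeff_X_pow, if_pos hc2, hφ1]
    · rw [← map_sum, ← coeff_sum, hW, coeff_X_pow, if_neg hc2, map_zero]
    · exfalso
      apply hc1
      rw [← hc2, wt_single]
    · simp

section big

variable {ι : Type} [Fintype ι] [DecidableEq ι]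

/-- The variables of the fibre with index `i`. -/
def emb (i : ι) : Option (Fin 2) → Option (ι × Fin 2) := Option.map fun s => (i, s)

omit [Fintype ι] [DecidableEq ι] in
lemma emb_injective (i : ι) : Function.Injective (emb i) :=
  Option.map_injective fun _ _ h => (Prod.ext_iff.1 h).2

omit [Fintype ι] in
lemma multiForm_rename {R : Type} [CommRing R] (i : ι) (P : MvPolynomial (Option (Fin 2)) R)
    (d : ℕ) (hP : ∀ a ∈ P.support, wt a = d) :
    MultiForm (rename (emb i) P) (Pi.single i d) := by
  classical
  intro a ha j
  rw [support_rename_of_injective (emb_injective i), Finset.mem_image] at ha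
  obtain ⟨b, hb, rfl⟩ := ha
  have h1 := hP b hb
  by_cases hj : j = i
  · subst hj
    have h2 : ∀ s, (Finsupp.mapDomain (emb j) b) (some (j, s)) = b (some s) := fun s =>
      Finsupp.mapDomain_apply (emb_injective j) b (some s)
    rw [h2, h2, Pi.single_eq_same, ← h1]
    rfl
  · have h2 : ∀ s, (Finsupp.mapDomain (emb i) b) (some (j, s)) = 0 := by
      intro s
      apply Finsupp.mapDomain_of_notMem_range
      rintro ⟨x, hx⟩
      cases x with
      | none => simp [emb] at hx
      | some x =>
        simp only [emb, Option.map_some, Option.some.injEq, Prod.mk.injEq] at hx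
        exact hj hx.1.symm
    rw [h2, h2, Pi.single_eq_of_ne hj, add_zero]

omit [Fintype ι] [DecidableEq ι] in
lemma eval_rename_emb {R : Type} [CommRing R] (i : ι) (P : MvPolynomial (Option (Fin 2)) R)
    (z : Option (ι × Fin 2) → R) :
    eval z (rename (emb i) P) = eval (fun v => z (emb i v)) P := by
  rw [eval_rename]
  rfl

end big

end Pool.Agent.T2H18
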