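import Pool.Agent.R847.Gap.Core

set_option autoImplicit false

/-! The orbit of a polynomial self-map over the integers of the algebraic closure of `ℚ_p` and an
analytic orbit near to it, in one statement. -/

namespace Pool.Agent.T2H18

open MvPolynomial Pool.Agent.H936R2 Pool.Agent.R847.Gap Filter

lemma not_expSparse_of_forall {A : Set ℕ} (M : ℕ) (h : ∀ m, M ≤ m → m ∈ A) : ¬ ExpSparse A := by
  rintro ⟨M₀, δ, n₁, hδ, hA⟩
  obtain ⟨n, hn⟩ := exists_nat_ge (max (max (M : ℝ) (M₀ : ℝ)) (max (n₁ : ℝ) (8 / δ ^ 2)))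
  have h1 : (M : ℝ) ≤ n := (le_max_left _ _).trans ((le_max_left _ _).trans hn)
  have h2 : (M₀ : ℝ) ≤ n := (le_max_right _ _).trans ((le_max_left _ _).trans hn)
  have h3 : (n₁ : ℝ) ≤ n := (le_max_left _ _).trans ((le_max_right _ _).trans hn)
  have h4 : 8 / δ ^ 2 ≤ n := (le_max_right _ _).trans ((le_max_right _ _).trans hn)
  have h5 := hA n (by exact_mod_cast h3) (Finset.Icc n (n + M₀)) (by
    intro m hm
    rw [Finset.mem_Icc] at hm
    refine ⟨h m ?_, hm.1, ?_⟩
    · have : M ≤ n := by exact_mod_cast h1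
      omega
    · have h6 : (m : ℝ) ≤ n + M₀ := by exact_mod_cast hm.2
      have h7 : (δ * n / 2) ^ 2 ≤ Real.exp (δ * n) := by
        have h8 : δ * n / 2 ≤ Real.exp (δ * n / 2) := by
          have := Real.add_one_le_exp (δ * n / 2)
          linarith
        have h9 : Real.exp (δ * n) = Real.exp (δ * n / 2) ^ 2 := by
          rw [← Real.exp_nat_mul]
          congr 1
          push_cast
          ring
        rw [h9]
        exact pow_le_pow_left₀ (by positivity) h8 2
      have h8 : 8 ≤ n * δ ^ 2 := by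
        rwa [div_le_iff₀ (by positivity)] at h4
      have h9 : (0 : ℝ) ≤ n := Nat.cast_nonneg _
      have h10 : 2 * (n : ℝ) ≤ (δ * n / 2) ^ 2 := by
        have : (δ * n / 2) ^ 2 = n * (n * δ ^ 2) / 4 := by ring
        rw [this]
        nlinarith
      linarith)
  rw [Nat.card_Icc] at h5
  omega

lemma eval_sub_dvd {O ι : Type} [CommRing O] (π : O) (b u v : ι → O) (Q : MvPolynomial ι O) :
    ∃ z, eval (fun i => b i + π * u i) Q - eval (fun i => b i + π * v i) Q = π * z := by
  induction Q using MvPolynomial.induction_on with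
  | C a => exact ⟨0, by simp⟩
  | add P Q hP hQ =>
    obtain ⟨z, hz⟩ := hP
    obtain ⟨z', hz'⟩ := hQ
    refine ⟨z + z', ?_⟩
    rw [map_add, map_add]
    linear_combination hz + hz'
  | mul_X P i hP =>
    obtain ⟨z, hz⟩ := hP
    refine ⟨z * (b i + π * u i) + eval (fun i => b i + π * v i) P * (u i - v i), ?_⟩
    rw [map_mul, map_mul, eval_X, eval_X]
    linear_combination (b i + π * u i) * hz

variable {ι : Type} [Fintype ι] [DecidableEq ι] (p : ℕ) [hp : Fact p.Prime]

/-- Analytic values which vanish infinitely often vanish identically. -/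
lemma analytic_zero (s' : ℕ → unitBall (PadicAlgCl p))
    (h2 : ∀ j, ‖(((fwdDiff 1)^[j] s' 0 : unitBall (PadicAlgCl p)) : PadicAlgCl p)‖ ≤
        ‖(p : PadicAlgCl p)‖ ^ (2 * j))
    (hinf : {m | s' m = 0}.Infinite) : ∀ m, s' m = 0 := by
  have hp0 := norm_p_pos p
  have hp1 := norm_p_lt p
  have h := newton_zero (K := PadicAlgCl p)
    (fun n => (((fwdDiff 1)^[n] s' 0 : unitBall (PadicAlgCl p)) : PadicAlgCl p) /
      ((n.factorial : ℕ) : PadicAlgCl p))
    (fun n => ((s' n : unitBall (PadicAlgCl p)) : PadicAlgCl p)) (by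
      intro n
      have h3 := shift_eq_sum_fwdDiff_iter (1 : ℕ) s' n 0
      simp only [zero_add, smul_eq_mul, mul_one] at h3
      rw [h3]
      push_cast
      apply Finset.sum_congr rfl
      intro k _
      rw [Nat.descFactorial_eq_factorial_mul_choose]
      have : ((k.factorial : ℕ) : PadicAlgCl p) ≠ 0 := Nat.cast_ne_zero.2 (Nat.factorial_ne_zero k)
      push_cast
      rw [nsmul_eq_mul]
      field_simp) (by
      rw [Metric.tendsto_atTop]
      intro ε hε
      obtain ⟨m, hm⟩ := exists_pow_lt_of_lt_one hε hp1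
      refine ⟨m, fun n hn => ?_⟩
      rw [dist_zero_right, norm_div]
      have h3 := norm_prime_pow_le_factorial (K := PadicAlgCl p) p hp1 n
      have h4 : 0 < ‖((n.factorial : ℕ) : PadicAlgCl p)‖ :=
        norm_pos_iff.2 (Nat.cast_ne_zero.2 (Nat.factorial_ne_zero n))
      calc _ ≤ (‖(p : PadicAlgCl p)‖ ^ (2 * n)) / ‖(p : PadicAlgCl p)‖ ^ n := by
            apply div_le_div₀ (by positivity) (h2 n) (by positivity) h3
        _ = ‖(p : PadicAlgCl p)‖ ^ n := by
            rw [two_mul, pow_add]; field_simp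
        _ ≤ ‖(p : PadicAlgCl p)‖ ^ m := pow_le_pow_of_le_one hp0.le hp1.le hn
        _ < ε := hm) (by
      refine hinf.mono ?_
      intro m hm
      rw [Set.mem_ofPred_eq] at hm ⊢
      rw [hm]
      rfl)
  intro m
  exact Subtype.ext (h m)

/-- The window, the orbit and its shadow. -/
theorem exists_orbits (F : ι → MvPolynomial ι (unitBall (PadicAlgCl p)))
    (a : ι → unitBall (PadicAlgCl p)) :
    ∃ (n0 k : ℕ) (z' : ι → unitBall (PadicAlgCl p)), 0 < k ∧
      ∀ (r : ℕ) (P : MvPolynomial ι (unitBall (PadicAlgCl p))),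
        (∀ m, ‖((eval ((pt F)^[n0 + r + k * m] a) P : unitBall (PadicAlgCl p)) : PadicAlgCl p) -
          eval ((pt F)^[r + k * m] z') P‖ ≤ ‖(p : PadicAlgCl p)‖ ^ (2 * m)) ∧
        ((∃ M, ∀ m, M ≤ m → eval ((pt F)^[n0 + r + k * m] a) P = 0) →
          ∀ m, eval ((pt F)^[r + k * m] z') P = 0) ∧
        ({m | eval ((pt F)^[r + k * m] z') P = 0}.Infinite →
          ∀ m, eval ((pt F)^[r + k * m] z') P = 0) ∧
        (∀ j m, 2 * j ≤ m →
          (∀ m', m - j ≤ m' → m' < m → eval ((pt F)^[n0 + r + k * m'] a) P = 0) →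
          ‖((eval ((pt F)^[n0 + r + k * m] a) P : unitBall (PadicAlgCl p)) : PadicAlgCl p)‖ ≤
            ‖(p : PadicAlgCl p)‖ ^ (2 * j)) ∧
        (∀ m, ‖((eval ((pt F)^[n0 + r + k * m] a) P : unitBall (PadicAlgCl p)) : PadicAlgCl p) -
          eval ((pt F)^[n0 + r] a) P‖ < 1) ∧
        (∀ m, ‖((eval ((pt F)^[r + k * m] z') P : unitBall (PadicAlgCl p)) : PadicAlgCl p) -
          eval ((pt F)^[n0 + r] a) P‖ < 1) := by
  classical
  have hp0 := norm_p_pos p
  have hp1 := norm_p_lt p
  obtain ⟨n0, k, H, hk, hF, hH⟩ := exists_window p F a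
  obtain ⟨y, hy⟩ := exists_shadow p H hH 0
  set b := (pt F)^[n0] a with hb
  set π : unitBall (PadicAlgCl p) := (p : unitBall (PadicAlgCl p)) ^ 2 with hπ
  have hπn : ‖(π : PadicAlgCl p)‖ < 1 := by
    rw [hπ]
    push_cast
    rw [norm_pow]
    exact pow_lt_one₀ hp0.le hp1 (by norm_num)
  have hit : ∀ (v : ι → unitBall (PadicAlgCl p)) t, (pt F)^[k * t] (fun i => b i + π * v i) =
      fun i => b i + π * (pt H)^[t] v i := by
    intro v t
    induction t with
    | zero => funext i; simp
    | succ t ih =>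
      rw [Nat.mul_succ, Nat.add_comm, Function.iterate_add_apply, ih, hF,
        Function.iterate_succ_apply']
  have hb0 : (fun i => b i + π * (0 : ι → unitBall (PadicAlgCl p)) i) = b := by
    funext i; simp
  refine ⟨n0, k, fun i => b i + π * y i, hk, fun r P => ?_⟩
  set q : MvPolynomial ι (unitBall (PadicAlgCl p)) :=
    aeval (fun i => C (b i) + C π * X i) (pullback F r P) with hq
  have hval : ∀ v m, valSeq H v q m = eval ((pt F)^[r + k * m] (fun i => b i + π * v i)) P := by
    intro v m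
    rw [Function.iterate_add_apply, ← eval_pullback, hit, valSeq, hq, eval_aeval_poly]
    congr 2
    funext i
    simp
  have hs : ∀ m, eval ((pt F)^[n0 + r + k * m] a) P = valSeq H 0 q m := by
    intro m
    rw [hval, hb0, hb, ← Function.iterate_add_apply]
    congr 2
    congr 1
    ring
  have hs' : ∀ m, eval ((pt F)^[r + k * m] (fun i => b i + π * y i)) P = valSeq H y q m :=
    fun m => (hval y m).symm
  have hdvd : ∀ v m, ∃ z, valSeq H v q m - eval ((pt F)^[n0 + r] a) P = π * z := by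
    intro v m
    have h1 : eval ((pt F)^[n0 + r] a) P = eval (fun i => b i + π *
        (0 : ι → unitBall (PadicAlgCl p)) i) (pullback F r P) := by
      rw [hb0, eval_pullback, hb, ← Function.iterate_add_apply, Nat.add_comm n0 r]
    rw [h1, hval, Function.iterate_add_apply, ← eval_pullback, hit]
    exact eval_sub_dvd π b _ _ _
  have hlt : ∀ v m, ‖((valSeq H v q m : unitBall (PadicAlgCl p)) : PadicAlgCl p) -
      eval ((pt F)^[n0 + r] a) P‖ < 1 := by
    intro v m
    obtain ⟨z, hz⟩ := hdvd v m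
    have h1 := congrArg (fun x : unitBall (PadicAlgCl p) => ‖(x : PadicAlgCl p)‖) hz
    push_cast at h1
    rw [norm_mul] at h1
    rw [h1]
    calc ‖(π : PadicAlgCl p)‖ * ‖(z : PadicAlgCl p)‖ ≤ ‖(π : PadicAlgCl p)‖ * 1 :=
          mul_le_mul_of_nonneg_left (unitBall_norm_le z) (norm_nonneg _)
      _ = ‖(π : PadicAlgCl p)‖ := mul_one _
      _ < 1 := hπn
  simp only [hs, hs']
  refine ⟨(hy q).1, ?_, ?_, ?_, fun m => hlt 0 m, fun m => hlt y m⟩
  · rintro ⟨M, hM⟩
    by_contra hcon
    push Not at hcon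
    exact not_expSparse_of_forall M (fun m hm => hM m hm)
      (sparse_zeros p H 0 y q (hy q).1 (hy q).2 hcon)
  · intro hinf
    exact analytic_zero p _ (hy q).2 hinf
  · intro j m hj hz
    obtain ⟨z, hz1⟩ := valSeq_diff_dvd π H hH 0 q j (m - j) j (by omega) le_rfl
    rw [fwdDiff_iter_eq_sum_shift, Finset.sum_range_succ] at hz1
    rw [Finset.sum_eq_zero (by
      intro i hi
      rw [Finset.mem_range] at hi
      have h1 : m - j + i • 1 = m - j + i := by simp
      rw [h1, hz (m - j + i) (by omega) (by omega), smul_zero]), zero_add] at hz1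
    have h1 : m - j + j • 1 = m := by
      simp only [smul_eq_mul, mul_one]
      omega
    rw [h1] at hz1
    simp only [Nat.sub_self, pow_zero, Nat.choose_self, Nat.cast_one, mul_one, one_smul] at hz1
    rw [hz1]
    exact norm_pi_pow_mul p j z

end Pool.Agent.T2H18
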