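import Pool.Agent.T2H18.Sieg
import Pool.Agent.T2H18.Shad

set_option autoImplicit false

/-! Sequences in a number field with logarithmic growth of the height which have an analytic
shadow: they coincide with the shadow from some point on. -/

namespace Pool.Agent.T2H18

open NumberField Height Pool.Agent.R847.Gap Pool.Agent.H936R2

section slow

variable {K : Type} [Field K] [NumberField K]

/-- Logarithmic growth of the height. -/
def Slow (w : ℕ → K) : Prop := ∃ C : ℝ, ∀ m : ℕ, logHeight₁ (w m) ≤ C * Real.log (m + 2)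

lemma log_ge_log_two (m : ℕ) : Real.log 2 ≤ Real.log ((m : ℝ) + 2) := by
  apply Real.log_le_log (by norm_num)
  have : (0 : ℝ) ≤ m := Nat.cast_nonneg _
  linarith

lemma log_two_pos : 0 < Real.log 2 := Real.log_pos one_lt_two

lemma const_le_log (A : ℝ) (hA : 0 ≤ A) (m : ℕ) : A ≤ A / Real.log 2 * Real.log (m + 2) := by
  have h2 := log_two_pos
  calc A = A / Real.log 2 * Real.log 2 := by field_simp
    _ ≤ _ := mul_le_mul_of_nonneg_left (log_ge_log_two m) (by positivity)

lemma Slow.of_le {w : ℕ → K} (A B : ℝ) (h : ∀ m : ℕ, logHeight₁ (w m) ≤ A + B * Real.log (m + 2)) :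
    Slow w := by
  refine ⟨|A| / Real.log 2 + B, fun m => ?_⟩
  have h1 := const_le_log |A| (abs_nonneg _) m
  have h2 := h m
  have h3 := le_abs_self A
  linarith

lemma Slow.const (x : K) : Slow (fun _ => x) :=
  Slow.of_le (logHeight₁ x) 0 fun m => by simp

lemma Slow.add {w w' : ℕ → K} (h : Slow w) (h' : Slow w') : Slow (fun m => w m + w' m) := by
  obtain ⟨C, hC⟩ := h
  obtain ⟨C', hC'⟩ := h'
  refine Slow.of_le (totalWeight K * Real.log 2) (C + C') fun m => ?_
  have h1 := logHeight₁_add_le (w m) (w' m)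
  have h2 := hC m
  have h3 := hC' m
  linarith

lemma Slow.mul {w w' : ℕ → K} (h : Slow w) (h' : Slow w') : Slow (fun m => w m * w' m) := by
  obtain ⟨C, hC⟩ := h
  obtain ⟨C', hC'⟩ := h'
  refine ⟨C + C', fun m => ?_⟩
  have h1 := logHeight₁_mul_le (w m) (w' m)
  have h2 := hC m
  have h3 := hC' m
  linarith

lemma Slow.pow {w : ℕ → K} (h : Slow w) (n : ℕ) : Slow (fun m => w m ^ n) := by
  induction n with
  | zero => simpa using Slow.const (1 : K)
  | succ n ih =>
    simp only [pow_succ]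
    exact ih.mul h

lemma Slow.sum {κ : Type} (s : Finset κ) (f : κ → ℕ → K) (h : ∀ i ∈ s, Slow (f i)) :
    Slow (fun m => ∑ i ∈ s, f i m) := by
  classical
  induction s using Finset.induction_on with
  | empty => simpa using Slow.const (0 : K)
  | insert a s ha ih =>
    simp only [Finset.sum_insert ha]
    exact (h a (Finset.mem_insert_self _ _)).add (ih fun i hi => h i (Finset.mem_insert_of_mem hi))

lemma Slow.pval {t w : ℕ → K} (ht : Slow t) (hw : Slow w) (D₁ D₂ : ℕ) (c : ℕ → ℕ → K) :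
    Slow (fun m => pval D₁ D₂ c (t m) (w m)) := by
  unfold Pool.Agent.T2H18.pval
  exact Slow.sum _ _ fun a _ => Slow.sum _ _ fun b _ =>
    ((Slow.const (c a b)).mul (ht.pow a)).mul (hw.pow b)

/-- The Liouville inequality for slow sequences. -/
lemma slow_lower {p : ℕ} [hp : Fact p.Prime] (τ : K →+* PadicAlgCl p) {w : ℕ → K} (hw : Slow w) :
    ∃ M, ∀ m, M ≤ m → ‖τ (w m)‖ ≤ ‖(p : PadicAlgCl p)‖ ^ (2 * m) → w m = 0 := by
  have hp0 := norm_p_pos p
  have hp1 := norm_p_lt p
  set lam : ℝ := -Real.log ‖(p : PadicAlgCl p)‖ with hlam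
  have hlampos : 0 < lam := by
    have := Real.log_neg hp0 hp1
    linarith
  obtain ⟨C, hC⟩ := hw
  have hC0 : 0 ≤ C := by
    have h1 := (zero_le_logHeight₁ (w 0)).trans (hC 0)
    simp only [CharP.cast_eq_zero, zero_add] at h1
    exact nonneg_of_mul_nonneg_left h1 log_two_pos
  obtain ⟨D, hD0, hD⟩ := log_small (Module.finrank ℚ K * (2 * C)) lam (by positivity) hlampos
  refine ⟨2 * D ^ 2, fun m hm hle => ?_⟩
  by_contra hne
  obtain ⟨n, hn0, hn, hint, hconj⟩ := exists_den_conj (w m) _ (hC m)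
  have h1 := liouville K τ hint (mul_ne_zero (Nat.cast_ne_zero.2 hn0) hne)
    (B := Real.exp (2 * C * Real.log (m + 2))) (by
      intro σ
      rw [map_mul, map_natCast, norm_mul, Complex.norm_natCast]
      have h2 : Real.exp (2 * C * Real.log ((m : ℝ) + 2)) = Real.exp (C * Real.log (m + 2)) *
          Real.exp (C * Real.log (m + 2)) := by
        rw [← Real.exp_add]
        congr 1
        ring
      rw [h2]
      exact mul_le_mul hn (hconj σ) (norm_nonneg _) (Real.exp_pos _).le)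
  have h2 : ‖τ ((n : K) * w m)‖ ≤ ‖(p : PadicAlgCl p)‖ ^ (2 * m) := by
    rw [map_mul, norm_mul]
    have h4 : ‖τ ((n : K))‖ ≤ 1 := norm_integral_le_one τ (isIntegral_natCast' n)
    calc _ ≤ 1 * ‖τ (w m)‖ := mul_le_mul_of_nonneg_right h4 (norm_nonneg _)
      _ = _ := one_mul _
      _ ≤ _ := hle
  have h4 : ‖(p : PadicAlgCl p)‖ ^ (2 * m) = Real.exp (-(lam * ((2 * m : ℕ) : ℝ))) := by
    have h5 : -(lam * ((2 * m : ℕ) : ℝ)) =
        ((2 * m : ℕ) : ℝ) * Real.log ‖(p : PadicAlgCl p)‖ := by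
      rw [hlam]; ring
    rw [h5, Real.exp_nat_mul, Real.exp_log hp0]
  have h5 : (1 : ℝ) ≤ Real.exp (-(lam * ((2 * m : ℕ) : ℝ))) *
      Real.exp (2 * C * Real.log (m + 2)) ^ Module.finrank ℚ K := by
    refine h1.trans ?_
    apply mul_le_mul_of_nonneg_right _ (by positivity)
    rw [← h4]
    exact h2
  rw [← Real.exp_nat_mul, ← Real.exp_add] at h5
  have h6 : 0 ≤ -(lam * ((2 * m : ℕ) : ℝ)) +
      (Module.finrank ℚ K : ℝ) * (2 * C * Real.log (m + 2)) := by
    by_contra hlt
    push Not at hlt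
    have := Real.exp_lt_exp.2 hlt
    rw [Real.exp_zero] at this
    linarith
  have h7 := hD m hm
  have hlog : 0 ≤ Real.log ((m : ℝ) + 2) := log_two_pos.le.trans (log_ge_log_two m)
  have hD1 : (1 : ℝ) ≤ D := by exact_mod_cast hD0
  have h8 : (Module.finrank ℚ K : ℝ) * (2 * C) * Real.log (m + 2) ≤
      (Module.finrank ℚ K : ℝ) * (2 * C) * (D * Real.log (m + 2)) := by
    apply mul_le_mul_of_nonneg_left _ (by positivity)
    nlinarith
  push_cast at h6
  have h9 : (0 : ℝ) ≤ m := Nat.cast_nonneg _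
  nlinarith

end slow

section shadow

/-- Evaluations `e m` along an orbit and the evaluations `e' m` along an analytic orbit near to
it. -/
structure Shadow (p : ℕ) [Fact p.Prime] {R : Type} [CommRing R]
    [Algebra (unitBall (PadicAlgCl p)) R]
    (e e' : ℕ → R →ₐ[unitBall (PadicAlgCl p)] unitBall (PadicAlgCl p)) : Prop where
  near : ∀ P m, ‖((e m P : unitBall (PadicAlgCl p)) : PadicAlgCl p) - e' m P‖ ≤
    ‖(p : PadicAlgCl p)‖ ^ (2 * m)
  van : ∀ P, (∃ M, ∀ m, M ≤ m → e m P = 0) → ∀ m, e' m P = 0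
  inf : ∀ P, {m | e' m P = 0}.Infinite → ∀ m, e' m P = 0
  win : ∀ P j m, 2 * j ≤ m → (∀ m', m - j ≤ m' → m' < m → e m' P = 0) →
    ‖((e m P : unitBall (PadicAlgCl p)) : PadicAlgCl p)‖ ≤ ‖(p : PadicAlgCl p)‖ ^ (2 * j)

variable {K : Type} [Field K] [NumberField K] {p : ℕ} [hp : Fact p.Prime]
  {R : Type} [CommRing R] [Algebra (unitBall (PadicAlgCl p)) R]
  {e e' : ℕ → R →ₐ[unitBall (PadicAlgCl p)] unitBall (PadicAlgCl p)}
  (τ : K →+* PadicAlgCl p)

/-- The polynomial in three variables, homogeneous in the last two. -/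
noncomputable def hpol (D₁ D₂ : ℕ) (c : ℕ → ℕ → unitBall (PadicAlgCl p)) (T G U : R) : R :=
  ∑ a ∈ Finset.range D₁, ∑ b ∈ Finset.range D₂,
    algebraMap (unitBall (PadicAlgCl p)) R (c a b) * (T ^ a * G ^ b * U ^ (D₂ - 1 - b))

/-- The integral coefficients in the unit ball. -/
noncomputable def liftc (c : ℕ → ℕ → K) (hc : ∀ a b, IsIntegral ℤ (c a b)) (a b : ℕ) :
    unitBall (PadicAlgCl p) := ⟨τ (c a b), norm_integral_le_one τ (hc a b)⟩

omit [NumberField K] in
lemma hpol_eval (f : R →ₐ[unitBall (PadicAlgCl p)] unitBall (PadicAlgCl p)) (D₁ D₂ : ℕ)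
    (c : ℕ → ℕ → K) (hc : ∀ a b, IsIntegral ℤ (c a b)) (T G U : R) (x y : PadicAlgCl p)
    (hT : ((f T : unitBall (PadicAlgCl p)) : PadicAlgCl p) = x)
    (hG : ((f G : unitBall (PadicAlgCl p)) : PadicAlgCl p) = y * f U) :
    ((f (hpol D₁ D₂ (liftc τ c hc) T G U) : unitBall (PadicAlgCl p)) : PadicAlgCl p) =
      pval D₁ D₂ (fun a b => τ (c a b)) x y * (f U : PadicAlgCl p) ^ (D₂ - 1) := by
  rw [hpol, map_sum, pval, Finset.sum_mul]
  push_cast
  apply Finset.sum_congr rfl
  intro a ha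
  rw [map_sum, Finset.sum_mul]
  push_cast
  apply Finset.sum_congr rfl
  intro b hb
  rw [Finset.mem_range] at hb
  rw [map_mul, map_mul, map_mul, map_pow, map_pow, map_pow, AlgHom.commutes]
  push_cast
  rw [hT, hG]
  have h1 : (f U : PadicAlgCl p) ^ (D₂ - 1) = (f U : PadicAlgCl p) ^ b *
      (f U : PadicAlgCl p) ^ (D₂ - 1 - b) := by
    rw [← pow_add]
    congr 1
    omega
  rw [h1]
  have h2 : ((algebraMap (unitBall (PadicAlgCl p)) (unitBall (PadicAlgCl p))
      (liftc τ c hc a b) : unitBall (PadicAlgCl p)) : PadicAlgCl p) = τ (c a b) := rfl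
  rw [h2]
  ring

omit [NumberField K] in
lemma map_pval {L : Type} [Field L] (f : K →+* L) (D₁ D₂ : ℕ) (c : ℕ → ℕ → K) (t w : K) :
    f (pval D₁ D₂ c t w) = pval D₁ D₂ (fun a b => f (c a b)) (f t) (f w) := by
  simp only [pval, map_sum, map_mul, map_pow]

/-- The algebraic relation. -/
theorem rel (h : Shadow p e e') (t w : ℕ → K) (T G U : R) (q : ℕ) (hq : q ≠ 0)
    (ht : ∀ m, IsIntegral ℤ ((q : K) * t m)) (hts : Slow t) (hws : Slow w)
    (hT : ∀ m, ((e m T : unitBall (PadicAlgCl p)) : PadicAlgCl p) = τ (t m))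
    (hG : ∀ m, ((e m G : unitBall (PadicAlgCl p)) : PadicAlgCl p) = τ (w m) * e m U)
    (hU : ∀ m, ‖((e m U : unitBall (PadicAlgCl p)) : PadicAlgCl p)‖ = 1) :
    ∃ (D₁ D₂ : ℕ) (c : ℕ → ℕ → K), (∀ a b, IsIntegral ℤ (c a b)) ∧
      (∃ a < D₁, ∃ b < D₂, c a b ≠ 0) ∧ ∃ M, ∀ m, M ≤ m → pval D₁ D₂ c (t m) (w m) = 0 := by
  obtain ⟨C, hC⟩ := hts
  obtain ⟨C', hC'⟩ := hws
  have hlog : ∀ m : ℕ, 0 ≤ Real.log ((m : ℝ) + 2) := fun m =>
    log_two_pos.le.trans (log_ge_log_two m)
  have hU0 : ∀ m, ((e m U : unitBall (PadicAlgCl p)) : PadicAlgCl p) ≠ 0 := by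
    intro m h0
    have := hU m
    rw [h0, norm_zero] at this
    exact zero_ne_one this
  refine relation K τ t w (max C C') q hq ht (fun m σ => ?_) (fun m => ?_) ?_
  · refine (norm_le_exp K (t m) σ).trans (Real.exp_le_exp.2 ((hC m).trans ?_))
    exact mul_le_mul_of_nonneg_right (le_max_left _ _) (hlog m)
  · exact (hC' m).trans (mul_le_mul_of_nonneg_right (le_max_right _ _) (hlog m))
  · intro D₁ D₂ c hc j m hj hz
    have hval : ∀ m, ((e m (hpol D₁ D₂ (liftc τ c hc) T G U) : unitBall (PadicAlgCl p)) :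
        PadicAlgCl p) = τ (pval D₁ D₂ c (t m) (w m)) * (e m U : PadicAlgCl p) ^ (D₂ - 1) := by
      intro m
      rw [hpol_eval τ (e m) D₁ D₂ c hc T G U _ _ (hT m) (hG m), map_pval]
    have h1 := h.win (hpol D₁ D₂ (liftc τ c hc) T G U) j m hj (by
      intro m' h1 h2
      apply Subtype.ext
      rw [hval, hz m' h1 h2]
      simp)
    rw [hval, norm_mul, norm_pow, hU, one_pow, mul_one] at h1
    exact h1

omit [NumberField K] in
/-- A polynomial has finitely many zeros on an injective sequence. -/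
lemma eventually_ne {t : ℕ → K} (hinj : Function.Injective t) (D : ℕ) (c : ℕ → K)
    (hc : ∃ a < D, c a ≠ 0) :
    {m | ∑ a ∈ Finset.range D, c a * t m ^ a = 0}.Finite := by
  classical
  set f : Polynomial K := ∑ a ∈ Finset.range D, Polynomial.monomial a (c a) with hf
  have hf0 : f ≠ 0 := by
    obtain ⟨a, ha, hca⟩ := hc
    intro h0
    apply hca
    have h1 := congrArg (fun g : Polynomial K => g.coeff a) h0
    simp only [hf, Polynomial.finsetSum_coeff, Polynomial.coeff_monomial,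
      Polynomial.coeff_zero] at h1
    rw [Finset.sum_ite_eq' (Finset.range D) a c, if_pos (Finset.mem_range.2 ha)] at h1
    exact h1
  have h2 : {m | ∑ a ∈ Finset.range D, c a * t m ^ a = 0} = t ⁻¹' {x | f.IsRoot x} := by
    ext m
    simp only [Set.mem_ofPred_eq, Set.mem_preimage, Polynomial.IsRoot, hf,
      Polynomial.eval_finsetSum, Polynomial.eval_monomial]
  rw [h2]
  exact (Polynomial.finite_setOfPred_isRoot hf0).preimage hinj.injOn

/-- Slow sequences with a shadow: the zeros. -/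
theorem zero_or (h : Shadow p e e') (t w : ℕ → K) (T G U : R) (q : ℕ) (hq : q ≠ 0)
    (ht : ∀ m, IsIntegral ℤ ((q : K) * t m)) (hts : Slow t) (hinj : Function.Injective t)
    (hws : Slow w)
    (hT : ∀ m, ((e m T : unitBall (PadicAlgCl p)) : PadicAlgCl p) = τ (t m))
    (hG : ∀ m, ((e m G : unitBall (PadicAlgCl p)) : PadicAlgCl p) = τ (w m) * e m U)
    (hU : ∀ m, ‖((e m U : unitBall (PadicAlgCl p)) : PadicAlgCl p)‖ = 1) :
    (∃ M, ∀ m, M ≤ m → w m = 0) ∨ ∃ M, ∀ m, M ≤ m → w m ≠ 0 := by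
  classical
  by_cases hfin : {m | w m = 0}.Finite
  · right
    obtain ⟨M, hM⟩ := hfin.bddAbove
    refine ⟨M + 1, fun m hm h0 => ?_⟩
    have := hM h0
    omega
  left
  obtain ⟨D₁, D₂, c, hc, hne, M, hM⟩ := rel τ h t w T G U q hq ht hts hws hT hG hU
  have hU0 : ∀ m, ((e m U : unitBall (PadicAlgCl p)) : PadicAlgCl p) ≠ 0 := by
    intro m h0
    have := hU m
    rw [h0, norm_zero] at this
    exact zero_ne_one this
  -- the lowest exponent
  have hex : ∃ b, b < D₂ ∧ ∃ a < D₁, c a b ≠ 0 := by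
    obtain ⟨a, ha, b, hb, hab⟩ := hne
    exact ⟨b, hb, a, ha, hab⟩
  set b₀ := Nat.find hex with hb₀
  obtain ⟨hb₀D, hb₀c⟩ := Nat.find_spec hex
  rw [← hb₀] at hb₀D hb₀c
  have hlow : ∀ a < D₁, ∀ b < b₀, c a b = 0 := by
    intro a ha b hb
    by_contra hcon
    exact Nat.find_min hex hb ⟨by omega, a, ha, hcon⟩
  let c' : ℕ → ℕ → K := fun a b => c a (b + b₀)
  have hc' : ∀ a b, IsIntegral ℤ (c' a b) := fun a b => hc _ _
  -- the factorisation
  have hfac : hpol D₁ D₂ (liftc τ c hc) T G U =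
      G ^ b₀ * hpol D₁ (D₂ - b₀) (liftc τ c' hc') T G U := by
    rw [hpol, hpol, Finset.mul_sum]
    apply Finset.sum_congr rfl
    intro a ha
    rw [Finset.mem_range] at ha
    rw [Finset.mul_sum]
    have h1 : Finset.range D₂ = Finset.range (b₀ + (D₂ - b₀)) := by
      congr 1
      omega
    rw [h1, Finset.sum_range_add, Finset.sum_eq_zero, zero_add]
    · apply Finset.sum_congr rfl
      intro b hb
      rw [Finset.mem_range] at hb
      have h2 : liftc τ c hc a (b₀ + b) = liftc τ c' hc' a b := by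
        apply Subtype.ext
        simp only [liftc, c']
        rw [Nat.add_comm]
      rw [h2]
      have h3 : D₂ - 1 - (b₀ + b) = D₂ - b₀ - 1 - b := by omega
      rw [h3, pow_add]
      ring
    · intro b hb
      rw [Finset.mem_range] at hb
      have h2 : liftc τ c hc a b = 0 := by
        apply Subtype.ext
        simp only [liftc, hlow a ha b hb, map_zero]
        rfl
      rw [h2, map_zero, zero_mul]
  have hz : ∀ m, e' m (hpol D₁ D₂ (liftc τ c hc) T G U) = 0 := by
    apply h.van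
    refine ⟨M, fun m hm => ?_⟩
    apply Subtype.ext
    rw [hpol_eval τ (e m) D₁ D₂ c hc T G U _ _ (hT m) (hG m), ← map_pval, hM m hm]
    simp
  have hor : ∀ m, e' m G = 0 ∨ e' m (hpol D₁ (D₂ - b₀) (liftc τ c' hc') T G U) = 0 := by
    intro m
    have h1 := hz m
    rw [hfac, map_mul, map_pow] at h1
    rcases mul_eq_zero.1 h1 with h2 | h2
    · left
      exact eq_zero_of_pow_eq_zero h2
    · right; exact h2
  have hcase : {m | e' m G = 0}.Infinite ∨
      {m | e' m (hpol D₁ (D₂ - b₀) (liftc τ c' hc') T G U) = 0}.Infinite := by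
    by_contra hcon
    push Not at hcon
    have h1 : (Set.univ : Set ℕ).Finite := by
      apply (hcon.1.union hcon.2).subset
      intro m _
      exact hor m
    exact Set.infinite_univ h1
  rcases hcase with hcase | hcase
  · have h1 := h.inf G hcase
    obtain ⟨M', hM'⟩ := slow_lower τ hws
    refine ⟨M', fun m hm => hM' m hm ?_⟩
    have h2 := h.near G m
    rw [h1 m, hG m] at h2
    rw [ZeroMemClass.coe_zero, sub_zero, norm_mul, hU, mul_one] at h2
    exact h2
  · exfalso
    have h1 := h.inf _ hcase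
    have hslow : Slow fun m => ∑ a ∈ Finset.range D₁, c a b₀ * t m ^ a :=
      Slow.sum _ _ fun a _ => (Slow.const _).mul (hts.pow a)
    obtain ⟨M', hM'⟩ := slow_lower τ hslow
    have hfin2 := eventually_ne hinj D₁ (fun a => c a b₀) hb₀c
    have hinf : ({m | w m = 0} \ ({m | m < M'} ∪
        {m | ∑ a ∈ Finset.range D₁, c a b₀ * t m ^ a = 0})).Infinite :=
      Set.Infinite.sdiff hfin ((Set.finite_lt_nat M').union hfin2)
    obtain ⟨m, hm1, hm2⟩ := hinf.nonempty
    rw [Set.mem_union, not_or] at hm2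
    apply hm2.2
    refine hM' m (by simpa using hm2.1) ?_
    have h2 := h.near (hpol D₁ (D₂ - b₀) (liftc τ c' hc') T G U) m
    rw [h1 m, ZeroMemClass.coe_zero, sub_zero,
      hpol_eval τ (e m) D₁ (D₂ - b₀) c' hc' T G U _ _ (hT m) (hG m), ← map_pval, norm_mul,
      norm_pow, hU, one_pow, mul_one] at h2
    have h3 : pval D₁ (D₂ - b₀) c' (t m) (w m) =
        ∑ a ∈ Finset.range D₁, c a b₀ * t m ^ a := by
      rw [Set.mem_ofPred_eq] at hm1
      rw [pval, hm1]
      apply Finset.sum_congr rfl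
      intro a _
      rw [Finset.sum_eq_single 0]
      · simp [c']
      · intro b _ hb
        rw [zero_pow hb, mul_zero]
      · intro h0
        rw [Finset.mem_range] at h0
        omega
    rw [h3] at h2
    exact h2

/-- The values of a one-variable polynomial. -/
lemma pval_eq_eval {L : Type} [CommRing L] (D₁ D₂ : ℕ) (c : ℕ → ℕ → L) (t w : L) :
    pval D₁ D₂ c t w = Polynomial.eval w (∑ b ∈ Finset.range D₂,
      Polynomial.monomial b (∑ a ∈ Finset.range D₁, c a b * t ^ a)) := by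
  rw [Polynomial.eval_finsetSum, pval, Finset.sum_comm]
  apply Finset.sum_congr rfl
  intro b _
  rw [Polynomial.eval_monomial, Finset.sum_mul]

lemma pval_derivative {L : Type} [CommRing L] (D₁ D₂ : ℕ) (c : ℕ → ℕ → L) (t w : L) :
    pval D₁ D₂ (fun a b => ((b + 1 : ℕ) : L) * c a (b + 1)) t w =
      Polynomial.eval w (Polynomial.derivative (∑ b ∈ Finset.range (D₂ + 1),
      Polynomial.monomial b (∑ a ∈ Finset.range D₁, c a b * t ^ a))) := by
  rw [Polynomial.derivative_sum, Polynomial.eval_finsetSum, Finset.sum_range_succ', pval,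
    Finset.sum_comm]
  simp only [Polynomial.derivative_monomial, Polynomial.eval_monomial, Nat.cast_zero,
    mul_zero, zero_mul, add_zero]
  apply Finset.sum_congr rfl
  intro b _
  rw [Finset.sum_mul, Finset.sum_mul]
  apply Finset.sum_congr rfl
  intro a _
  simp only [Nat.add_sub_cancel]
  ring

/-- Slow sequences with a shadow coincide with the shadow from some point on. -/
theorem exact_shadow (h : Shadow p e e') (t w : ℕ → K) (T A B : R) (q : ℕ) (hq : q ≠ 0)
    (ht : ∀ m, IsIntegral ℤ ((q : K) * t m)) (hts : Slow t) (hinj : Function.Injective t)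
    (hws : Slow w)
    (hT : ∀ m, ((e m T : unitBall (PadicAlgCl p)) : PadicAlgCl p) = τ (t m))
    (hT' : ∀ m, ((e' m T : unitBall (PadicAlgCl p)) : PadicAlgCl p) = τ (t m))
    (hA : ∀ m, ((e m A : unitBall (PadicAlgCl p)) : PadicAlgCl p) = τ (w m) * e m B)
    (hB : ∀ m, ‖((e m B : unitBall (PadicAlgCl p)) : PadicAlgCl p)‖ = 1)
    (hB' : ∀ m, ‖((e' m B : unitBall (PadicAlgCl p)) : PadicAlgCl p)‖ = 1) :
    ∃ M, ∀ m, M ≤ m → ((e' m A : unitBall (PadicAlgCl p)) : PadicAlgCl p) =
      τ (w m) * e' m B := by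
  classical
  have hex : ∃ D₂ : ℕ, ∃ (D₁ : ℕ) (c : ℕ → ℕ → K), (∀ a b, IsIntegral ℤ (c a b)) ∧
      (∃ a < D₁, ∃ b < D₂, c a b ≠ 0) ∧ ∃ M, ∀ m, M ≤ m → pval D₁ D₂ c (t m) (w m) = 0 := by
    obtain ⟨D₁, D₂, c, hc⟩ := rel τ h t w T A B q hq ht hts hws hT hA hB
    exact ⟨D₂, D₁, c, hc⟩
  set D := Nat.find hex with hD
  obtain ⟨D₁, c, hc, hne, M, hM⟩ := Nat.find_spec hex
  rw [← hD] at hne hM
  have hD2 : 2 ≤ D := by
    by_contra hlt
    obtain ⟨a, ha, b, hb, hab⟩ := hne
    have hD1 : D = 1 := by omega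
    have hb0 : b = 0 := by omega
    subst hb0
    have hfin := eventually_ne hinj D₁ (fun a => c a 0) ⟨a, ha, hab⟩
    have hsub : Set.Ici M ⊆ {m | ∑ a ∈ Finset.range D₁, c a 0 * t m ^ a = 0} := by
      intro m hm
      have h1 := hM m hm
      rw [hD1, pval] at h1
      simpa using h1
    exact Set.Ici_infinite M (hfin.subset hsub)
  obtain ⟨D', hD'⟩ : ∃ D', D = D' + 1 := ⟨D - 1, by omega⟩
  let c' : ℕ → ℕ → K := fun a b => ((b + 1 : ℕ) : K) * c a (b + 1)
  have hc' : ∀ a b, IsIntegral ℤ (c' a b) := fun a b => (isIntegral_natCast' _).mul (hc _ _)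
  have hne' : ∃ a < D₁, ∃ b < D', c' a b ≠ 0 := by
    by_contra hcon
    push Not at hcon
    have hc0 : ∀ a < D₁, ∀ b, 1 ≤ b → b < D → c a b = 0 := by
      intro a ha b hb1 hb2
      have h1 := hcon a ha (b - 1) (by omega)
      simp only [c'] at h1
      have h2 : b - 1 + 1 = b := by omega
      rw [h2] at h1
      exact (mul_eq_zero.1 h1).resolve_left (Nat.cast_ne_zero.2 (by omega))
    have h1 : D ≤ 1 := by
      apply Nat.find_min' hex
      refine ⟨D₁, c, hc, ?_, M, fun m hm => ?_⟩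
      · obtain ⟨a, ha, b, hb, hab⟩ := hne
        refine ⟨a, ha, 0, one_pos, ?_⟩
        rcases Nat.eq_zero_or_pos b with hb0 | hb0
        · rwa [← hb0]
        · exact absurd (hc0 a ha b hb0 hb) hab
      · rw [← hM m hm, pval, pval]
        apply Finset.sum_congr rfl
        intro a ha
        rw [Finset.mem_range] at ha
        rw [Finset.sum_range_one]
        symm
        apply Finset.sum_eq_single_of_mem 0 (Finset.mem_range.2 (by omega))
        intro b hb hb0
        rw [Finset.mem_range] at hb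
        rw [hc0 a ha b (by omega) hb]
        ring
    omega
  -- the derivative
  have hslow' : Slow fun m => pval D₁ D' c' (t m) (w m) := hts.pval hws _ _ _
  have hzo := zero_or τ h t (fun m => pval D₁ D' c' (t m) (w m)) T
    (hpol D₁ D' (liftc τ c' hc') T A B) (B ^ (D' - 1)) q hq ht hts hinj hslow' hT
    (fun m => by
      rw [hpol_eval τ (e m) D₁ D' c' hc' T A B _ _ (hT m) (hA m), ← map_pval, map_pow]
      push_cast
      rfl) (fun m => by rw [map_pow]; push_cast; rw [norm_pow, hB, one_pow])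
  obtain ⟨M₁, hM₁⟩ : ∃ M, ∀ m, M ≤ m → pval D₁ D' c' (t m) (w m) ≠ 0 := by
    rcases hzo with h1 | h1
    · exfalso
      have h2 : D ≤ D' := Nat.find_min' hex ⟨D₁, c', hc', hne', h1⟩
      omega
    · exact h1
  obtain ⟨M₂, hM₂⟩ := slow_lower τ hslow'
  have hz : ∀ m, e' m (hpol D₁ D (liftc τ c hc) T A B) = 0 := by
    apply h.van
    refine ⟨M, fun m hm => ?_⟩
    apply Subtype.ext
    rw [hpol_eval τ (e m) D₁ D c hc T A B _ _ (hT m) (hA m), ← map_pval, hM m hm]
    simp
  refine ⟨max M (max M₁ M₂), fun m hm => ?_⟩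
  have hm0 : M ≤ m := (le_max_left _ _).trans hm
  have hm1 : M₁ ≤ m := (le_max_left _ _).trans ((le_max_right _ _).trans hm)
  have hm2 : M₂ ≤ m := (le_max_right _ _).trans ((le_max_right _ _).trans hm)
  have hB0 : ((e m B : unitBall (PadicAlgCl p)) : PadicAlgCl p) ≠ 0 := by
    intro h0
    have := hB m
    rw [h0, norm_zero] at this
    exact zero_ne_one this
  have hB0' : ((e' m B : unitBall (PadicAlgCl p)) : PadicAlgCl p) ≠ 0 := by
    intro h0
    have := hB' m
    rw [h0, norm_zero] at this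
    exact zero_ne_one this
  have hx : ‖τ (w m)‖ ≤ 1 := by
    have h1 := unitBall_norm_le (e m A)
    rw [hA m, norm_mul, hB, mul_one] at h1
    exact h1
  set xh : PadicAlgCl p := (e' m A : PadicAlgCl p) / e' m B with hxh
  have hxh1 : ‖xh‖ ≤ 1 := by
    rw [hxh, norm_div, hB', div_one]
    exact unitBall_norm_le _
  let x0 : unitBall (PadicAlgCl p) := ⟨τ (w m), hx⟩
  let x1 : unitBall (PadicAlgCl p) := ⟨xh, hxh1⟩
  let t0 : unitBall (PadicAlgCl p) := e m T
  let cc : ℕ → ℕ → unitBall (PadicAlgCl p) := liftc τ c hc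
  set f : Polynomial (unitBall (PadicAlgCl p)) := ∑ b ∈ Finset.range (D' + 1),
      Polynomial.monomial b (∑ a ∈ Finset.range D₁, cc a b * t0 ^ a) with hf
  have hcoe : ∀ (D₁ D₂ : ℕ) (c : ℕ → ℕ → unitBall (PadicAlgCl p)) (t w : unitBall (PadicAlgCl p)),
      ((pval D₁ D₂ c t w : unitBall (PadicAlgCl p)) : PadicAlgCl p) =
      pval D₁ D₂ (fun a b => (c a b : PadicAlgCl p)) t w := by
    intro D₁ D₂ c t w
    rw [pval, pval]
    push_cast
    rfl
  have h0 : ((f.eval x0 : unitBall (PadicAlgCl p)) : PadicAlgCl p) = 0 := by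
    rw [hf, ← pval_eq_eval, hcoe]
    have h1 := hM m hm0
    rw [hD'] at h1
    have h2 := congrArg τ h1
    rw [map_zero, map_pval, ← hT m] at h2
    exact h2
  have h1 : ((f.eval x1 : unitBall (PadicAlgCl p)) : PadicAlgCl p) = 0 := by
    rw [hf, ← pval_eq_eval, hcoe]
    have h2 := congrArg (fun x : unitBall (PadicAlgCl p) => (x : PadicAlgCl p)) (hz m)
    have h3 : ((e' m A : unitBall (PadicAlgCl p)) : PadicAlgCl p) = xh * e' m B := by
      rw [hxh]; field_simp
    simp only [hpol_eval τ (e' m) D₁ D c hc T A B _ _ (hT' m) h3] at h2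
    rw [ZeroMemClass.coe_zero] at h2
    have h4 := (mul_eq_zero.1 h2).resolve_right (pow_ne_zero _ hB0')
    rw [hD', ← hT m] at h4
    exact h4
  obtain ⟨k, hk⟩ := Polynomial.binomExpansion f x0 (x1 - x0)
  rw [add_sub_cancel] at hk
  have h2 := congrArg (fun x : unitBall (PadicAlgCl p) => (x : PadicAlgCl p)) hk
  have h3 : ((f.derivative.eval x0 : unitBall (PadicAlgCl p)) : PadicAlgCl p) =
      τ (pval D₁ D' c' (t m) (w m)) := by
    rw [hf, ← pval_derivative, hcoe, map_pval]
    have h4 : (fun a b => ((((b + 1 : ℕ) : unitBall (PadicAlgCl p)) * cc a (b + 1) :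
        unitBall (PadicAlgCl p)) : PadicAlgCl p)) = fun a b => τ (c' a b) := by
      funext a b
      simp only [c', cc, liftc, map_mul, map_natCast]
      push_cast
      rfl
    rw [h4, ← hT m]
  have h4 : (0 : PadicAlgCl p) = τ (pval D₁ D' c' (t m) (w m)) * (xh - τ (w m)) +
      (k : PadicAlgCl p) * (xh - τ (w m)) ^ 2 := by
    have h5 : ((f.eval x1 : unitBall (PadicAlgCl p)) : PadicAlgCl p) =
        (f.eval x0 : unitBall (PadicAlgCl p)) +
        (f.derivative.eval x0 : unitBall (PadicAlgCl p)) * ((x1 : PadicAlgCl p) - x0) +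
        (k : PadicAlgCl p) * ((x1 : PadicAlgCl p) - x0) ^ 2 := by
      have h6 := h2
      rw [h6]
      push_cast
      rfl
    rw [h0, h1, h3, zero_add] at h5
    exact h5
  have h5 : ‖xh - τ (w m)‖ ≤ ‖(p : PadicAlgCl p)‖ ^ (2 * m) := by
    have h6 : xh - τ (w m) = (((e' m A : PadicAlgCl p) - e m A) * e m B +
        (e m A : PadicAlgCl p) * ((e m B : PadicAlgCl p) - e' m B)) /
        ((e' m B : PadicAlgCl p) * e m B) := by
      have h7 : τ (w m) = (e m A : PadicAlgCl p) / e m B := by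
        rw [hA m]; field_simp
      rw [h7, hxh]
      field_simp
      ring
    rw [h6, norm_div, norm_mul, hB, hB', mul_one, div_one]
    refine (IsUltrametricDist.norm_add_le_max _ _).trans (max_le ?_ ?_)
    · rw [norm_mul, hB, mul_one, norm_sub_rev]
      exact h.near A m
    · rw [norm_mul]
      calc _ ≤ 1 * ‖((e m B : unitBall (PadicAlgCl p)) : PadicAlgCl p) - e' m B‖ :=
            mul_le_mul_of_nonneg_right (unitBall_norm_le _) (norm_nonneg _)
        _ = _ := one_mul _
        _ ≤ _ := h.near B m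
  have h6 : xh - τ (w m) = 0 := by
    by_contra hne0
    apply hM₁ m hm1
    apply hM₂ m hm2
    have h7 : τ (pval D₁ D' c' (t m) (w m)) = -((k : PadicAlgCl p) * (xh - τ (w m))) := by
      have h8 : (xh - τ (w m)) * (τ (pval D₁ D' c' (t m) (w m)) +
          (k : PadicAlgCl p) * (xh - τ (w m))) = 0 := by
        linear_combination -h4
      have h9 := (mul_eq_zero.1 h8).resolve_left hne0
      linear_combination h9
    rw [h7, norm_neg, norm_mul]
    calc _ ≤ 1 * ‖xh - τ (w m)‖ := mul_le_mul_of_nonneg_right (unitBall_norm_le _) (norm_nonneg _)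
      _ = _ := one_mul _
      _ ≤ _ := h5
  have h7 : xh = τ (w m) := sub_eq_zero.1 h6
  rw [← h7, hxh]
  field_simp

end shadow

end Pool.Agent.T2H18
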