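import Pool.Agent.T2H18.Cert
import Pool.Agent.R847.Gap.Affine

set_option autoImplicit false

/-! Multihomogeneous forms, and eventually periodic sets. -/

namespace Pool.Agent.T2H18

open MvPolynomial Pool.Agent.H936R2

section evper

/-- Eventually periodic sets. -/
def EvPer (Z : Set ℕ) : Prop := ∃ n0 k, 0 < k ∧ ∀ n, n0 ≤ n → (n ∈ Z ↔ n + k ∈ Z)

lemma EvPer.univ : EvPer Set.univ := ⟨0, 1, one_pos, fun n _ => by simp⟩

lemma EvPer.iter {Z : Set ℕ} {n0 k : ℕ} (h : ∀ n, n0 ≤ n → (n ∈ Z ↔ n + k ∈ Z)) (l : ℕ) :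
    ∀ n, n0 ≤ n → (n ∈ Z ↔ n + k * l ∈ Z) := by
  induction l with
  | zero => intro n _; simp
  | succ l ih =>
    intro n hn
    rw [ih n hn, h (n + k * l) (by omega)]
    have : n + k * l + k = n + k * (l + 1) := by ring
    rw [this]

lemma EvPer.inter {Z Z' : Set ℕ} (h : EvPer Z) (h' : EvPer Z') : EvPer (Z ∩ Z') := by
  obtain ⟨n0, k, hk, h⟩ := h
  obtain ⟨n0', k', hk', h'⟩ := h'
  refine ⟨max n0 n0', k * k', Nat.mul_pos hk hk', fun n hn => ?_⟩
  have h1 := EvPer.iter h k' n ((le_max_left _ _).trans hn)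
  have h2 := EvPer.iter h' k n ((le_max_right _ _).trans hn)
  rw [Nat.mul_comm k' k] at h2
  rw [Set.mem_inter_iff, Set.mem_inter_iff, h1, h2]

lemma EvPer.congr {Z Z' : Set ℕ} (h : EvPer Z) (N : ℕ) (hN : ∀ n, N ≤ n → (n ∈ Z ↔ n ∈ Z')) :
    EvPer Z' := by
  obtain ⟨n0, k, hk, h⟩ := h
  refine ⟨max n0 N, k, hk, fun n hn => ?_⟩
  rw [← hN n ((le_max_right _ _).trans hn), ← hN (n + k) (by
    have := (le_max_right n0 N).trans hn
    omega)]
  exact h n ((le_max_left _ _).trans hn)

lemma EvPer.biInter {κ : Type} (s : Finset κ) (Z : κ → Set ℕ) (h : ∀ i ∈ s, EvPer (Z i)) :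
    EvPer {n | ∀ i ∈ s, n ∈ Z i} := by
  classical
  induction s using Finset.induction_on with
  | empty => simpa using EvPer.univ
  | insert a s ha ih =>
    have h1 := (h a (Finset.mem_insert_self _ _)).inter
      (ih fun i hi => h i (Finset.mem_insert_of_mem hi))
    refine h1.congr 0 fun n _ => ?_
    simp

lemma EvPer.progressions {Z : Set ℕ} (h : EvPer Z) :
    ∃ T : Finset (ℕ × ℕ), Z = {n : ℕ | ∃ q ∈ T, ∃ m : ℕ, n = q.1 * m + q.2} := by
  obtain ⟨n0, k, hk, h⟩ := h
  apply exists_progressions Z n0 k hk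
  intro r hinf t
  obtain ⟨t', ht'⟩ := hinf.nonempty
  rw [Set.mem_ofPred_eq] at ht'
  have h1 := EvPer.iter h t' (n0 + r) (by omega)
  have h2 := EvPer.iter h t (n0 + r) (by omega)
  exact h2.1 (h1.2 ht')

lemma EvPer.of_classes {Z : Set ℕ} (n0 k : ℕ) (hk : 0 < k)
    (h : ∀ r < k, (∃ M, ∀ m, M ≤ m → n0 + r + k * m ∈ Z) ∨
      ∃ M, ∀ m, M ≤ m → n0 + r + k * m ∉ Z) : EvPer Z := by
  classical
  have h1 : ∀ r : Fin k, ∃ M, (∀ m, M ≤ m → n0 + r + k * m ∈ Z) ∨
      ∀ m, M ≤ m → n0 + r + k * m ∉ Z := by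
    intro r
    rcases h r r.2 with ⟨M, hM⟩ | ⟨M, hM⟩
    · exact ⟨M, Or.inl hM⟩
    · exact ⟨M, Or.inr hM⟩
  choose M hM using h1
  set N := Finset.univ.sup M with hN
  refine ⟨n0 + k * (N + 1), k, hk, fun n hn => ?_⟩
  have hr : (n - n0) % k < k := Nat.mod_lt _ hk
  have hn' : n = n0 + (n - n0) % k + k * ((n - n0) / k) := by
    have := Nat.mod_add_div (n - n0) k
    have h2 : n0 ≤ n := by
      have : 0 ≤ k * (N + 1) := Nat.zero_le _
      omega
    omega
  have hNle : N ≤ (n - n0) / k := by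
    rw [Nat.le_div_iff_mul_le hk, Nat.mul_comm]
    have : k * (N + 1) = k * N + k := by ring
    omega
  have hMle : M ⟨(n - n0) % k, hr⟩ ≤ (n - n0) / k := (Finset.le_sup (Finset.mem_univ _)).trans hNle
  have hn'' : n + k = n0 + (n - n0) % k + k * ((n - n0) / k + 1) := by
    rw [Nat.mul_add, Nat.mul_one]
    omega
  rcases hM ⟨(n - n0) % k, hr⟩ with h2 | h2
  · have h3 := h2 _ hMle
    have h4 := h2 _ (Nat.le_succ_of_le hMle)
    simp only at h3 h4
    rw [← hn'] at h3
    rw [← hn''] at h4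
    exact ⟨fun _ => h4, fun _ => h3⟩
  · have h3 := h2 _ hMle
    have h4 := h2 _ (Nat.le_succ_of_le hMle)
    simp only at h3 h4
    rw [← hn'] at h3
    rw [← hn''] at h4
    exact ⟨fun h5 => absurd h5 h3, fun h5 => absurd h5 h4⟩

end evper

section forms

variable {L : Type} [CommRing L] {ι : Type} [Fintype ι] [DecidableEq ι]

omit [DecidableEq ι] in
lemma mon_prod (z : Option (ι × Fin 2) → L) (a : Option (ι × Fin 2) →₀ ℕ) :
    (∏ v ∈ a.support, z v ^ a v) = z none ^ a none *
      ∏ i, (z (some (i, 0)) ^ a (some (i, 0)) * z (some (i, 1)) ^ a (some (i, 1))) := by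
  have h : (∏ v ∈ a.support, z v ^ a v) = a.prod fun v e => z v ^ e := rfl
  rw [h, Finsupp.prod_fintype _ _ (fun _ => pow_zero _), Fintype.prod_option,
    Fintype.prod_prod_type]
  simp only [Fin.prod_univ_two]

omit [DecidableEq ι] in
/-- Scaling the fibre coordinates. -/
lemma eval_scale (F : MvPolynomial (Option (ι × Fin 2)) L) (m : ι → ℕ) (hF : MultiForm F m)
    (z z' : Option (ι × Fin 2) → L) (hz : z' none = z none) (lam : ι → L)
    (h : ∀ i, m i = 0 ∨ ∀ s, z' (some (i, s)) = lam i * z (some (i, s))) :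
    eval z' F = (∏ i, lam i ^ m i) * eval z F := by
  rw [eval_eq, eval_eq, Finset.mul_sum]
  apply Finset.sum_congr rfl
  intro a ha
  rw [mon_prod, mon_prod, hz]
  have h1 : ∏ i, (z' (some (i, 0)) ^ a (some (i, 0)) * z' (some (i, 1)) ^ a (some (i, 1))) =
      (∏ i, lam i ^ m i) *
        ∏ i, (z (some (i, 0)) ^ a (some (i, 0)) * z (some (i, 1)) ^ a (some (i, 1))) := by
    rw [← Finset.prod_mul_distrib]
    apply Finset.prod_congr rfl
    intro i _
    have h2 := hF a ha i
    rcases h i with h3 | h3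
    · rw [h3] at h2
      have h4 : a (some (i, 0)) = 0 := by omega
      have h5 : a (some (i, 1)) = 0 := by omega
      rw [h3, h4, h5]
      simp
    · rw [h3, h3, ← h2, pow_add, mul_pow, mul_pow]
      ring
  rw [h1]
  ring

/-- Removing the variables of the fibre with index `i`. -/
noncomputable def er (i : ι) (a : Option (ι × Fin 2) →₀ ℕ) : Option (ι × Fin 2) →₀ ℕ :=
  (a.erase (some (i, 0))).erase (some (i, 1))

omit [Fintype ι] [DecidableEq ι] in
lemma er_self (i : ι) (a : Option (ι × Fin 2) →₀ ℕ) (s : Fin 2) : er i a (some (i, s)) = 0 := by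
  fin_cases s
  · simp [er]
  · simp [er]

omit [Fintype ι] [DecidableEq ι] in
lemma er_ne (i j : ι) (hij : j ≠ i) (a : Option (ι × Fin 2) →₀ ℕ) (s : Fin 2) :
    er i a (some (j, s)) = a (some (j, s)) := by
  have h : ∀ t : Fin 2, (some (j, s) : Option (ι × Fin 2)) ≠ some (i, t) := by
    intro t h0
    simp only [Option.some.injEq, Prod.mk.injEq] at h0
    exact hij h0.1
  rw [er, Finsupp.erase_ne (h 1), Finsupp.erase_ne (h 0)]

omit [Fintype ι] [DecidableEq ι] in
lemma er_none (i : ι) (a : Option (ι × Fin 2) →₀ ℕ) : er i a none = a none := by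
  rw [er, Finsupp.erase_ne (by simp), Finsupp.erase_ne (by simp)]

/-- The coefficient forms with respect to the fibre with index `i`. -/
noncomputable def part (F : MvPolynomial (Option (ι × Fin 2)) L) (i : ι) (β : ℕ) :
    MvPolynomial (Option (ι × Fin 2)) L :=
  ∑ a ∈ F.support with a (some (i, 0)) = β, monomial (er i a) (F.coeff a)

omit [Fintype ι] in
lemma part_form (F : MvPolynomial (Option (ι × Fin 2)) L) (m : ι → ℕ) (hF : MultiForm F m)
    (i : ι) (β : ℕ) : MultiForm (part F i β) (Function.update m i 0) := by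
  classical
  intro a ha j
  have h1 : a ∈ (F.support.filter fun a => a (some (i, 0)) = β).image (er i) := by
    by_contra hcon
    rw [mem_support_iff] at ha
    apply ha
    rw [part, coeff_sum]
    apply Finset.sum_eq_zero
    intro b hb
    rw [coeff_monomial, if_neg]
    intro h0
    exact hcon (Finset.mem_image.2 ⟨b, hb, h0⟩)
  rw [Finset.mem_image] at h1
  obtain ⟨b, hb, rfl⟩ := h1
  rw [Finset.mem_filter] at hb
  by_cases hj : j = i
  · subst hj
    rw [er_self, er_self, Function.update_self]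
  · rw [er_ne i j hj, er_ne i j hj, Function.update_of_ne hj]
    exact hF b hb.1 j

lemma eval_part (F : MvPolynomial (Option (ι × Fin 2)) L) (m : ι → ℕ) (hF : MultiForm F m)
    (i : ι) (z : Option (ι × Fin 2) → L) :
    eval z F = ∑ β : Fin (m i + 1), eval z (part F i β) *
      (z (some (i, 0)) ^ (β : ℕ) * z (some (i, 1)) ^ (m i - β)) := by
  classical
  have h1 : ∀ β : Fin (m i + 1), eval z (part F i β) *
      (z (some (i, 0)) ^ (β : ℕ) * z (some (i, 1)) ^ (m i - β)) =
      ∑ a ∈ F.support with a (some (i, 0)) = (β : ℕ), coeff a F * ∏ v ∈ a.support, z v ^ a v := by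
    intro β
    rw [part, map_sum, Finset.sum_mul]
    apply Finset.sum_congr rfl
    intro a ha
    rw [Finset.mem_filter] at ha
    have h2 := hF a ha.1 i
    rw [eval_monomial, Finsupp.prod, mon_prod, mon_prod, er_none, mul_assoc, mul_assoc]
    congr 2
    rw [← Finset.mul_prod_erase Finset.univ _ (Finset.mem_univ i),
      ← Finset.mul_prod_erase Finset.univ (fun j => z (some (j, 0)) ^ a (some (j, 0)) *
        z (some (j, 1)) ^ a (some (j, 1))) (Finset.mem_univ i)]
    have h3 : m i - (β : ℕ) = a (some (i, 1)) := by omega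
    have h4 : ∏ j ∈ Finset.univ.erase i, (z (some (j, 0)) ^ er i a (some (j, 0)) *
        z (some (j, 1)) ^ er i a (some (j, 1))) = ∏ j ∈ Finset.univ.erase i,
        (z (some (j, 0)) ^ a (some (j, 0)) * z (some (j, 1)) ^ a (some (j, 1))) := by
      apply Finset.prod_congr rfl
      intro j hj
      rw [er_ne i j (Finset.ne_of_mem_erase hj), er_ne i j (Finset.ne_of_mem_erase hj)]
    rw [h4, er_self, er_self, h3, ← ha.2]
    ring
  rw [Finset.sum_congr rfl fun β _ => h1 β, eval_eq]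
  rw [Fin.sum_univ_eq_sum_range (fun β => ∑ a ∈ F.support with a (some (i, 0)) = β,
    coeff a F * ∏ v ∈ a.support, z v ^ a v) (m i + 1)]
  rw [Finset.sum_fiberwise_of_maps_to]
  intro a ha
  rw [Finset.mem_range]
  have h2 := hF a ha i
  omega

end forms

section descent

variable {ι : Type} [Fintype ι] [DecidableEq ι]

omit [Fintype ι] [DecidableEq ι] in
/-- The zeros over a subfield of a set of forms are the zeros of forms over the subfield. -/
theorem descend {K : Type} [Field K] (σ : K →+* ℂ)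
    (V : Set (MvPolynomial (Option (ι × Fin 2)) ℂ)) (hV : ∀ F ∈ V, ∃ m, MultiForm F m) :
    ∃ W : Set (MvPolynomial (Option (ι × Fin 2)) K), (∀ F ∈ W, ∃ m, MultiForm F m) ∧
      ∀ z : Option (ι × Fin 2) → K, (∀ F ∈ V, eval (fun v => σ (z v)) F = 0) ↔
        ∀ G ∈ W, eval z G = 0 := by
  classical
  let : Algebra K ℂ := σ.toAlgebra
  let red : (ℂ →ₗ[K] K) → MvPolynomial (Option (ι × Fin 2)) ℂ →
      MvPolynomial (Option (ι × Fin 2)) K := fun φ F =>
    ∑ a ∈ F.support, monomial a (φ (F.coeff a))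
  have hred : ∀ φ F z, eval z (red φ F) = φ (eval (fun v => σ (z v)) F) := by
    intro φ F z
    simp only [red]
    rw [map_sum, eval_eq, map_sum]
    apply Finset.sum_congr rfl
    intro a _
    rw [eval_monomial, Finsupp.prod]
    have h1 : (∏ v ∈ a.support, σ (z v) ^ a v) = σ (∏ v ∈ a.support, z v ^ a v) := by
      rw [map_prod]
      simp only [map_pow]
    rw [h1]
    have h2 : F.coeff a * σ (∏ v ∈ a.support, z v ^ a v) =
        (∏ v ∈ a.support, z v ^ a v) • F.coeff a := by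
      rw [Algebra.smul_def, mul_comm]
      rfl
    rw [h2, map_smul, smul_eq_mul, mul_comm]
  refine ⟨{G | ∃ F ∈ V, ∃ φ, G = red φ F}, ?_, fun z => ⟨?_, ?_⟩⟩
  · rintro G ⟨F, hF, φ, rfl⟩
    obtain ⟨m, hm⟩ := hV F hF
    refine ⟨m, fun a ha i => hm a ?_ i⟩
    by_contra hcon
    rw [mem_support_iff] at ha
    apply ha
    simp only [red]
    rw [coeff_sum]
    apply Finset.sum_eq_zero
    intro b hb
    rw [coeff_monomial, if_neg]
    rintro rfl
    exact hcon hb
  · rintro h G ⟨F, hF, φ, rfl⟩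
    rw [hred, h F hF, map_zero]
  · intro h F hF
    rw [← Module.forall_dual_apply_eq_zero_iff K]
    intro φ
    have h1 := h _ ⟨F, hF, φ, rfl⟩
    rwa [hred] at h1

end descent

end Pool.Agent.T2H18
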