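import Mathlib

set_option autoImplicit false

/-! Height bounds for forms on `A^1 × (P^1)^ι`. -/

namespace Pool.Agent.T2H18

open MvPolynomial Height

variable {K : Type} [Field K] [NumberField K]

/-- The degrees in the pairs of variables `(i, 0)`, `(i, 1)`. -/
def MultiForm {R ι : Type} [CommSemiring R] (G : MvPolynomial (Option (ι × Fin 2)) R)
    (m : ι → ℕ) : Prop :=
  ∀ a ∈ G.support, ∀ i, a (some (i, 0)) + a (some (i, 1)) = m i

lemma mon_bound (m : ℕ) : ∃ C : ℝ, 0 < C ∧ ∀ y : Fin 2 → K,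
    mulHeight (fun β : Fin (m + 1) => y 0 ^ (β : ℕ) * y 1 ^ (m - β)) ≤ C * mulHeight y ^ m := by
  obtain ⟨C, hC, h⟩ := mulHeight_eval_le' (K := K) (ι := Fin 2) (N := m)
    (p := fun β : Fin (m + 1) => X 0 ^ (β : ℕ) * X 1 ^ (m - β)) (fun β => by
      have h1 := ((isHomogeneous_X K (0 : Fin 2)).pow (β : ℕ)).mul
        ((isHomogeneous_X K (1 : Fin 2)).pow (m - (β : ℕ)))
      have h2 : 1 * (β : ℕ) + 1 * (m - (β : ℕ)) = m := by
        have := β.2
        omega
      rwa [h2] at h1)
  refine ⟨C, hC, fun y => ?_⟩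
  have h1 := h y
  simpa using h1

variable {ι : Type} [Fintype ι] [DecidableEq ι]

/-- The coordinates of the point of `P^1` with index `i`. -/
def fib (z : Option (ι × Fin 2) → K) (i : ι) : Fin 2 → K := fun s => z (some (i, s))

omit [NumberField K] [DecidableEq ι] in
lemma eval_mon (z : Option (ι × Fin 2) → K) (a : Option (ι × Fin 2) →₀ ℕ) :
    (a.prod fun v e => z v ^ e) = z none ^ a none *
      ∏ i, (fib z i 0 ^ a (some (i, 0)) * fib z i 1 ^ a (some (i, 1))) := by
  rw [Finsupp.prod_fintype _ _ (fun _ => pow_zero _), Fintype.prod_option, Fintype.prod_prod_type]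
  simp only [Fin.prod_univ_two, fib]

/-- Upper bound for the height of the values of multihomogeneous forms. -/
theorem upper {κ : Type} [Finite κ] (G : κ → MvPolynomial (Option (ι × Fin 2)) K) (m : ι → ℕ)
    (hG : ∀ k, MultiForm (G k) m) : ∃ (C : ℝ) (D : ℕ), 0 ≤ C ∧
      ∀ z : Option (ι × Fin 2) → K, (∀ i, fib z i ≠ 0) →
        logHeight (fun k => eval z (G k)) ≤ C + D * logHeight₁ (z none) +
          ∑ i, m i * logHeight (fib z i) := by
  classical
  have := Fintype.ofFinite κ
  set S : Finset (Option (ι × Fin 2) →₀ ℕ) := Finset.univ.biUnion fun k => (G k).support with hS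
  set D := S.sup fun a => a none with hD
  rcases isEmpty_or_nonempty S with hSe | hSe
  · refine ⟨0, 0, le_rfl, fun z hz => ?_⟩
    have h1 : ∀ k, G k = 0 := by
      intro k
      rw [← support_eq_empty]
      by_contra hne
      obtain ⟨a, ha⟩ := Finset.nonempty_of_ne_empty hne
      exact hSe.false ⟨a, Finset.mem_biUnion.2 ⟨k, Finset.mem_univ _, ha⟩⟩
    have h2 : (fun k => eval z (G k)) = 0 := by
      funext k
      rw [h1, map_zero, Pi.zero_apply]
    rw [h2, logHeight_zero]
    have : 0 ≤ ∑ i, (m i : ℝ) * logHeight (fib z i) :=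
      Finset.sum_nonneg fun i _ => mul_nonneg (Nat.cast_nonneg _) (logHeight_nonneg _)
    simpa using this
  choose Cm hCm0 hCm using fun n : ℕ => mon_bound (K := K) n
  set M : κ × S → K := fun q => (G q.1).coeff q.2.1 with hM
  have hcard : (1 : ℝ) ≤ Nat.card S ^ totalWeight K := by
    have : 0 < Nat.card S := Nat.card_pos
    exact one_le_pow₀ (by exact_mod_cast this)
  set C₀ : ℝ := Nat.card S ^ totalWeight K * mulHeight M * (Cm D * ∏ i, Cm (m i)) with hC₀
  have hC₀pos : 0 < C₀ := by
    have h1 : 0 < mulHeight M := mulHeight_pos _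
    have h2 : 0 < ∏ i, Cm (m i) := Finset.prod_pos fun i _ => hCm0 _
    have h3 := hCm0 D
    positivity
  refine ⟨|Real.log C₀|, D, abs_nonneg _, fun z hz => ?_⟩
  let xs : Fin (D + 1) → K := fun j => z none ^ (j : ℕ)
  let ys : (i : ι) → Fin (m i + 1) → K := fun i β => fib z i 0 ^ (β : ℕ) * fib z i 1 ^ (m i - β)
  have hys : ∀ i, ys i ≠ 0 := by
    intro i h0
    have h1 : fib z i 0 = 0 := by
      have h2 := congrFun h0 (Fin.last _)
      simp only [ys, Fin.val_last, Nat.sub_self, pow_zero, mul_one, Pi.zero_apply] at h2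
      exact eq_zero_of_pow_eq_zero h2
    have h1' : fib z i 1 = 0 := by
      have h2 := congrFun h0 0
      simp only [ys, Fin.val_zero, pow_zero, one_mul, Pi.zero_apply, Nat.sub_zero] at h2
      exact eq_zero_of_pow_eq_zero h2
    apply hz i
    funext s
    fin_cases s
    · exact h1
    · exact h1'
  have hxs : xs ≠ 0 := by
    intro h0
    have h2 := congrFun h0 0
    simp only [xs, Fin.val_zero, pow_zero, Pi.zero_apply] at h2
    exact one_ne_zero h2
  have hYs : (fun I : (i : ι) → Fin (m i + 1) => ∏ i, ys i (I i)) ≠ 0 := by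
    choose f hf using fun i => Function.ne_iff.1 (hys i)
    exact Function.ne_iff.2 ⟨f, Finset.prod_ne_zero_iff.2 fun i _ => hf i⟩
  have hSm : ∀ a ∈ S, ∀ i, a (some (i, 0)) + a (some (i, 1)) = m i := by
    intro a ha i
    obtain ⟨k, -, hk⟩ := Finset.mem_biUnion.1 ha
    exact hG k a hk i
  let f : S → Fin (D + 1) × ((i : ι) → Fin (m i + 1)) := fun a =>
    (⟨a.1 none, Nat.lt_succ_of_le (Finset.le_sup (f := fun a => a none) a.2)⟩,
      fun i => ⟨a.1 (some (i, 0)), by have := hSm a.1 a.2 i; omega⟩)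
  let tens : Fin (D + 1) × ((i : ι) → Fin (m i + 1)) → K := fun q => xs q.1 * ∏ i, ys i (q.2 i)
  have hval : (fun k => eval z (G k)) = fun k => ∑ a : S, M (k, a) * (tens ∘ f) a := by
    funext k
    rw [eval_eq]
    have h1 : ∑ a ∈ (G k).support, coeff a (G k) * ∏ i ∈ a.support, z i ^ a i =
        ∑ a ∈ S, coeff a (G k) * ∏ i ∈ a.support, z i ^ a i := by
      apply Finset.sum_subset
      · intro a ha
        exact Finset.mem_biUnion.2 ⟨k, Finset.mem_univ _, ha⟩
      · intro a _ ha
        rw [notMem_support_iff.1 ha, zero_mul]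
    rw [h1, ← Finset.sum_coe_sort S]
    apply Finset.sum_congr rfl
    intro a _
    congr 1
    have h2 := eval_mon z a.1
    rw [Finsupp.prod] at h2
    rw [h2]
    simp only [Function.comp_apply, tens, f, xs, ys]
    congr 1
    apply Finset.prod_congr rfl
    intro i _
    have h3 := hSm a.1 a.2 i
    have h4 : m i - a.1 (some (i, 0)) = a.1 (some (i, 1)) := by omega
    rw [h4]
  have h1 : mulHeight (fun k => eval z (G k)) ≤ C₀ * (mulHeight₁ (z none) ^ D *
      ∏ i, mulHeight (fib z i) ^ m i) := by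
    rw [hval]
    refine (mulHeight_linearMap_apply_le M (tens ∘ f)).trans ?_
    have h2 : mulHeight (tens ∘ f) ≤ mulHeight xs * ∏ i, mulHeight (ys i) := by
      refine (mulHeight_comp_le f tens).trans ?_
      rw [← mulHeight_fun_prod_eq hys]
      exact (mulHeight_fun_mul_eq hxs hYs).le
    have h3 : mulHeight xs ≤ Cm D * mulHeight₁ (z none) ^ D := by
      rw [mulHeight₁_eq_mulHeight]
      refine le_trans (le_of_eq ?_) (hCm D ![z none, 1])
      congr 1
      funext j
      simp [xs]
    have h4 : ∏ i, mulHeight (ys i) ≤ ∏ i, (Cm (m i) * mulHeight (fib z i) ^ m i) :=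
      Finset.prod_le_prod (fun i _ => (mulHeight_pos _).le) fun i _ => hCm (m i) (fib z i)
    have h5 : mulHeight (tens ∘ f) ≤ (Cm D * mulHeight₁ (z none) ^ D) *
        ∏ i, (Cm (m i) * mulHeight (fib z i) ^ m i) := by
      refine h2.trans (mul_le_mul h3 h4 (Finset.prod_nonneg fun i _ => (mulHeight_pos _).le) ?_)
      have := hCm0 D
      have := mulHeight₁_pos (z none)
      positivity
    calc _ ≤ (Nat.card S ^ totalWeight K * mulHeight M) * ((Cm D * mulHeight₁ (z none) ^ D) *
        ∏ i, (Cm (m i) * mulHeight (fib z i) ^ m i)) := by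
          apply mul_le_mul_of_nonneg_left h5
          have h1 : 0 < mulHeight M := mulHeight_pos _
          positivity
      _ = _ := by
        rw [Finset.prod_mul_distrib, hC₀]
        ring
  rw [logHeight_eq_log_mulHeight]
  refine (Real.log_le_log (mulHeight_pos _) h1).trans ?_
  have hp1 : 0 < mulHeight₁ (z none) ^ D := pow_pos (mulHeight₁_pos _) _
  have hp2 : 0 < ∏ i, mulHeight (fib z i) ^ m i :=
    Finset.prod_pos fun i _ => pow_pos (mulHeight_pos _) _
  rw [Real.log_mul hC₀pos.ne' (mul_pos hp1 hp2).ne', Real.log_mul hp1.ne' hp2.ne', Real.log_pow,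
    Real.log_prod fun i _ => (pow_pos (mulHeight_pos _) _).ne']
  have h2 : ∑ i, Real.log (mulHeight (fib z i) ^ m i) = ∑ i, m i * logHeight (fib z i) := by
    apply Finset.sum_congr rfl
    intro i _
    rw [Real.log_pow, logHeight_eq_log_mulHeight]
  rw [h2, ← logHeight₁_eq_log_mulHeight₁]
  have h3 := le_abs_self (Real.log C₀)
  linarith

/-- Lower bound for the height of the image under forms without common zeros. -/
theorem lower (i₀ : ι) (M d : ℕ) (U : Fin 2 × Fin 2 → MvPolynomial (Option (ι × Fin 2)) K)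
    (hU : ∀ q, MultiForm (U q) (Pi.single i₀ M))
    (h : Fin 2 → MvPolynomial (Option (ι × Fin 2)) K)
    (hcert : ∀ k, ∑ s, U (k, s) * h s = X (some (i₀, k)) ^ (M + d)) :
    ∃ (C : ℝ) (D : ℕ), 0 ≤ C ∧ ∀ z : Option (ι × Fin 2) → K, (∀ i, fib z i ≠ 0) →
      d * logHeight (fib z i₀) ≤ C + D * logHeight₁ (z none) +
        logHeight (fun s => eval z (h s)) := by
  classical
  obtain ⟨C, D, hC, hCD⟩ := upper U (Pi.single i₀ M) hU
  refine ⟨totalWeight K * Real.log 2 + C, D, by
    have := Real.log_pos one_lt_two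
    positivity, fun z hz => ?_⟩
  have h1 := mulHeight_linearMap_apply_le (fun q => eval z (U q)) (fun s => eval z (h s))
  have h2 : (fun j => ∑ i, eval z (U (j, i)) * eval z (h i)) = fib z i₀ ^ (M + d) := by
    funext k
    have h3 := congrArg (eval z) (hcert k)
    rw [map_sum, map_pow, eval_X] at h3
    simp only [map_mul] at h3
    exact h3
  rw [h2] at h1
  have h3 := Real.log_le_log (mulHeight_pos _) h1
  have h4 : (0 : ℝ) < (Nat.card (Fin 2) : ℝ) ^ totalWeight K := by
    have : 0 < Nat.card (Fin 2) := Nat.card_pos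
    positivity
  rw [Real.log_mul (mul_pos h4 (mulHeight_pos _)).ne' (mulHeight_pos _).ne',
    Real.log_mul h4.ne' (mulHeight_pos _).ne', Real.log_pow, ← logHeight_eq_log_mulHeight,
    ← logHeight_eq_log_mulHeight, ← logHeight_eq_log_mulHeight, logHeight_pow] at h3
  have h5 := hCD z hz
  have h6 : ∑ i, ((Pi.single i₀ M : ι → ℕ) i : ℝ) * logHeight (fib z i) =
      M * logHeight (fib z i₀) := by
    rw [Finset.sum_eq_single i₀]
    · simp
    · intro i _ hi
      rw [Pi.single_eq_of_ne hi, Nat.cast_zero, zero_mul]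
    · simp
  rw [h6] at h5
  have h7 : ((Nat.card (Fin 2) : ℕ) : ℝ) = 2 := by simp
  rw [h7] at h3
  push_cast at h3
  linarith

/-- The height of a zero of a binary form is bounded by the height of the coefficients. -/
theorem root_bound (m : ℕ) : ∃ C : ℝ, 0 ≤ C ∧ ∀ (c : Fin (m + 1) → K) (y : Fin 2 → K), c ≠ 0 →
    y ≠ 0 → ∑ β : Fin (m + 1), c β * (y 0 ^ (β : ℕ) * y 1 ^ (m - β)) = 0 →
    logHeight y ≤ C + logHeight c := by
  classical
  choose Cm hCm0 hCm using fun n : ℕ => mon_bound (K := K) n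
  -- the fixed matrices
  let E : (k : ℕ) → (Fin (k + 1 + 1) × Fin (k + 1)) × Fin (m + 1) → K := fun k q =>
    if (q.1.1 : ℕ) < k + 1 then (if (q.1.1 : ℕ) = q.1.2 ∧ (q.2 : ℕ) = k + 1 then 1 else 0)
    else (if (q.2 : ℕ) = q.1.2 then -1 else 0)
  let Ck : ℕ → ℝ := fun k => Nat.card (Fin (k + 1)) ^ totalWeight K *
    (Nat.card (Fin (m + 1)) ^ totalWeight K * mulHeight (E k)) * Cm k
  have hCk : ∀ k, 0 < Ck k := by
    intro k
    have h1 : 0 < Nat.card (Fin (k + 1)) := Nat.card_pos
    have h2 : 0 < Nat.card (Fin (m + 1)) := Nat.card_pos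
    have h3 := mulHeight_pos (E k)
    have h4 := hCm0 k
    positivity
  refine ⟨∑ k ∈ Finset.range (m + 1), |Real.log (Ck k)|,
    Finset.sum_nonneg fun _ _ => abs_nonneg _, fun c y hc hy hsum => ?_⟩
  have hC0 : 0 ≤ ∑ k ∈ Finset.range (m + 1), |Real.log (Ck k)| :=
    Finset.sum_nonneg fun _ _ => abs_nonneg _
  by_cases hy1 : y 1 = 0
  · -- the point at infinity
    have hy0 : y 0 ≠ 0 := by
      intro h0
      apply hy
      funext s
      fin_cases s
      · exact h0
      · exact hy1
    have h1 : logHeight y = 0 := by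
      have h2 : y = y 0 • ![1, 0] := by
        funext s
        fin_cases s
        · simp
        · simpa using hy1
      rw [h2, logHeight_smul_eq_logHeight _ hy0]
      have h3 : (![1, 0] : Fin 2 → K) = ![(1 : K), 0] := rfl
      have h4 := logHeight₁_div_eq_logHeight (1 : K) 0
      rw [← h4]
      simp
    rw [h1]
    exact add_nonneg hC0 (logHeight_nonneg _)
  -- the affine coordinate
  set w : K := y 0 / y 1 with hw
  have hyw : logHeight y = logHeight₁ w := by
    rw [hw, logHeight₁_div_eq_logHeight]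
    congr 1
    funext s
    fin_cases s <;> simp
  have hsum' : ∑ β : Fin (m + 1), c β * w ^ (β : ℕ) = 0 := by
    have h1 : y 1 ^ m * ∑ β : Fin (m + 1), c β * w ^ (β : ℕ) = 0 := by
      rw [← hsum, Finset.mul_sum]
      apply Finset.sum_congr rfl
      intro β _
      have h2 : y 1 ^ m = y 1 ^ (β : ℕ) * y 1 ^ (m - β) := by
        rw [← pow_add]
        congr 1
        have := β.2
        omega
      rw [h2, hw, div_pow]
      field_simp
    exact (mul_eq_zero.1 h1).resolve_left (pow_ne_zero _ hy1)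
  -- the top coefficient
  obtain ⟨β₀, hβ₀⟩ := Function.ne_iff.1 hc
  obtain ⟨k', hk', hmax⟩ := (Finset.univ.filter fun β => c β ≠ 0).exists_max_image
    (fun β : Fin (m + 1) => (β : ℕ)) ⟨β₀, by simpa using hβ₀⟩
  have hck : c k' ≠ 0 := by simpa using hk'
  have htop : ∀ β : Fin (m + 1), (k' : ℕ) < β → c β = 0 := by
    intro β hβ
    by_contra hne
    have := hmax β (by simpa using hne)
    omega
  rcases Nat.eq_zero_or_pos (k' : ℕ) with hk0 | hk0
  · exfalso
    apply hck
    rw [Finset.sum_eq_single k'] at hsum'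
    · rw [hk0, pow_zero, mul_one] at hsum'
      exact hsum'
    · intro β _ hβ
      have h1 : (β : ℕ) ≠ 0 := by
        intro h0
        apply hβ
        exact Fin.ext (h0.trans hk0.symm)
      rw [htop β (by omega), zero_mul]
    · simp
  obtain ⟨k, hk⟩ : ∃ k, (k' : ℕ) = k + 1 := ⟨k' - 1, by omega⟩
  have hkm : k + 1 < m + 1 := by rw [← hk]; exact k'.2
  -- the companion matrix
  let N : Fin (k + 1 + 1) × Fin (k + 1) → K := fun q => ∑ γ : Fin (m + 1), E k (q, γ) * c γ
  have hN1 : ∀ (j : Fin (k + 1 + 1)) (β : Fin (k + 1)), (j : ℕ) < k + 1 →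
      N (j, β) = if (j : ℕ) = β then c k' else 0 := by
    intro j β hj
    simp only [N, E, hj, if_true]
    by_cases hjβ : (j : ℕ) = β
    · rw [if_pos hjβ, Finset.sum_eq_single k']
      · rw [if_pos ⟨hjβ, hk⟩, one_mul]
      · intro γ _ hγ
        have h1 : ¬ (γ : ℕ) = k + 1 := by
          intro h0
          apply hγ
          exact Fin.ext (h0.trans hk.symm)
        rw [if_neg (fun h => h1 h.2), zero_mul]
      · simp
    · rw [if_neg hjβ]
      apply Finset.sum_eq_zero
      intro γ _
      rw [if_neg (fun h => hjβ h.1), zero_mul]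
  have hN2 : ∀ (j : Fin (k + 1 + 1)) (β : Fin (k + 1)), ¬ (j : ℕ) < k + 1 →
      N (j, β) = -c ⟨β, by have := β.2; omega⟩ := by
    intro j β hj
    simp only [N, E, hj, if_false]
    rw [Finset.sum_eq_single (⟨β, by have := β.2; omega⟩ : Fin (m + 1))]
    · simp
    · intro γ _ hγ
      have h1 : ¬ (γ : ℕ) = (β : ℕ) := by
        intro h0
        apply hγ
        exact Fin.ext h0
      rw [if_neg h1, zero_mul]
    · simp
  have hrel : ∑ β : Fin (k + 1), c ⟨β, by have := β.2; omega⟩ * w ^ (β : ℕ) +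
      c k' * w ^ (k + 1) = 0 := by
    rw [← hsum']
    have h1 : ∑ β : Fin (m + 1), c β * w ^ (β : ℕ) = ∑ β ∈ Finset.range (m + 1),
        (if h : β < m + 1 then c ⟨β, h⟩ else 0) * w ^ β := by
      rw [← Fin.sum_univ_eq_sum_range (fun β => (if h : β < m + 1 then c ⟨β, h⟩ else 0) * w ^ β)]
      apply Finset.sum_congr rfl
      intro β _
      rw [dif_pos β.2]
    have h2 : ∑ β : Fin (k + 1), c ⟨β, by have := β.2; omega⟩ * w ^ (β : ℕ) =
        ∑ β ∈ Finset.range (k + 1), (if h : β < m + 1 then c ⟨β, h⟩ else 0) * w ^ β := by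
      rw [← Fin.sum_univ_eq_sum_range (fun β => (if h : β < m + 1 then c ⟨β, h⟩ else 0) * w ^ β)]
      apply Finset.sum_congr rfl
      intro β _
      rw [dif_pos]
    rw [h1, h2]
    have h3 : Finset.range (k + 2) ⊆ Finset.range (m + 1) := Finset.range_subset_range.2 (by omega)
    rw [← Finset.sum_subset h3, Finset.sum_range_succ _ (k + 1)]
    · congr 1
      rw [dif_pos hkm]
      congr 2
      exact Fin.ext hk
    · intro β hβ hβ'
      rw [Finset.mem_range] at hβ hβ'
      rw [dif_pos hβ, htop _ (by simp only; omega), zero_mul]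
  have hvec : (fun j : Fin (k + 1 + 1) => ∑ β : Fin (k + 1), N (j, β) * (w ^ (β : ℕ))) =
      c k' • fun j : Fin (k + 1 + 1) => w ^ (j : ℕ) := by
    funext j
    rw [Pi.smul_apply, smul_eq_mul]
    by_cases hj : (j : ℕ) < k + 1
    · rw [Finset.sum_eq_single (⟨j, hj⟩ : Fin (k + 1))]
      · rw [hN1 j _ hj, if_pos rfl]
      · intro β _ hβ
        have h1 : ¬ (j : ℕ) = (β : ℕ) := by
          intro h0
          apply hβ
          exact Fin.ext h0.symm
        rw [hN1 j β hj, if_neg h1, zero_mul]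
      · simp
    · have hj' : (j : ℕ) = k + 1 := by
        have := j.2
        omega
      rw [hj']
      have h1 : ∀ β : Fin (k + 1), N (j, β) * w ^ (β : ℕ) =
          -(c ⟨β, by have := β.2; omega⟩ * w ^ (β : ℕ)) := by
        intro β
        rw [hN2 j β hj]
        ring
      rw [Finset.sum_congr rfl fun β _ => h1 β, Finset.sum_neg_distrib]
      linear_combination -hrel
  have h1 : mulHeight₁ w ^ (k + 1) ≤ mulHeight (fun j : Fin (k + 1 + 1) => w ^ (j : ℕ)) := by
    have h2 := mulHeight_comp_le (![Fin.last (k + 1), 0] : Fin 2 → Fin (k + 1 + 1))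
      (fun j : Fin (k + 1 + 1) => w ^ (j : ℕ))
    refine le_trans (le_of_eq ?_) h2
    rw [← mulHeight₁_pow, mulHeight₁_eq_mulHeight]
    congr 1
    funext s
    fin_cases s <;> simp
  have h2 : mulHeight (fun j : Fin (k + 1 + 1) => w ^ (j : ℕ)) ≤
      Nat.card (Fin (k + 1)) ^ totalWeight K * mulHeight N *
        mulHeight (fun β : Fin (k + 1) => w ^ (β : ℕ)) := by
    rw [← mulHeight_smul_eq_mulHeight _ hck, ← hvec]
    exact mulHeight_linearMap_apply_le N _
  have h3 : mulHeight N ≤ Nat.card (Fin (m + 1)) ^ totalWeight K * mulHeight (E k) *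
      mulHeight c := mulHeight_linearMap_apply_le (E k) c
  have h4 : mulHeight (fun β : Fin (k + 1) => w ^ (β : ℕ)) ≤ Cm k * mulHeight₁ w ^ k := by
    rw [mulHeight₁_eq_mulHeight]
    refine le_trans (le_of_eq ?_) (hCm k ![w, 1])
    congr 1
    funext j
    simp
  have hpos : 0 < mulHeight₁ w := mulHeight₁_pos w
  have h5 : mulHeight₁ w ≤ Ck k * mulHeight c := by
    have h6 : mulHeight₁ w ^ k * mulHeight₁ w ≤ mulHeight₁ w ^ k * (Ck k * mulHeight c) := by
      calc mulHeight₁ w ^ k * mulHeight₁ w = mulHeight₁ w ^ (k + 1) := (pow_succ _ _).symm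
        _ ≤ _ := h1
        _ ≤ _ := h2
        _ ≤ Nat.card (Fin (k + 1)) ^ totalWeight K *
            (Nat.card (Fin (m + 1)) ^ totalWeight K * mulHeight (E k) * mulHeight c) *
            (Cm k * mulHeight₁ w ^ k) := by
            apply mul_le_mul _ h4 (mulHeight_pos _).le _
            · exact mul_le_mul_of_nonneg_left h3 (by positivity)
            · have := mulHeight_pos (E k)
              have := mulHeight_pos c
              positivity
        _ = _ := by
          simp only [Ck]
          ring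
    exact le_of_mul_le_mul_left h6 (pow_pos hpos k)
  rw [hyw, logHeight₁_eq_log_mulHeight₁, logHeight_eq_log_mulHeight c]
  have h6 := Real.log_le_log hpos h5
  rw [Real.log_mul (hCk k).ne' (mulHeight_pos _).ne'] at h6
  have h7 : |Real.log (Ck k)| ≤ ∑ k ∈ Finset.range (m + 1), |Real.log (Ck k)| :=
    Finset.single_le_sum (f := fun k => |Real.log (Ck k)|) (fun _ _ => abs_nonneg _)
      (Finset.mem_range.2 (by omega))
  have h8 := le_abs_self (Real.log (Ck k))
  linarith

end Pool.Agent.T2H18
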