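import Pool.Agent.T2H18.Num
import Pool.Agent.R847.Gap.Core
import Pool.Agent.R847.Gap.Emb

set_option autoImplicit false

/-! The Liouville inequality in a number field, for an embedding into the algebraic closure of
`ℚ_p`. -/

namespace Pool.Agent.T2H18

open NumberField Height Pool.Agent.R847.Gap Pool.Agent.H936R2

lemma norm_integral_le_one {p : ℕ} [hp : Fact p.Prime] {K : Type} [Field K]
    (τ : K →+* PadicAlgCl p) {x : K} (hx : IsIntegral ℤ x) : ‖τ x‖ ≤ 1 := by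
  obtain ⟨f, hf, h0⟩ := hx
  refine norm_le_one_of_monic (f.map (Int.castRingHom _)) (hf.map _) (fun i => ?_) ?_
  · rw [Polynomial.coeff_map]
    exact IsUltrametricDist.norm_intCast_le_one (PadicAlgCl p) _
  · have h1 := congrArg τ h0
    rw [map_zero, Polynomial.hom_eval₂] at h1
    rw [Polynomial.eval_map]
    have h2 : τ.comp (algebraMap ℤ K) = Int.castRingHom _ := RingHom.ext_int _ _
    rwa [h2] at h1

/-- The Liouville inequality. -/
lemma liouville (K : Type) [Field K] [NumberField K] {p : ℕ} [hp : Fact p.Prime]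
    (τ : K →+* PadicAlgCl p) {x : K} (hx : IsIntegral ℤ x) (hx0 : x ≠ 0) {B : ℝ}
    (hB : ∀ σ : K →+* ℂ, ‖σ x‖ ≤ B) : 1 ≤ ‖τ x‖ * B ^ (Module.finrank ℚ K) := by
  classical
  set x' : 𝓞 K := ⟨x, hx⟩ with hx'
  have hx0' : x' ≠ 0 := by
    intro h
    exact hx0 (congrArg (fun y : 𝓞 K => (y : K)) h)
  set n := Ideal.absNorm (Ideal.span {x'}) with hn
  have hdvd : x' ∣ (n : 𝓞 K) := by
    have h := Ideal.absNorm_mem (Ideal.span {x'})
    rwa [Ideal.mem_span_singleton] at h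
  obtain ⟨y, hy⟩ := hdvd
  have hn0 : n ≠ 0 := by
    intro h
    rw [hn, Ideal.absNorm_eq_zero_iff, Ideal.span_singleton_eq_bot] at h
    exact hx0' h
  have h1 : (n : K) = x * (y : K) := by
    have h := congrArg (algebraMap (𝓞 K) K) hy
    rw [map_mul, map_natCast] at h
    exact h
  have h2 : ‖τ (n : K)‖ ≤ ‖τ x‖ := by
    rw [h1, map_mul, norm_mul]
    calc ‖τ x‖ * ‖τ (y : K)‖ ≤ ‖τ x‖ * 1 := mul_le_mul_of_nonneg_left
          (norm_integral_le_one τ (RingOfIntegers.isIntegral_coe y)) (norm_nonneg _)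
      _ = _ := mul_one _
  have h3 := one_le_norm_int p (n : ℤ) (by exact_mod_cast hn0)
  have h4 : ‖((n : ℤ) : PadicAlgCl p)‖ = ‖τ (n : K)‖ := by
    rw [map_natCast]; push_cast; rfl
  have h5 : |((n : ℤ) : ℝ)| ≤ B ^ Module.finrank ℚ K := by
    have h6 : (n : ℤ) = |Algebra.norm ℤ x'| := by
      rw [hn, Ideal.absNorm_span_singleton]
      simp
    have h7 : ((Algebra.norm ℤ x' : ℤ) : ℚ) = Algebra.norm ℚ x := by
      rw [Algebra.coe_norm_int]
      rfl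
    have h8 : (algebraMap ℚ ℂ) (Algebra.norm ℚ x) = ∏ σ : K →ₐ[ℚ] ℂ, σ x :=
      Algebra.norm_eq_prod_embeddings ℚ ℂ x
    have h9 : ‖(algebraMap ℚ ℂ) (Algebra.norm ℚ x)‖ = |((Algebra.norm ℤ x' : ℤ) : ℝ)| := by
      rw [← h7]
      simp
    have h10 : |((n : ℤ) : ℝ)| = |((Algebra.norm ℤ x' : ℤ) : ℝ)| := by
      rw [h6]
      push_cast
      exact abs_abs _
    rw [h10, ← h9, h8, norm_prod]
    calc ∏ σ : K →ₐ[ℚ] ℂ, ‖σ x‖ ≤ ∏ _σ : K →ₐ[ℚ] ℂ, B :=
          Finset.prod_le_prod (fun _ _ => norm_nonneg _) fun σ _ => hB (σ : K →+* ℂ)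
      _ = B ^ Module.finrank ℚ K := by
          rw [Finset.prod_const, Finset.card_univ, AlgHom.card]
  calc (1 : ℝ) ≤ ‖((n : ℤ) : PadicAlgCl p)‖ * |((n : ℤ) : ℝ)| := h3
    _ ≤ ‖τ x‖ * B ^ Module.finrank ℚ K := by
        apply mul_le_mul (h4.le.trans h2) h5 (abs_nonneg _) (norm_nonneg _)

/-- The value of a polynomial in two variables. -/
noncomputable def pval {K : Type} [CommRing K] (D₁ D₂ : ℕ) (c : ℕ → ℕ → K) (t w : K) : K :=
  ∑ a ∈ Finset.range D₁, ∑ b ∈ Finset.range D₂, c a b * t ^ a * w ^ b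

lemma isIntegral_natCast' {K : Type} [Field K] (n : ℕ) : IsIntegral ℤ (n : K) := by
  have := isIntegral_nat_pow (K := K) n 1
  rwa [pow_one] at this

lemma pval_integral {K : Type} [Field K] (D₁ D₂ : ℕ) (c : ℕ → ℕ → K) (t w : K) (q n : ℕ)
    (hc : ∀ a b, IsIntegral ℤ (c a b)) (ht : IsIntegral ℤ ((q : K) * t))
    (hw : IsIntegral ℤ ((n : K) * w)) :
    IsIntegral ℤ ((q : K) ^ D₁ * (n : K) ^ D₂ * pval D₁ D₂ c t w) := by
  rw [pval, Finset.mul_sum]
  apply IsIntegral.sum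
  intro a ha
  rw [Finset.mul_sum]
  apply IsIntegral.sum
  intro b hb
  rw [Finset.mem_range] at ha hb
  have h1 : (q : K) ^ D₁ * (n : K) ^ D₂ * (c a b * t ^ a * w ^ b) =
      c a b * ((q : K) ^ (D₁ - a) * (q * t) ^ a) * ((n : K) ^ (D₂ - b) * (n * w) ^ b) := by
    have h2 : (q : K) ^ D₁ = q ^ (D₁ - a) * q ^ a := by
      rw [← pow_add]; congr 1; omega
    have h3 : (n : K) ^ D₂ = n ^ (D₂ - b) * n ^ b := by
      rw [← pow_add]; congr 1; omega
    rw [h2, h3]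
    ring
  rw [h1]
  exact ((hc a b).mul (((isIntegral_natCast' q).pow _).mul (ht.pow _))).mul
    (((isIntegral_natCast' n).pow _).mul (hw.pow _))

lemma pval_norm_le {K : Type} [Field K] (σ : K →+* ℂ) (D₁ D₂ : ℕ) (c : ℕ → ℕ → K) (t w : K)
    (A T W : ℝ) (hc : ∀ a b, ‖σ (c a b)‖ ≤ A) (hT : 1 ≤ T) (hW : 1 ≤ W) (ht : ‖σ t‖ ≤ T)
    (hw : ‖σ w‖ ≤ W) : ‖σ (pval D₁ D₂ c t w)‖ ≤ D₁ * D₂ * (A * T ^ D₁ * W ^ D₂) := by
  have hA : 0 ≤ A := (norm_nonneg _).trans (hc 0 0)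
  rw [pval, map_sum]
  have h1 : ∀ a ∈ Finset.range D₁, ‖σ (∑ b ∈ Finset.range D₂, c a b * t ^ a * w ^ b)‖ ≤
      D₂ * (A * T ^ D₁ * W ^ D₂) := by
    intro a ha
    rw [map_sum]
    refine (norm_sum_le _ _).trans ?_
    have h2 : ∀ b ∈ Finset.range D₂, ‖σ (c a b * t ^ a * w ^ b)‖ ≤ A * T ^ D₁ * W ^ D₂ := by
      intro b hb
      rw [Finset.mem_range] at ha hb
      rw [map_mul, map_mul, map_pow, map_pow, norm_mul, norm_mul, norm_pow, norm_pow]
      have h3 : ‖σ t‖ ^ a ≤ T ^ D₁ :=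
        (pow_le_pow_left₀ (norm_nonneg _) ht a).trans (pow_le_pow_right₀ hT ha.le)
      have h4 : ‖σ w‖ ^ b ≤ W ^ D₂ :=
        (pow_le_pow_left₀ (norm_nonneg _) hw b).trans (pow_le_pow_right₀ hW hb.le)
      have hT0 : 0 ≤ T ^ D₁ := by positivity
      exact mul_le_mul (mul_le_mul (hc a b) h3 (by positivity) hA) h4 (by positivity)
        (by positivity)
    refine (Finset.sum_le_card_nsmul _ _ _ h2).trans ?_
    rw [Finset.card_range, nsmul_eq_mul]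
  refine (norm_sum_le _ _).trans ((Finset.sum_le_card_nsmul _ _ _ h1).trans ?_)
  rw [Finset.card_range, nsmul_eq_mul]
  exact (mul_assoc _ _ _).symm.le

end Pool.Agent.T2H18
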