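import Pool.Agent.R847.Gap.Shadow

set_option autoImplicit false

/-! Windows with a uniform return time: for a polynomial self-map over a ring `R` with `R / π`
finite. -/

namespace Pool.Agent.T2H18

open MvPolynomial Pool.Agent.H936R2 Pool.Agent.R847.Gap

/-- Pigeonhole. -/
lemma pigeon {S : Type} [Fintype S] (s : ℕ → S) :
    ∃ n m, n < m ∧ m ≤ Fintype.card S ∧ s m = s n := by
  classical
  obtain ⟨x, y, hxy, h⟩ := Fintype.exists_ne_map_eq_of_card_lt
    (fun i : Fin (Fintype.card S + 1) => s i) (by simp)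
  rcases lt_or_gt_of_ne hxy with h1 | h1
  · exact ⟨x, y, h1, Nat.lt_succ_iff.1 y.2, h.symm⟩
  · exact ⟨y, x, h1, Nat.lt_succ_iff.1 x.2, h⟩

variable {R : Type} [CommRing R]

lemma mk_eq (π : R) {x y : R} (h : Ideal.Quotient.mk (Ideal.span {π}) x =
    Ideal.Quotient.mk (Ideal.span {π}) y) : ∃ z, x - y = π * z := by
  rw [Ideal.Quotient.eq, Ideal.mem_span_singleton] at h
  obtain ⟨z, hz⟩ := h
  exact ⟨z, hz⟩

theorem uniform_window (π : R) [Finite (R ⧸ Ideal.span {π})] (ι : Type) [Fintype ι]
    [DecidableEq ι] :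
    ∃ k : ℕ, 0 < k ∧ ∀ (F : ι → MvPolynomial ι R) (a : ι → R),
      ∃ (n0 : ℕ) (H : ι → MvPolynomial ι R),
        (∀ u : ι → R, (pt F)^[k] (fun i => (pt F)^[n0] a i + π * u i) =
          fun i => (pt F)^[n0] a i + π * pt H u i) ∧ IdemMod π H := by
  classical
  set Q := R ⧸ Ideal.span {π} with hQ
  have : Fintype Q := Fintype.ofFinite Q
  set mk := Ideal.Quotient.mk (Ideal.span {π}) with hmk
  let S1 := ι → Q
  let S2 := (ι → Q) × (ι → ι → Q)
  set M1 := Fintype.card S1 with hM1
  set M2 := Fintype.card S2 with hM2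
  refine ⟨M1.factorial * M2.factorial, Nat.mul_pos (Nat.factorial_pos _) (Nat.factorial_pos _),
    fun F a => ?_⟩
  obtain ⟨n0, m0, hnm, hm0, hrec⟩ := pigeon (fun n => (fun i => mk ((pt F)^[n] a i) : S1))
  have hm0' : m0 ≤ M1 := hm0
  set b := (pt F)^[n0] a with hb
  obtain ⟨k0, hk0⟩ : ∃ k, m0 = n0 + k := ⟨m0 - n0, by omega⟩
  have hk0pos : 0 < k0 := by omega
  have hk0le : k0 ∣ M1.factorial := Nat.dvd_factorial hk0pos (by omega)
  obtain ⟨t0, ht0⟩ := hk0le
  -- the reduction is periodic
  have hmap : ∀ (x : ι → R) n, (fun i => mk ((pt F)^[n] x i)) =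
      (pt fun i => map mk (F i))^[n] (fun i => mk (x i)) := fun x n => (pt_map mk F x n).symm
  have hper : (pt fun i => map mk (F i))^[k0] (fun i => mk (b i)) = fun i => mk (b i) := by
    have h1 := hmap b k0
    rw [← h1]
    have h2 : (pt F)^[k0] b = (pt F)^[m0] a := by
      rw [hb, ← Function.iterate_add_apply, hk0, Nat.add_comm]
    rw [h2]
    exact hrec
  have hper' : ∀ t, (pt fun i => map mk (F i))^[k0 * t] (fun i => mk (b i)) =
      fun i => mk (b i) := by
    intro t
    induction t with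
    | zero => rfl
    | succ t ih => rw [Nat.mul_succ, Function.iterate_add_apply, hper, ih]
  set K0 := M1.factorial with hK0
  have h1 : ∀ i, ∃ z : R, (pt F)^[K0] b i - b i = π * z := by
    intro i
    apply mk_eq
    have h2 := hmap b K0
    rw [ht0, hper' t0] at h2
    rw [ht0]
    exact congrFun h2 i
  choose w hw using h1
  have hFb : ∀ i, (pt F)^[K0] b i = b i + π * w i := fun i => by
    rw [← hw i]
    ring
  -- the map in the scaled coordinate
  obtain ⟨r, hr⟩ := itP_expand F π b K0
  let A : ι → ι → R := fun i j => itA F b K0 i j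
  let h : ι → MvPolynomial ι R := fun i => C (w i) + (∑ j, C (A i j) * X j) + C π * r i
  have hh : ∀ u : ι → R,
      (pt F)^[K0] (fun i => b i + π * u i) = fun i => b i + π * pt h u i := by
    intro u
    funext i
    rw [← itP_eval, hr i]
    simp only [map_add, map_mul, eval_C, pt, eval_X, map_sum, hFb, map_pow, h, A]
    ring
  -- affine modulo π
  have haff := affine_pow π (⊤ : Subring R) h w A (fun i => Subring.mem_top _)
    (fun i j => Subring.mem_top _) (fun i => ⟨r i, by simp only [h]; ring⟩)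
  choose c m hc hm hcong using haff
  obtain ⟨n1, m1, hnm1, hm1, hrec1⟩ := pigeon
    (fun n => ((fun i => mk (c n i), fun i j => mk (m n i j)) : S2))
  have hm1' : m1 ≤ M2 := hm1
  have hrecc : ∀ i, mk (c m1 i) = mk (c n1 i) := fun i => congrFun (congrArg Prod.fst hrec1) i
  have hrecm : ∀ i j, mk (m m1 i j) = mk (m n1 i j) := fun i j =>
    congrFun (congrFun (congrArg Prod.snd hrec1) i) j
  set T : MvPolynomial ι R →ₐ[R] MvPolynomial ι R := aeval h with hT
  have hTX : ∀ i, Cong π ((T ^ m1) (X i)) ((T ^ n1) (X i)) := by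
    intro i
    refine (hcong m1 i).trans (Cong.trans ?_ (hcong n1 i).symm)
    obtain ⟨z, hz⟩ := mk_eq π (hrecc i)
    have h2 : ∀ j, ∃ z, m m1 i j - m n1 i j = π * z := fun j => mk_eq π (hrecm i j)
    choose z' hz' using h2
    refine ⟨C z + ∑ j, C (z' j) * X j, ?_⟩
    have h3 : C (c m1 i) - C (c n1 i) = C π * (C z : MvPolynomial ι _) := by
      rw [← map_sub, hz, map_mul]
    have h4 : ∀ j, C (m m1 i j) - C (m n1 i j) = C π * (C (z' j) : MvPolynomial ι _) := by
      intro j
      rw [← map_sub, hz', map_mul]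
    have h5 : ∑ j, C (m m1 i j) * X j - ∑ j, C (m n1 i j) * X j =
        C π * ∑ j, (C (z' j) * X j : MvPolynomial ι _) := by
      rw [← Finset.sum_sub_distrib, Finset.mul_sum]
      apply Finset.sum_congr rfl
      intro j _
      rw [← sub_mul, h4]
      ring
    linear_combination h3 + h5
  obtain ⟨r1, hr1⟩ : ∃ r1, m1 = n1 + r1 := ⟨m1 - n1, by omega⟩
  have hr1pos : 0 < r1 := by omega
  have hTq : ∀ j, n1 ≤ j → ∀ q, Cong π ((T ^ (j + r1)) q) ((T ^ j) q) := by
    intro j hj q
    obtain ⟨l, rfl⟩ : ∃ l, j = n1 + l := ⟨j - n1, by omega⟩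
    have h2 := cong_algHom (T ^ m1) (T ^ n1) hTX ((T ^ l) q)
    rw [← AlgHom.mul_apply, ← AlgHom.mul_apply, ← pow_add, ← pow_add, hr1] at h2
    have h3 : n1 + r1 + l = n1 + l + r1 := by ring
    rwa [h3] at h2
  have hTs : ∀ s j, n1 ≤ j → ∀ q, Cong π ((T ^ (j + r1 * s)) q) ((T ^ j) q) := by
    intro s
    induction s with
    | zero => intro j _ q; simpa using Cong.refl π ((T ^ j) q)
    | succ s ih =>
      intro j hj q
      have h2 := hTq (j + r1 * s) (by omega) q
      have h3 := ih j hj q
      have h4 : j + r1 * (s + 1) = j + r1 * s + r1 := by ring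
      rw [h4]
      exact h2.trans h3
  set e := M2.factorial with he
  have hepos : 0 < e := Nat.factorial_pos _
  obtain ⟨t1, ht1⟩ : r1 ∣ e := Nat.dvd_factorial hr1pos (by omega)
  have hen : n1 ≤ e := (by omega : n1 ≤ M2).trans (Nat.self_le_factorial _)
  refine ⟨n0, fun i => (T ^ e) (X i), fun u => ?_, fun q => ?_⟩
  · -- iterates of the scaled map
    have h2 : ∀ n, (pt F)^[K0 * n] (fun i => b i + π * u i) =
        fun i => b i + π * (pt h)^[n] u i := by
      intro n
      induction n with
      | zero => funext i; simp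
      | succ n ih =>
        rw [Nat.mul_succ, Nat.add_comm, Function.iterate_add_apply, ih, hh,
          Function.iterate_succ_apply']
    rw [h2 e]
    funext i
    congr 2
    simp only [pt]
    rw [hT, R847.Gap.eval_pow, eval_X]
  · rw [hT, aeval_pow_eq, ← hT, ← AlgHom.mul_apply, ← pow_add]
    have h2 := hTs t1 e hen q
    rwa [← ht1] at h2

/-- The values of a polynomial along the orbit, in the window. -/
theorem window_values (π : R) {ι : Type} [Fintype ι] [DecidableEq ι]
    (F : ι → MvPolynomial ι R) (a : ι → R) (k n0 : ℕ) (H : ι → MvPolynomial ι R)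
    (hwin : ∀ u : ι → R, (pt F)^[k] (fun i => (pt F)^[n0] a i + π * u i) =
      fun i => (pt F)^[n0] a i + π * pt H u i) (g : MvPolynomial ι R) (r : ℕ) :
    ∃ q : MvPolynomial ι R, ∀ m, valSeq H 0 q m = eval ((pt F)^[n0 + r + k * m] a) g := by
  set b := (pt F)^[n0] a with hb
  have hit : ∀ (v : ι → R) t, (pt F)^[k * t] (fun i => b i + π * v i) =
      fun i => b i + π * (pt H)^[t] v i := by
    intro v t
    induction t with
    | zero => funext i; simp
    | succ t ih =>
      rw [Nat.mul_succ, Nat.add_comm, Function.iterate_add_apply, ih, hwin,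
        Function.iterate_succ_apply']
  refine ⟨aeval (fun i => C (b i) + C π * X i) (pullback F r g), fun m => ?_⟩
  have h1 : (fun i => b i + π * (0 : ι → R) i) = b := by
    funext i; simp
  have h2 : n0 + r + k * m = r + (k * m + n0) := by ring
  rw [h2, Function.iterate_add_apply, Function.iterate_add_apply, ← hb, ← eval_pullback]
  conv_rhs => rw [← h1, hit]
  rw [valSeq, eval_aeval_poly]
  congr 2
  funext i
  simp

end Pool.Agent.T2H18
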