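import Pool.Agent.T2H18.Slow
import Pool.Agent.T2H18.Win

set_option autoImplicit false

/-! The height gap for polynomial observables along orbits. -/

namespace Pool.Agent.T2H18

open NumberField Height Filter MvPolynomial Pool.Agent.H936R2 Pool.Agent.R847.Gap

lemma exists_lift_sInt {K : Type} [Field K] {b : ℕ} {ι : Type} (P : MvPolynomial ι K)
    (h : ∀ κ, P.coeff κ ∈ sInt K b) :
    ∃ Q : MvPolynomial ι (sInt K b), map (sInt K b).subtype Q = P := by
  classical
  refine ⟨∑ κ ∈ P.support, monomial κ ⟨P.coeff κ, h κ⟩, ?_⟩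
  rw [map_sum]
  conv_rhs => rw [P.as_sum]
  apply Finset.sum_congr rfl
  intro κ _
  rw [map_monomial]
  rfl

lemma exists_mul_integral {K : Type} [Field K] [NumberField K] {ι : Type} (b : ℕ)
    (g : MvPolynomial ι K) :
    ∃ M : ℕ, M ≠ 0 ∧ ∀ κ, (C (M : K) * g).coeff κ ∈ sInt K b := by
  classical
  choose n hn0 hn hint using fun x : K => exists_nat_le_mulHeight₁ x
  refine ⟨∏ κ ∈ g.support, n (g.coeff κ), Finset.prod_ne_zero_iff.2 fun κ _ => hn0 _,
    fun κ => ?_⟩
  rw [coeff_C_mul]
  by_cases hκ : κ ∈ g.support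
  · rw [← Finset.mul_prod_erase _ _ hκ]
    apply isIntegral_mem
    push_cast
    have h1 : (n (g.coeff κ) : K) * (∏ x ∈ g.support.erase κ, (n (g.coeff x) : K)) * g.coeff κ =
        (∏ x ∈ g.support.erase κ, (n (g.coeff x) : K)) * (n (g.coeff κ) * g.coeff κ) := by ring
    rw [h1]
    apply IsIntegral.mul _ (hint _)
    apply IsIntegral.prod
    intro x _
    have := isIntegral_nat_pow (K := K) (n (g.coeff x)) 1
    rwa [pow_one] at this
  · rw [notMem_support_iff.1 hκ, mul_zero]
    exact (sInt K b).zero_mem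

/-- The main theorem for one observable. -/
theorem gap_observable (K : Type) [Field K] [NumberField K] (b N : ℕ) (hb : b ≠ 0) :
    ∃ (c : ℝ) (k : ℕ), 0 < c ∧ 0 < k ∧ ∀ (f : Fin N → MvPolynomial (Fin N) K) (α : Fin N → K),
      (∀ i m, (f i).coeff m ∈ sInt K b) → (∀ i, α i ∈ sInt K b) →
      ∀ g : MvPolynomial (Fin N) K,
        (∀ᶠ n : ℕ in atTop, logHeight₁ (eval ((pt f)^[n] α) g) ≤ c * n) →
        ∀ r, ∃ Q : Polynomial K, ∀ᶠ m : ℕ in atTop,
          eval ((pt f)^[r + k * m] α) g = Q.eval (m : K) := by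
  classical
  obtain ⟨p, hpb, hp⟩ := Nat.exists_infinite_primes (b + 3)
  have hbp : Nat.Coprime p b := by
    rw [Nat.Prime.coprime_iff_not_dvd hp]
    intro h
    have := Nat.le_of_dvd (Nat.pos_of_ne_zero hb) h
    omega
  have hfin := finite_quotient K b p hbp hp.ne_zero
  obtain ⟨k, hk, hwin⟩ := uniform_window (p : sInt K b) (Fin N)
  have hlog2 : 0 < Real.log 2 := Real.log_pos one_lt_two
  have hlogb : 0 ≤ Real.log b := Real.log_natCast_nonneg b
  set A : ℝ := 1 + Real.log b / Real.log 2 with hA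
  have hA1 : 1 ≤ A := by
    rw [hA]
    have : 0 ≤ Real.log b / Real.log 2 := by positivity
    linarith
  have hp3 : (3 : ℝ) ≤ p := by
    have : 3 ≤ p := by omega
    exact_mod_cast this
  have hlp : 0 < Real.log p - Real.log 2 := by
    have := Real.log_lt_log (by norm_num : (0 : ℝ) < 2) (by linarith : (2 : ℝ) < p)
    linarith
  have hkR : (0 : ℝ) < k := by exact_mod_cast hk
  set c : ℝ := (Real.log p - Real.log 2) / (4 * A * k) with hc
  have hcpos : 0 < c := by positivity
  refine ⟨c, k, hcpos, hk, fun f α hf hα g hg r => ?_⟩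
  choose F hF using fun i => exists_lift_sInt (f i) (hf i)
  let a : Fin N → sInt K b := fun i => ⟨α i, hα i⟩
  obtain ⟨n0, H, hwin, hH⟩ := hwin F a
  obtain ⟨M, hM0, hM⟩ := exists_mul_integral b g
  obtain ⟨G, hG⟩ := exists_lift_sInt _ hM
  have horb : ∀ n, (fun i => ((pt F)^[n] a i : K)) = (pt f)^[n] α := by
    intro n
    have h1 := pt_map (sInt K b).subtype F a n
    have h2 : (fun i => map (sInt K b).subtype (F i)) = f := funext hF
    rw [h2] at h1
    exact h1.symm
  have hval : ∀ n, ((eval ((pt F)^[n] a) G : sInt K b) : K) = M * eval ((pt f)^[n] α) g := by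
    intro n
    have h1 : (eval ((pt f)^[n] α)) (map (sInt K b).subtype G) =
        (sInt K b).subtype (eval ((pt F)^[n] a) G) := by
      rw [← horb, eval_map]
      have h := eval₂_comp_left (sInt K b).subtype (RingHom.id _) ((pt F)^[n] a) G
      rw [RingHom.comp_id] at h
      exact h.symm
    rw [hG, map_mul, eval_C] at h1
    exact h1.symm
  set r' := r + k * n0 - n0 with hr'
  have hle : n0 ≤ k * n0 := Nat.le_mul_of_pos_left _ hk
  have hidx : ∀ m, n0 + r' + k * m = r + k * (n0 + m) := by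
    intro m
    rw [hr', Nat.mul_add]
    omega
  obtain ⟨q, hq⟩ := window_values (p : sInt K b) F a k n0 H hwin G r'
  obtain ⟨Q, hQ⟩ := poly_of_slow K b p hb hbp (by omega) (valSeq H 0 q)
    (fun k' n j hn hj => valSeq_diff_dvd _ H hH 0 q k' n j hn hj) (c * k)
    (logHeight₁ (M : K) + c * (n0 + r')) (by positivity) (by
      rw [← hA, hc]
      have h1 : A * (2 * ((Real.log p - Real.log 2) / (4 * A * k) * k)) =
          (Real.log p - Real.log 2) / 2 := by
        field_simp
        ring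
      rw [h1]
      linarith) (by
      have h1 : Tendsto (fun m : ℕ => n0 + r' + k * m) atTop atTop := by
        apply tendsto_atTop_mono (f := fun m : ℕ => m) _ tendsto_id
        intro m
        have : m ≤ k * m := Nat.le_mul_of_pos_left _ hk
        omega
      filter_upwards [h1.eventually hg] with m hm
      rw [hq, hval]
      refine (logHeight₁_mul_le _ _).trans ?_
      push_cast at hm
      linarith)
  have hMK : (M : K) ≠ 0 := Nat.cast_ne_zero.2 hM0
  refine ⟨Polynomial.C (M : K)⁻¹ * Q.comp (Polynomial.X - Polynomial.C (n0 : K)), ?_⟩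
  have h2 : ∀ᶠ m : ℕ in atTop, eval ((pt f)^[r + k * (n0 + m)] α) g = (M : K)⁻¹ * Q.eval (m : K) := by
    filter_upwards [hQ] with m hm
    rw [← hm, hq, hval, hidx]
    field_simp
  obtain ⟨m1, hm1⟩ := eventually_atTop.1 h2
  refine eventually_atTop.2 ⟨n0 + m1, fun m hm => ?_⟩
  obtain ⟨l, rfl⟩ : ∃ l, m = n0 + l := ⟨m - n0, by omega⟩
  rw [hm1 l (by omega), Polynomial.eval_mul, Polynomial.eval_C, Polynomial.eval_comp]
  congr 2
  simp

/-- The return sets of quasi-polynomial sequences. -/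
theorem return_of_poly (K : Type) [Field K] (σ : K →+* ℂ) (k l : ℕ) (hk : 0 < k)
    (s : ℕ → Fin l → K)
    (hs : ∀ j r, ∃ Q : Polynomial K, ∀ᶠ m : ℕ in atTop, s (r + k * m) j = Q.eval (m : K))
    (W : Set (MvPolynomial (Fin l) ℂ)) :
    ∃ T : Finset (ℕ × ℕ), {n : ℕ | ∀ F ∈ W, eval (fun j => σ (s n j)) F = 0} =
      {n : ℕ | ∃ q ∈ T, ∃ m : ℕ, n = q.1 * m + q.2} := by
  classical
  choose Q hQ using hs
  have h1 : ∀ᶠ m : ℕ in atTop, ∀ j : Fin l, ∀ r : Fin k,
      s (r + k * m) j = (Q j r).eval (m : K) := by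
    rw [eventually_all]
    intro j
    rw [eventually_all]
    intro r
    exact hQ j r
  obtain ⟨m1, hm1⟩ := eventually_atTop.1 h1
  apply exists_progressions _ (k * m1) k hk
  intro r hinf t
  set r0 := r % k with hr0
  have hr0k : r0 < k := Nat.mod_lt _ hk
  have hidx : ∀ t, k * m1 + r + k * t = r0 + k * (m1 + r / k + t) := by
    intro t
    have h2 := Nat.mod_add_div r k
    rw [Nat.mul_add, Nat.mul_add]
    rw [← hr0] at h2
    omega
  have hidx' : ∀ t, m1 ≤ m1 + r / k + t := fun t => by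
    rw [Nat.add_assoc]
    exact Nat.le_add_right _ _
  have hval : ∀ t (F : MvPolynomial (Fin l) ℂ), eval (fun j => σ (s (k * m1 + r + k * t) j)) F =
      Polynomial.eval ((m1 + r / k + t : ℕ) : ℂ)
        (aeval (fun j => (Q j r0).map σ) F : Polynomial ℂ) := by
    intro t F
    have h2 : (fun j => σ (s (k * m1 + r + k * t) j)) =
        fun j => Polynomial.eval ((m1 + r / k + t : ℕ) : ℂ) ((Q j r0).map σ) := by
      funext j
      rw [hidx]
      have h3 := hm1 (m1 + r / k + t) (hidx' t) j ⟨r0, hr0k⟩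
      rw [h3]
      have h4 : ((m1 + r / k + t : ℕ) : ℂ) = σ ((m1 + r / k + t : ℕ) : K) := by
        rw [map_natCast]
      rw [h4, Polynomial.eval_map_apply]
    rw [h2]
    have h5 : (Polynomial.aeval ((m1 + r / k + t : ℕ) : ℂ))
        ((aeval (fun j => (Q j r0).map σ) F : Polynomial ℂ)) =
        aeval (fun j => Polynomial.aeval ((m1 + r / k + t : ℕ) : ℂ) ((Q j r0).map σ)) F := by
      rw [← AlgHom.comp_apply, comp_aeval]
    rw [Polynomial.coe_aeval_eq_eval] at h5
    rw [h5]
    rfl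
  intro F hF
  rw [hval]
  have hzero : (aeval (fun j => (Q j r0).map σ) F : Polynomial ℂ) = 0 := by
    apply Polynomial.eq_zero_of_infinite_isRoot
    have hinj : Function.Injective fun t : ℕ => ((m1 + r / k + t : ℕ) : ℂ) := by
      intro t t' h
      have h7 : ((m1 + r / k + t : ℕ) : ℂ) = ((m1 + r / k + t' : ℕ) : ℂ) := h
      have h8 : m1 + r / k + t = m1 + r / k + t' := Nat.cast_injective h7
      exact Nat.add_left_cancel h8
    refine (hinf.image hinj.injOn).mono ?_
    rintro _ ⟨t, ht, rfl⟩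
    have h6 := ht F hF
    rw [hval] at h6
    exact h6
  rw [hzero, Polynomial.eval_zero]

end Pool.Agent.T2H18
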