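import Mathlib

set_option autoImplicit false

/-! `b`-integral elements of a number field: sizes and heights. -/

namespace Pool.Agent.T2H18

open NumberField Height

lemma isIntegral_nat_pow {K : Type} [Field K] (b k : ℕ) : IsIntegral ℤ ((b : K) ^ k) := by
  have h : IsIntegral ℤ ((algebraMap ℤ K) (b : ℤ)) := isIntegral_algebraMap
  rw [map_natCast] at h
  exact h.pow k

lemma isIntegral_int {K : Type} [Field K] (b : ℤ) : IsIntegral ℤ (b : K) := by
  have h : IsIntegral ℤ ((algebraMap ℤ K) b) := isIntegral_algebraMap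
  rwa [eq_intCast] at h

/-- The ring of the `b`-integral elements of a field: the elements `x` such that `b ^ e x` is
an algebraic integer for some `e`. -/
def sInt (K : Type) [Field K] (b : ℕ) : Subring K where
  carrier := {x | ∃ e : ℕ, IsIntegral ℤ ((b : K) ^ e * x)}
  mul_mem' := by
    rintro x y ⟨e, he⟩ ⟨e', he'⟩
    refine ⟨e + e', ?_⟩
    have h : (b : K) ^ (e + e') * (x * y) = (b ^ e * x) * (b ^ e' * y) := by ring
    rw [h]
    exact he.mul he'
  one_mem' := ⟨0, by simpa using isIntegral_one⟩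
  add_mem' := by
    rintro x y ⟨e, he⟩ ⟨e', he'⟩
    refine ⟨e + e', ?_⟩
    have h : (b : K) ^ (e + e') * (x + y) = b ^ e' * (b ^ e * x) + b ^ e * (b ^ e' * y) := by ring
    rw [h]
    exact ((isIntegral_nat_pow _ _).mul he).add ((isIntegral_nat_pow _ _).mul he')
  zero_mem' := ⟨0, by simpa using isIntegral_zero⟩
  neg_mem' := by
    rintro x ⟨e, he⟩
    refine ⟨e, ?_⟩
    rw [mul_neg]
    exact he.neg

lemma mem_sInt {K : Type} [Field K] {b : ℕ} {x : K} :
    x ∈ sInt K b ↔ ∃ e : ℕ, IsIntegral ℤ ((b : K) ^ e * x) := Iff.rfl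

lemma isIntegral_mem {K : Type} [Field K] {b : ℕ} {x : K} (h : IsIntegral ℤ x) : x ∈ sInt K b :=
  ⟨0, by simpa using h⟩

/-- Bezout. -/
lemma isIntegral_gcd {K : Type} [Field K] (m n : ℕ) (x : K) (hm : IsIntegral ℤ ((m : K) * x))
    (hn : IsIntegral ℤ ((n : K) * x)) : IsIntegral ℤ ((Nat.gcd m n : K) * x) := by
  have h := Nat.gcd_eq_gcd_ab m n
  have h1 : ((Nat.gcd m n : ℕ) : K) = (m : K) * (Nat.gcdA m n : K) + (n : K) * (Nat.gcdB m n : K) := by
    have h2 := congrArg (Int.cast : ℤ → K) h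
    push_cast at h2
    exact h2
  rw [h1]
  have h3 : ((m : K) * (Nat.gcdA m n : K) + (n : K) * (Nat.gcdB m n : K)) * x =
      (Nat.gcdA m n : K) * (m * x) + (Nat.gcdB m n : K) * (n * x) := by ring
  rw [h3]
  exact ((isIntegral_int _).mul hm).add ((isIntegral_int _).mul hn)

/-- The residue rings are finite. -/
lemma finite_quotient (K : Type) [Field K] [NumberField K] (b p : ℕ) (hbp : Nat.Coprime p b)
    (hp : p ≠ 0) : Finite (sInt K b ⧸ Ideal.span {(p : sInt K b)}) := by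
  classical
  let φ : 𝓞 K →+* sInt K b := RingHom.codRestrict (algebraMap (𝓞 K) K) (sInt K b) fun x =>
    isIntegral_mem (RingOfIntegers.isIntegral_coe x)
  have hφ : ∀ x : 𝓞 K, (φ x : K) = algebraMap (𝓞 K) K x := fun x => rfl
  let ψ : 𝓞 K →+* sInt K b ⧸ Ideal.span {(p : sInt K b)} := (Ideal.Quotient.mk _).comp φ
  have hker : ∀ x ∈ Ideal.span {(p : 𝓞 K)}, ψ x = 0 := by
    intro x hx
    rw [Ideal.mem_span_singleton] at hx
    obtain ⟨y, rfl⟩ := hx
    rw [map_mul, map_natCast]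
    have : ((p : ℕ) : sInt K b ⧸ Ideal.span {(p : sInt K b)}) = 0 := by
      have h := Ideal.Quotient.eq_zero_iff_mem (I := Ideal.span {(p : sInt K b)})
        (a := (p : sInt K b))
      rw [map_natCast] at h
      exact h.2 (Ideal.mem_span_singleton_self _)
    rw [this, zero_mul]
  have hfin : Finite (𝓞 K ⧸ Ideal.span {(p : 𝓞 K)}) := by
    apply Ideal.finiteQuotientOfFreeOfNeBot
    rw [Ne, Ideal.span_singleton_eq_bot]
    exact_mod_cast hp
  refine Finite.of_surjective (Ideal.Quotient.lift (Ideal.span {(p : 𝓞 K)}) ψ hker) ?_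
  intro y
  obtain ⟨⟨x, e, he⟩, rfl⟩ := Ideal.Quotient.mk_surjective y
  -- `c b ^ e = 1 + p t`
  have hcop : IsCoprime ((b : ℤ) ^ e) (p : ℤ) := by
    apply IsCoprime.pow_left
    exact (Nat.isCoprime_iff_coprime.2 hbp).symm
  obtain ⟨c, t, hct⟩ := hcop
  refine ⟨Ideal.Quotient.mk _ ((c : 𝓞 K) * ⟨(b : K) ^ e * x, he⟩), ?_⟩
  rw [Ideal.Quotient.lift_mk]
  change Ideal.Quotient.mk _ (φ _) = _
  rw [Ideal.Quotient.eq, Ideal.mem_span_singleton]
  refine ⟨-(t : sInt K b) * ⟨x, e, he⟩, ?_⟩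
  apply Subtype.ext
  have h1 : ((φ ((c : 𝓞 K) * ⟨(b : K) ^ e * x, he⟩) : sInt K b) : K) = c * (b ^ e * x) := by
    rw [hφ]
    have h3 : algebraMap (𝓞 K) K ((c : 𝓞 K) * ⟨(b : K) ^ e * x, he⟩) =
      algebraMap (𝓞 K) K (c : 𝓞 K) * algebraMap (𝓞 K) K ⟨(b : K) ^ e * x, he⟩ := map_mul _ _ _
    rw [h3, map_intCast]
    rfl
  have h2 : (c : K) * b ^ e + t * p = 1 := by exact_mod_cast congrArg (Int.cast : ℤ → K) hct
  push_cast
  rw [h1]
  linear_combination x * h2

/-- A nonzero `b`-integral element which is divisible by `p ^ j` has large size. -/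
lemma size_bound (K : Type) [Field K] [NumberField K] (b p : ℕ) (hb : b ≠ 0)
    (hbp : Nat.Coprime p b) (hp : p ≠ 0)
    (x : K) (z : sInt K b) (j e : ℕ) (B : ℝ) (hx : x = (p : K) ^ j * z) (hx0 : x ≠ 0)
    (he : IsIntegral ℤ ((b : K) ^ e * x)) (hB : ∀ σ : K →+* ℂ, ‖σ x‖ ≤ B) :
    (p : ℝ) ^ j ≤ (b : ℝ) ^ e * B := by
  obtain ⟨z, e', hz⟩ := z
  have h1 : IsIntegral ℤ ((b : K) ^ e * z) := by
    have h2 : IsIntegral ℤ (((p ^ j : ℕ) : K) * (b ^ e * z)) := by
      have h3 : ((p ^ j : ℕ) : K) * (b ^ e * z) = b ^ e * x := by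
        rw [hx]; push_cast; ring
      rw [h3]; exact he
    have h4 : IsIntegral ℤ (((b ^ e' : ℕ) : K) * (b ^ e * z)) := by
      have h3 : ((b ^ e' : ℕ) : K) * (b ^ e * z) = b ^ e * (b ^ e' * z) := by
        push_cast; ring
      rw [h3]
      exact (isIntegral_nat_pow _ _).mul hz
    have h5 := isIntegral_gcd _ _ _ h2 h4
    have h6 : Nat.gcd (p ^ j) (b ^ e') = 1 := Nat.Coprime.pow _ _ hbp
    rw [h6] at h5
    simpa using h5
  have hpK : (p : K) ≠ 0 := Nat.cast_ne_zero.2 hp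
  have hbK : (b : K) ≠ 0 := Nat.cast_ne_zero.2 hb
  have hz0 : z ≠ 0 := by
    rintro rfl
    exact hx0 (by rw [hx]; simp)
  have hy0 : (⟨(b : K) ^ e * z, h1⟩ : 𝓞 K) ≠ 0 := by
    intro h0
    have h2 : (b : K) ^ e * z = 0 := congrArg (fun y : 𝓞 K => (y : K)) h0
    exact (mul_ne_zero (pow_ne_zero _ hbK) hz0) h2
  obtain ⟨σ, hσ⟩ := NumberField.exists_conjugate_one_le_norm hy0
  have h2 : σ ((b : K) ^ e * z) * (p : ℂ) ^ j = (b : ℂ) ^ e * σ x := by
    rw [hx]
    simp only [map_mul, map_pow, map_natCast]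
    ring
  have h3 := congrArg norm h2
  rw [norm_mul, norm_mul, norm_pow, norm_pow, Complex.norm_natCast, Complex.norm_natCast] at h3
  have hσ' : 1 ≤ ‖σ ((b : K) ^ e * z)‖ := hσ
  calc (p : ℝ) ^ j = 1 * (p : ℝ) ^ j := (one_mul _).symm
    _ ≤ ‖σ ((b : K) ^ e * z)‖ * (p : ℝ) ^ j := mul_le_mul_of_nonneg_right hσ' (by positivity)
    _ = (b : ℝ) ^ e * ‖σ x‖ := h3
    _ ≤ _ := mul_le_mul_of_nonneg_left (hB σ) (by positivity)

lemma dvd_pow_log (b g e : ℕ) (hb : b ≠ 0) (h : g ∣ b ^ e) : g ∣ b ^ Nat.log 2 g := by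
  have hg : g ≠ 0 := by
    rintro rfl
    rw [zero_dvd_iff] at h
    exact pow_ne_zero _ hb h
  rw [← Nat.factorization_le_iff_dvd hg (pow_ne_zero _ hb)]
  intro q
  by_cases hq : q ∣ g
  · by_cases hqp : q.Prime
    · have h1 : q ∣ b := hqp.dvd_of_dvd_pow (hq.trans h)
      have h2 : 1 ≤ b.factorization q := (Nat.Prime.dvd_iff_one_le_factorization hqp hb).1 h1
      rw [Nat.factorization_pow]
      have h3 : g.factorization q ≤ Nat.log 2 g := by
        apply Nat.le_log_of_pow_le (by norm_num)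
        calc 2 ^ g.factorization q ≤ q ^ g.factorization q := Nat.pow_le_pow_left hqp.two_le _
          _ ≤ g := Nat.ordProj_le q hg
      calc g.factorization q ≤ Nat.log 2 g * 1 := by omega
        _ ≤ Nat.log 2 g * b.factorization q := Nat.mul_le_mul_left _ h2
        _ = (Nat.log 2 g • b.factorization) q := by simp
    · rw [Nat.factorization_eq_zero_of_not_prime _ hqp]
      exact Nat.zero_le _
  · rw [Nat.factorization_eq_zero_of_not_dvd hq]
    exact Nat.zero_le _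

/-- The denominator of a `b`-integral element is bounded by the height. -/
lemma exists_den (K : Type) [Field K] [NumberField K] (b : ℕ) (hb : b ≠ 0) (x : K)
    (hx : x ∈ sInt K b) :
    ∃ e : ℕ, (e : ℝ) * Real.log 2 ≤ logHeight₁ x ∧ IsIntegral ℤ ((b : K) ^ e * x) := by
  obtain ⟨n, hn0, hn, hint⟩ := exists_nat_le_mulHeight₁ x
  obtain ⟨e', he'⟩ := hx
  have h1 : IsIntegral ℤ ((Nat.gcd n (b ^ e') : K) * x) := by
    apply isIntegral_gcd _ _ _ hint
    push_cast
    exact he'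
  set g := Nat.gcd n (b ^ e') with hg
  have hgn : g ≤ n := Nat.le_of_dvd (Nat.pos_of_ne_zero hn0) (Nat.gcd_dvd_left _ _)
  have hg0 : g ≠ 0 := Nat.gcd_ne_zero_left hn0
  obtain ⟨c, hc⟩ := dvd_pow_log b g e' hb (Nat.gcd_dvd_right _ _)
  refine ⟨Nat.log 2 g, ?_, ?_⟩
  · rw [logHeight₁_eq_log_mulHeight₁]
    rw [← Real.log_pow]
    apply Real.log_le_log (by positivity)
    refine le_trans ?_ hn
    have h2 : 2 ^ Nat.log 2 g ≤ g := Nat.pow_log_le_self 2 hg0
    exact_mod_cast h2.trans hgn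
  · have h2 : (b : K) ^ Nat.log 2 g * x = (c : K) * ((g : K) * x) := by
      have h3 : ((b ^ Nat.log 2 g : ℕ) : K) = ((g * c : ℕ) : K) := by rw [← hc]
      push_cast at h3
      rw [h3]; ring
    rw [h2]
    have h4 := isIntegral_nat_pow (K := K) c 1
    rw [pow_one] at h4
    exact h4.mul h1

/-- The archimedean sizes are bounded by the height. -/
lemma norm_le_exp (K : Type) [Field K] [NumberField K] (x : K) (σ : K →+* ℂ) :
    ‖σ x‖ ≤ Real.exp (logHeight₁ x) := by
  have h1 : Real.posLog (InfinitePlace.mk σ x) ≤ logHeight₁ x := by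
    rw [NumberField.logHeight₁_eq]
    have h2 : 0 ≤ ∑ᶠ v : FinitePlace K, Real.posLog (v x) :=
      finsum_nonneg fun v => Real.posLog_nonneg
    have h3 : (InfinitePlace.mk σ).mult * Real.posLog (InfinitePlace.mk σ x) ≤
        ∑ v : InfinitePlace K, v.mult * Real.posLog (v x) :=
      Finset.single_le_sum (f := fun v : InfinitePlace K => (v.mult : ℝ) * Real.posLog (v x))
        (fun v _ => mul_nonneg (Nat.cast_nonneg _) Real.posLog_nonneg) (Finset.mem_univ _)
    have h4 : (1 : ℝ) ≤ (InfinitePlace.mk σ).mult := by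
      exact_mod_cast InfinitePlace.mult_pos
    have h5 : 0 ≤ Real.posLog (InfinitePlace.mk σ x) := Real.posLog_nonneg
    nlinarith
  have h6 : InfinitePlace.mk σ x = ‖σ x‖ := InfinitePlace.apply σ x
  rw [h6] at h1
  rcases (norm_nonneg (σ x)).eq_or_lt with h | h
  · rw [← h]
    exact (Real.exp_pos _).le
  · rw [← Real.log_le_iff_le_exp h]
    refine le_trans ?_ h1
    rw [Real.posLog_apply]
    exact le_max_right _ _

end Pool.Agent.T2H18
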