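import Pool.Agent.T2H18.Exact
import Pool.Agent.T2H18.Forms

set_option autoImplicit false

/-! Split skew products over the translation, over the integers of the algebraic closure of
`ℚ_p`. -/

namespace Pool.Agent.T2H18

open MvPolynomial Pool.Agent.H936R2 Pool.Agent.R847.Gap

section alg

variable {O : Type} [CommRing O]

/-- The point with base coordinate `t` and fibre coordinates `v`. -/
def pnt {κ : Type} (t : O) (v : κ → O) : Option κ → O := fun o => o.elim t v

lemma mon_prod2 (z : Option (Fin 2) → O) (a : Option (Fin 2) →₀ ℕ) :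
    (∏ v ∈ a.support, z v ^ a v) = z none ^ a none *
      (z (some 0) ^ a (some 0) * z (some 1) ^ a (some 1)) := by
  have h : (∏ v ∈ a.support, z v ^ a v) = a.prod fun v e => z v ^ e := rfl
  rw [h, Finsupp.prod_fintype _ _ (fun _ => pow_zero _), Fintype.prod_option]
  simp only [Fin.prod_univ_two]

lemma eval_smul (P : MvPolynomial (Option (Fin 2)) O) (d : ℕ) (hP : ∀ a ∈ P.support, wt a = d)
    (t c : O) (v : Fin 2 → O) :
    eval (pnt t fun s => c * v s) P = c ^ d * eval (pnt t v) P := by
  rw [eval_eq, eval_eq, Finset.mul_sum]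
  apply Finset.sum_congr rfl
  intro a ha
  have h1 := hP a ha
  rw [mon_prod2, mon_prod2, ← h1]
  simp only [pnt, Option.elim_none, Option.elim_some, wt, mul_pow, pow_add]
  ring

lemma eval_sub_of_linear (P : MvPolynomial (Option (Fin 2)) O)
    (hP : ∀ a ∈ P.support, wt a = 1) (t : O) (v v' : Fin 2 → O) :
    eval (pnt t v) P - eval (pnt t v') P = eval (pnt t fun s => v s - v' s) P := by
  rw [eval_eq, eval_eq, eval_eq, ← Finset.sum_sub_distrib]
  apply Finset.sum_congr rfl
  intro a ha
  have h1 := hP a ha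
  rw [mon_prod2, mon_prod2, mon_prod2]
  simp only [pnt, Option.elim_none, Option.elim_some]
  unfold wt at h1
  have h2 : (a (some 0) = 1 ∧ a (some 1) = 0) ∨ (a (some 0) = 0 ∧ a (some 1) = 1) := by omega
  rcases h2 with ⟨h3, h4⟩ | ⟨h3, h4⟩
  · rw [h3, h4]; ring
  · rw [h3, h4]; ring

/-- The map `(x, v_i) ↦ (x + 1, h_i(x, v_i))`. -/
noncomputable def smap {ι : Type} (h : ι → Fin 2 → MvPolynomial (Option (Fin 2)) O) :
    Option (ι × Fin 2) → MvPolynomial (Option (ι × Fin 2)) O :=
  fun o => o.elim (X none + 1) fun q => rename (emb q.1) (h q.1 q.2)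

lemma pt_smap_none {ι : Type} (h : ι → Fin 2 → MvPolynomial (Option (Fin 2)) O)
    (z : Option (ι × Fin 2) → O) : pt (smap h) z none = z none + 1 := by
  simp [pt, smap]

lemma pt_smap_some {ι : Type} (h : ι → Fin 2 → MvPolynomial (Option (Fin 2)) O)
    (z : Option (ι × Fin 2) → O) (i : ι) (s : Fin 2) :
    pt (smap h) z (some (i, s)) = eval (pnt (z none) fun s => z (some (i, s))) (h i s) := by
  simp only [pt, smap, Option.elim_some]
  rw [eval_rename_emb]
  congr 2
  funext o
  cases o <;> rfl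

lemma iter_smap_none {ι : Type} (h : ι → Fin 2 → MvPolynomial (Option (Fin 2)) O)
    (z : Option (ι × Fin 2) → O) (n : ℕ) : (pt (smap h))^[n] z none = z none + n := by
  induction n with
  | zero => simp
  | succ n ih =>
    rw [Function.iterate_succ_apply', pt_smap_none, ih]
    push_cast
    ring

end alg

variable {ι : Type} [Fintype ι] [DecidableEq ι] (p : ℕ) [hp : Fact p.Prime]

theorem padic_core (h : ι → Fin 2 → MvPolynomial (Option (Fin 2)) (unitBall (PadicAlgCl p)))
    (d : ι → ℕ) (hh : ∀ i s, ∀ a ∈ (h i s).support, wt a = d i)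
    (hnorm : ∀ i (t : unitBall (PadicAlgCl p)) (u : Fin 2 → unitBall (PadicAlgCl p)),
      (∃ s, ‖(u s : PadicAlgCl p)‖ = 1) →
      ∃ s, ‖((eval (pnt t u) (h i s) : unitBall (PadicAlgCl p)) : PadicAlgCl p)‖ = 1)
    (a : Option (ι × Fin 2) → unitBall (PadicAlgCl p))
    (ha : ∀ i, ∃ s, ‖(a (some (i, s)) : PadicAlgCl p)‖ = 1) :
    ∃ (n0 k : ℕ) (z' : Option (ι × Fin 2) → unitBall (PadicAlgCl p)), 0 < k ∧
      (∀ n, (pt (smap h))^[n] z' none = (pt (smap h))^[n0 + n] a none) ∧
      (∀ i, d i = 1 → ∀ n s, (pt (smap h))^[n] z' (some (i, s)) =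
        (pt (smap h))^[n0 + n] a (some (i, s))) ∧
      (∀ r, Shadow p (fun m => aeval ((pt (smap h))^[n0 + r + k * m] a))
        (fun m => aeval ((pt (smap h))^[r + k * m] z'))) ∧
      (∀ r i, ∃ s, ∀ m, ‖((pt (smap h))^[n0 + r + k * m] a (some (i, s)) : PadicAlgCl p)‖ = 1 ∧
        ‖((pt (smap h))^[r + k * m] z' (some (i, s)) : PadicAlgCl p)‖ = 1) := by
  have hp0 := norm_p_pos p
  have hp1 := norm_p_lt p
  obtain ⟨n0, k, z', hk, horb⟩ := exists_orbits p (smap h) a
  -- the orbit is unimodular
  have huni : ∀ n i, ∃ s, ‖((pt (smap h))^[n] a (some (i, s)) : PadicAlgCl p)‖ = 1 := by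
    intro n
    induction n with
    | zero => exact ha
    | succ n ih =>
      intro i
      obtain ⟨s, hs⟩ := hnorm i ((pt (smap h))^[n] a none)
        (fun s => (pt (smap h))^[n] a (some (i, s))) (ih i)
      refine ⟨s, ?_⟩
      rw [Function.iterate_succ_apply', pt_smap_some]
      exact hs
  have hx : ∀ n, (pt (smap h))^[n] z' none = (pt (smap h))^[n0 + n] a none := by
    have h1 : z' none = a none + n0 := by
      have h2 : ∀ m, ‖((a none + n0 : unitBall (PadicAlgCl p)) : PadicAlgCl p) - z' none‖ ≤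
          ‖(p : PadicAlgCl p)‖ ^ (2 * m) := by
        intro m
        have h3 := (horb 0 (X none)).1 m
        rw [eval_X, eval_X, iter_smap_none, iter_smap_none] at h3
        push_cast at h3 ⊢
        have h4 : (a none : PadicAlgCl p) + ((n0 : PadicAlgCl p) + 0 + k * m) -
            (z' none + (0 + k * m)) = a none + n0 - z' none := by ring
        rw [h4] at h3
        exact h3
      by_contra hne
      have h3 : 0 < ‖((a none + n0 : unitBall (PadicAlgCl p)) : PadicAlgCl p) - z' none‖ := by
        rw [norm_pos_iff, sub_ne_zero]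
        intro h4
        exact hne (Subtype.ext h4.symm)
      obtain ⟨m, hm⟩ := exists_pow_lt_of_lt_one h3 hp1
      have h4 := h2 m
      have h5 : ‖(p : PadicAlgCl p)‖ ^ (2 * m) ≤ ‖(p : PadicAlgCl p)‖ ^ m :=
        pow_le_pow_of_le_one hp0.le hp1.le (by omega)
      linarith
    intro n
    rw [iter_smap_none, iter_smap_none, h1]
    push_cast
    ring
  refine ⟨n0, k, z', hk, hx, ?_, ?_, ?_⟩
  · -- the linear coordinates
    intro i hi
    set δ : ℕ → Fin 2 → unitBall (PadicAlgCl p) := fun n s =>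
      (pt (smap h))^[n] z' (some (i, s)) - (pt (smap h))^[n0 + n] a (some (i, s)) with hδ
    have hstep : ∀ n s, ∃ s', ‖(δ n s : PadicAlgCl p)‖ ≤ ‖(δ (n + 1) s' : PadicAlgCl p)‖ := by
      intro n s
      -- the larger of the two coordinates
      obtain ⟨s₀, hs₀⟩ : ∃ s₀, ∀ s, ‖(δ n s : PadicAlgCl p)‖ ≤ ‖(δ n s₀ : PadicAlgCl p)‖ := by
        rcases le_total ‖(δ n 0 : PadicAlgCl p)‖ ‖(δ n 1 : PadicAlgCl p)‖ with h1 | h1
        · refine ⟨1, fun s => ?_⟩
          fin_cases s
          · exact h1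
          · exact le_rfl
        · refine ⟨0, fun s => ?_⟩
          fin_cases s
          · exact le_rfl
          · exact h1
      by_cases h0 : δ n s₀ = 0
      · refine ⟨0, (hs₀ s).trans ?_⟩
        rw [h0]
        simp
      have h0' : (δ n s₀ : PadicAlgCl p) ≠ 0 := fun h1 => h0 (Subtype.ext h1)
      have hpos : 0 < ‖(δ n s₀ : PadicAlgCl p)‖ := norm_pos_iff.2 h0'
      let u : Fin 2 → unitBall (PadicAlgCl p) := fun s =>
        ⟨(δ n s : PadicAlgCl p) / δ n s₀, by
          rw [mem_unitBall, norm_div, div_le_one hpos]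
          exact hs₀ s⟩
      have hu : ∀ s, δ n s = δ n s₀ * u s := by
        intro s
        apply Subtype.ext
        push_cast
        simp only [u]
        field_simp
      obtain ⟨s', hs'⟩ := hnorm i ((pt (smap h))^[n0 + n] a none) u ⟨s₀, by
        simp only [u]
        rw [div_self h0', norm_one]⟩
      refine ⟨s', (hs₀ s).trans ?_⟩
      have h1 : δ (n + 1) s' = δ n s₀ ^ 1 *
          eval (pnt ((pt (smap h))^[n0 + n] a none) u) (h i s') := by
        have hd : ∀ b ∈ (h i s').support, wt b = 1 := fun b hb => (hh i s' b hb).trans hi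
        rw [← eval_smul (h i s') 1 hd]
        simp only [← hu]
        simp only [hδ]
        rw [← eval_sub_of_linear (h i s') hd]
        rw [Function.iterate_succ_apply', pt_smap_some, ← Nat.add_assoc,
          Function.iterate_succ_apply', pt_smap_some, hx n]
      rw [h1, pow_one]
      push_cast
      rw [norm_mul, hs', mul_one]
    have hmono : ∀ n l s, ∃ s', ‖(δ n s : PadicAlgCl p)‖ ≤ ‖(δ (n + l) s' : PadicAlgCl p)‖ := by
      intro n l
      induction l with
      | zero => intro s; exact ⟨s, le_rfl⟩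
      | succ l ih =>
        intro s
        obtain ⟨s', hs'⟩ := ih s
        obtain ⟨s'', hs''⟩ := hstep (n + l) s'
        exact ⟨s'', hs'.trans hs''⟩
    have hsmall : ∀ m s, ‖(δ (k * m) s : PadicAlgCl p)‖ ≤ ‖(p : PadicAlgCl p)‖ ^ (2 * m) := by
      intro m s
      have h1 := (horb 0 (X (some (i, s)))).1 m
      rw [eval_X, eval_X, norm_sub_rev] at h1
      simp only [hδ]
      push_cast
      have h2 : n0 + 0 + k * m = n0 + k * m := by ring
      have h3 : 0 + k * m = k * m := by ring
      rw [h2, h3] at h1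
      exact h1
    intro n s
    have hzero : (δ n s : PadicAlgCl p) = 0 := by
      by_contra hne
      obtain ⟨m, hm⟩ := exists_pow_lt_of_lt_one (norm_pos_iff.2 hne) hp1
      have hle : n ≤ k * (m + n) := by nlinarith
      obtain ⟨s', hs'⟩ := hmono n (k * (m + n) - n) s
      have h1 : n + (k * (m + n) - n) = k * (m + n) := by omega
      rw [h1] at hs'
      have h2 := hsmall (m + n) s'
      have h3 : ‖(p : PadicAlgCl p)‖ ^ (2 * (m + n)) ≤ ‖(p : PadicAlgCl p)‖ ^ m :=
        pow_le_pow_of_le_one hp0.le hp1.le (by omega)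
      linarith
    have h1 : δ n s = 0 := Subtype.ext hzero
    exact sub_eq_zero.1 h1
  · -- the shadows
    intro r
    refine ⟨fun P m => ?_, fun P hP m => ?_, fun P hP m => ?_, fun P j m hj hz => ?_⟩
    · exact (horb r P).1 m
    · exact (horb r P).2.1 hP m
    · exact (horb r P).2.2.1 hP m
    · exact (horb r P).2.2.2.1 j m hj hz
  · -- the charts
    intro r i
    obtain ⟨s, hs⟩ := huni (n0 + r) i
    have hlem : ∀ u : PadicAlgCl p, ‖u - (pt (smap h))^[n0 + r] a (some (i, s))‖ < 1 →
        ‖u‖ = 1 := by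
      intro u hu
      have h1 : ‖u - (pt (smap h))^[n0 + r] a (some (i, s))‖ ≠
          ‖((pt (smap h))^[n0 + r] a (some (i, s)) : PadicAlgCl p)‖ := by
        rw [hs]
        exact hu.ne
      have h2 := IsUltrametricDist.norm_add_eq_max_of_norm_ne_norm h1
      rw [sub_add_cancel, hs, max_eq_right hu.le] at h2
      exact h2
    refine ⟨s, fun m => ⟨hlem _ ?_, hlem _ ?_⟩⟩
    · have h1 := (horb r (X (some (i, s)))).2.2.2.2.1 m
      rwa [eval_X, eval_X] at h1
    · have h1 := (horb r (X (some (i, s)))).2.2.2.2.2 m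
      rwa [eval_X, eval_X] at h1

end Pool.Agent.T2H18
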