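import Pool.Agent.R847.Gap.Affine
import Pool.Agent.R847.QP.Lift

set_option autoImplicit false

/-! The gap principle for quasiprojective varieties. -/

namespace Pool.Agent.T2H18

open MvPolynomial Pool.Agent.H936R2 Pool.Agent.R847.Gap Pool.Agent.R847.QP

theorem qp_gap {N : ℕ} (D : Reg N) (C C' : Set (MvPolynomial (Fin (N + 1)) ℂ))
    (hC : ∀ F ∈ C, ∃ d : ℕ, F.IsHomogeneous d) (hC' : ∀ F ∈ C', ∃ d : ℕ, F.IsHomogeneous d)
    (hinv : ∀ p ∈ D.X, (∀ F ∈ C', eval p.rep F = 0) → ∀ F ∈ C', eval (D.Φ p).rep F = 0)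
    (α : Projectivization ℂ (Fin (N + 1) → ℂ)) (hα : α ∈ D.X) (hα' : ∀ F ∈ C', eval α.rep F = 0)
    (htr : ∀ p ∈ D.X, (∀ F ∈ C', eval p.rep F = 0) → ∀ m, 0 < m →
      ∃ t : ℕ, ∃ F ∈ C, eval (D.Φ^[m * t] p).rep F ≠ 0) :
    ExpSparse {n : ℕ | ∀ F ∈ C, eval (D.Φ^[n] α).rep F = 0} := by
  classical
  obtain ⟨κ, hκ1, hκ2, f, Y, M, hY1, hY2, hY3, hY4⟩ := D.exists_lift
  obtain ⟨z0, hz0, hover⟩ := hY4 α hα
  -- iterates
  have hXn : ∀ (p : Projectivization ℂ (Fin (N + 1) → ℂ)), p ∈ D.X → ∀ n, D.Φ^[n] p ∈ D.X := by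
    intro p hp n
    induction n with
    | zero => exact hp
    | succ n ih => rw [Function.iterate_succ_apply']; exact D.hΦ _ ih
  have hWn : ∀ (p : Projectivization ℂ (Fin (N + 1) → ℂ)), p ∈ D.X →
      (∀ F ∈ C', eval p.rep F = 0) → ∀ n, ∀ F ∈ C', eval (D.Φ^[n] p).rep F = 0 := by
    intro p hp hpW n
    induction n with
    | zero => exact hpW
    | succ n ih =>
      rw [Function.iterate_succ_apply']
      exact hinv _ (hXn p hp n) ih
  have hlift : ∀ (z : κ → ℂ), (∀ g ∈ Y, eval z g = 0) → ∀ p ∈ D.X,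
      Over (fun i j => z (M i j)) p → ∀ n, (∀ g ∈ Y, eval ((pt f)^[n] z) g = 0) ∧
        Over (fun i j => (pt f)^[n] z (M i j)) (D.Φ^[n] p) := by
    intro z hz p hp hov n
    induction n with
    | zero => exact ⟨hz, hov⟩
    | succ n ih =>
      rw [Function.iterate_succ_apply', Function.iterate_succ_apply']
      exact ⟨hY2 _ ih.1, hY3 _ ih.1 _ (hXn p hp n) ih.2⟩
  -- the equations
  let col : Fin (N + 1) → MvPolynomial (Fin (N + 1)) ℂ → MvPolynomial κ ℂ :=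
    fun j F => rename (fun i => M i j) F
  have hcol : ∀ (z : κ → ℂ) j F, eval z (col j F) = eval (fun i => z (M i j)) F := by
    intro z j F
    simp only [col]
    rw [eval_rename]
    rfl
  have hval : ∀ (B : Set (MvPolynomial (Fin (N + 1)) ℂ)), (∀ F ∈ B, ∃ d : ℕ, F.IsHomogeneous d) →
      ∀ (z : κ → ℂ) (p : Projectivization ℂ (Fin (N + 1) → ℂ)), Over (fun i j => z (M i j)) p →
      ((∀ F ∈ B, ∀ j, eval z (col j F) = 0) ↔ ∀ F ∈ B, eval p.rep F = 0) := by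
    intro B hB z p hov
    constructor
    · intro h F hF
      obtain ⟨e, he⟩ := hB F hF
      by_contra hne
      obtain ⟨j, hj⟩ := (hov.eval F e he).2 hne
      apply hj
      have := h F hF j
      rwa [hcol] at this
    · intro h F hF j
      obtain ⟨e, he⟩ := hB F hF
      rw [hcol]
      exact (hov.eval F e he).1 (h F hF) j
  let S : Set (MvPolynomial κ ℂ) := Y ∪ {g | ∃ F ∈ C, ∃ j, g = col j F} ∪
    {g | ∃ F ∈ C', ∃ j, g = col j F}
  have hS : ∀ z : κ → ℂ, (∀ g ∈ S, eval z g = 0) ↔ (∀ g ∈ Y, eval z g = 0) ∧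
      (∀ F ∈ C, ∀ j, eval z (col j F) = 0) ∧ ∀ F ∈ C', ∀ j, eval z (col j F) = 0 := by
    intro z
    constructor
    · intro h
      exact ⟨fun g hg => h g (Or.inl (Or.inl hg)),
        fun F hF j => h _ (Or.inl (Or.inr ⟨F, hF, j, rfl⟩)),
        fun F hF j => h _ (Or.inr ⟨F, hF, j, rfl⟩)⟩
    · rintro ⟨h1, h2, h3⟩ g ((hg | ⟨F, hF, j, rfl⟩) | ⟨F, hF, j, rfl⟩)
      · exact h1 g hg
      · exact h2 F hF j
      · exact h3 F hF j
  have hnotr : ∀ z : κ → ℂ, ¬ ∃ m, 0 < m ∧ ∀ t : ℕ, ∀ g ∈ S, eval ((pt f)^[m * t] z) g = 0 := by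
    rintro z ⟨m, hm, hz⟩
    have h0 := (hS _).1 (hz 0)
    rw [Nat.mul_zero, Function.iterate_zero, id_eq] at h0
    obtain ⟨p, hp, hov⟩ := hY1 z h0.1
    have hpW := (hval C' hC' z p hov).1 h0.2.2
    obtain ⟨t, F, hF, hne⟩ := htr p hp hpW m hm
    have h1 := (hS _).1 (hz t)
    have h2 := (hlift z h0.1 p hp hov (m * t)).2
    exact hne ((hval C hC _ _ h2).1 h1.2.1 F hF)
  have hret : ∀ n, (∀ g ∈ S, eval ((pt f)^[n] z0) g = 0) ↔ ∀ F ∈ C, eval (D.Φ^[n] α).rep F = 0 := by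
    intro n
    obtain ⟨h1, h2⟩ := hlift z0 hz0 α hα hover n
    rw [hS, hval C hC _ _ h2, hval C' hC' _ _ h2]
    exact ⟨fun h => h.2.1, fun h => ⟨h1, h, hWn α hα hα' n⟩⟩
  have hmain := affine_gap f S ∅ Set.finite_empty (fun z hz => absurd hz (hnotr z)) z0
  simp only [hret] at hmain
  rcases hmain with ⟨T, hT⟩ | h
  · have hq : ∀ q ∈ T, q.1 = 0 := by
      intro q hq
      by_contra hne
      apply hnotr ((pt f)^[q.2] z0)
      refine ⟨q.1, Nat.pos_of_ne_zero hne, fun t => ?_⟩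
      rw [← Function.iterate_add_apply, hret]
      have : q.1 * t + q.2 ∈ {n : ℕ | ∃ q ∈ T, ∃ m : ℕ, n = q.1 * m + q.2} := ⟨q, hq, t, rfl⟩
      rw [← hT] at this
      exact this
    apply ExpSparse.finite
    rw [hT]
    apply (T.image fun q => q.2).finite_toSet.subset
    rintro n ⟨q, hqT, m, rfl⟩
    rw [hq q hqT, Nat.zero_mul, Nat.zero_add]
    rw [Finset.mem_coe, Finset.mem_image]
    exact ⟨q, hqT, rfl⟩
  · exact h

end Pool.Agent.T2H18
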