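import Pool.Agent.T2H18.Liou

set_option autoImplicit false

/-! An algebraic relation over `K(n)` for a sequence in a number field `K` with logarithmic growth
of the height and with highly divisible differences. -/

namespace Pool.Agent.T2H18

open NumberField Height Pool.Agent.R847.Gap Pool.Agent.H936R2

/-- Siegel's lemma for twice as many unknowns as equations. -/
theorem siegel (K : Type) [Field K] [NumberField K] : ∃ c : ℝ, ∀ (α β : Type) [Fintype α]
    [Fintype β] (a : Matrix α β (𝓞 K)), a ≠ 0 → ∀ A : ℝ,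
    (∀ k l, house ((algebraMap (𝓞 K) K) (a k l)) ≤ A) → 0 < Fintype.card α →
    Fintype.card β = 2 * Fintype.card α →
    ∃ ξ : β → 𝓞 K, ξ ≠ 0 ∧ Matrix.mulVec a ξ = 0 ∧
      ∀ l, house (ξ l).1 ≤ c * (c * (Fintype.card β) * A) := by
  classical
  obtain ⟨c, hc⟩ : ∃ c : ℝ, ∀ (α β : Type) (a : Matrix α β (𝓞 K)), a ≠ 0 →
      ∀ (p q : ℕ), 0 < p → p < q → ∀ [Fintype β], Fintype.card β = q → ∀ (A : ℝ),
      (∀ k l, house ((algebraMap (𝓞 K) K) (a k l)) ≤ A) → ∀ [Fintype α], Fintype.card α = p →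
      ∃ ξ : β → 𝓞 K, ξ ≠ 0 ∧ a.mulVec ξ = 0 ∧
        ∀ l, house (ξ l).1 ≤ c * (c * q * A) ^ ((p : ℝ) / (q - p)) :=
    ⟨_, fun α β a ha p q h0 hpq _ hβ A hA _ hα =>
      NumberField.house.exists_ne_zero_int_vec_house_le K a ha h0 hpq hβ hA hα⟩
  refine ⟨c, fun α β _ _ a ha A hA h0 hcard => ?_⟩
  obtain ⟨ξ, h1, h2, h3⟩ := hc α β a ha (Fintype.card α) (Fintype.card β) h0 (by omega) rfl A hA rfl
  refine ⟨ξ, h1, h2, fun l => ?_⟩
  have h4 : (((Fintype.card α : ℕ) : ℝ) /
      (((Fintype.card β : ℕ) : ℝ) - ((Fintype.card α : ℕ) : ℝ))) = 1 := by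
    rw [hcard]
    push_cast
    have : (Fintype.card α : ℝ) ≠ 0 := by positivity
    have h5 : (2 * (Fintype.card α : ℝ) - Fintype.card α) = Fintype.card α := by ring
    rw [h5, div_self this]
  have h5 := h3 l
  rw [h4, Real.rpow_one] at h5
  exact h5

lemma house_le {K : Type} [Field K] [NumberField K] {x : K} {B : ℝ} (hB0 : 0 ≤ B)
    (hB : ∀ σ : K →+* ℂ, ‖σ x‖ ≤ B) : house x ≤ B := by
  rw [house, pi_norm_le_iff_of_nonneg hB0]
  intro σ
  exact hB σ

/-- The denominators and the conjugates of an element are bounded by the height. -/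
lemma exists_den_conj {K : Type} [Field K] [NumberField K] (w : K) (h : ℝ)
    (hw : logHeight₁ w ≤ h) : ∃ n : ℕ, n ≠ 0 ∧ (n : ℝ) ≤ Real.exp h ∧
      IsIntegral ℤ ((n : K) * w) ∧ ∀ σ : K →+* ℂ, ‖σ w‖ ≤ Real.exp h := by
  obtain ⟨n, hn0, hn, hint⟩ := exists_nat_le_mulHeight₁ w
  refine ⟨n, hn0, hn.trans ?_, hint, fun σ => (norm_le_exp K w σ).trans (Real.exp_le_exp.2 hw)⟩
  rw [← Real.log_le_iff_le_exp (mulHeight₁_pos w)]
  exact hw

/-- A growth comparison. -/
lemma log_small (A lam : ℝ) (hA : 0 ≤ A) (hlam : 0 < lam) :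
    ∃ D : ℕ, 0 < D ∧ ∀ m : ℕ, 2 * D ^ 2 ≤ m →
      A * (D * Real.log (m + 2)) < lam * (m - 1) := by
  have h1 := (isLittleO_log_rpow_atTop (show (0 : ℝ) < 1 / 2 by norm_num)).def
    (show (0 : ℝ) < lam / (4 * (A + 1)) by positivity)
  obtain ⟨X, hX⟩ := Filter.eventually_atTop.1 h1
  obtain ⟨D, hD⟩ := exists_nat_ge (max X 2)
  refine ⟨D, ?_, fun m hm => ?_⟩
  · have : (2 : ℝ) ≤ D := (le_max_right _ _).trans hD
    have h2 : 2 ≤ D := by exact_mod_cast this
    omega
  have hD2 : (2 : ℝ) ≤ D := (le_max_right _ _).trans hD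
  have hDX : X ≤ D := (le_max_left _ _).trans hD
  have hmR : 2 * (D : ℝ) ^ 2 ≤ m := by exact_mod_cast hm
  have hDm : (D : ℝ) ≤ m := by nlinarith
  have h2 := hX (m + 2) (by linarith)
  have hm0 : (0 : ℝ) ≤ (m : ℝ) + 2 := by positivity
  have hlog : 0 ≤ Real.log ((m : ℝ) + 2) := Real.log_nonneg (by linarith)
  rw [Real.norm_of_nonneg hlog, Real.norm_of_nonneg (Real.rpow_nonneg hm0 _),
    ← Real.sqrt_eq_rpow] at h2
  have h3 : (D : ℝ) ≤ Real.sqrt (m + 2) := by
    apply Real.le_sqrt_of_sq_le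
    nlinarith
  have h4 : (D : ℝ) * Real.log (m + 2) ≤ lam / (4 * (A + 1)) * (m + 2) := by
    calc (D : ℝ) * Real.log (m + 2) ≤ Real.sqrt (m + 2) *
          (lam / (4 * (A + 1)) * Real.sqrt (m + 2)) :=
          mul_le_mul h3 h2 hlog (Real.sqrt_nonneg _)
      _ = lam / (4 * (A + 1)) * (Real.sqrt (m + 2) * Real.sqrt (m + 2)) := by ring
      _ = _ := by rw [Real.mul_self_sqrt hm0]
  have h5 : A * (lam / (4 * (A + 1)) * (m + 2)) ≤ lam * ((m + 2) / 4) := by
    have h6 : A / (A + 1) ≤ 1 := by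
      rw [div_le_one (by linarith)]
      linarith
    have h7 : A * (lam / (4 * (A + 1)) * (m + 2)) = A / (A + 1) * (lam * ((m + 2) / 4)) := by
      field_simp
    rw [h7]
    calc _ ≤ 1 * (lam * (((m : ℝ) + 2) / 4)) := mul_le_mul_of_nonneg_right h6 (by positivity)
      _ = _ := one_mul _
  have h8 : lam * (((m : ℝ) + 2) / 4) < lam * (m - 1) := by
    apply mul_lt_mul_of_pos_left _ hlam
    nlinarith
  calc A * (D * Real.log (m + 2)) ≤ A * (lam / (4 * (A + 1)) * (m + 2)) :=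
        mul_le_mul_of_nonneg_left h4 hA
    _ ≤ _ := h5
    _ < _ := h8

theorem relation (K : Type) [Field K] [NumberField K] {p : ℕ} [hp : Fact p.Prime]
    (τ : K →+* PadicAlgCl p) (t w : ℕ → K) (C : ℝ) (q : ℕ) (hq : q ≠ 0)
    (ht : ∀ m, IsIntegral ℤ ((q : K) * t m))
    (htn : ∀ m (σ : K →+* ℂ), ‖σ (t m)‖ ≤ Real.exp (C * Real.log (m + 2)))
    (hw : ∀ m : ℕ, logHeight₁ (w m) ≤ C * Real.log (m + 2))
    (hwin : ∀ (D₁ D₂ : ℕ) (c : ℕ → ℕ → K), (∀ a b, IsIntegral ℤ (c a b)) →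
      ∀ j m, 2 * j ≤ m →
      (∀ m', m - j ≤ m' → m' < m → pval D₁ D₂ c (t m') (w m') = 0) →
      ‖τ (pval D₁ D₂ c (t m) (w m))‖ ≤ ‖(p : PadicAlgCl p)‖ ^ (2 * j)) :
    ∃ (D₁ D₂ : ℕ) (c : ℕ → ℕ → K), (∀ a b, IsIntegral ℤ (c a b)) ∧
      (∃ a < D₁, ∃ b < D₂, c a b ≠ 0) ∧ ∃ M, ∀ m, M ≤ m → pval D₁ D₂ c (t m) (w m) = 0 := by
  classical
  have hp0 := norm_p_pos p
  have hp1 := norm_p_lt p
  set lam : ℝ := -Real.log ‖(p : PadicAlgCl p)‖ with hlam
  have hlampos : 0 < lam := by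
    have := Real.log_neg hp0 hp1
    linarith
  have hlog2 : 0 < Real.log 2 := Real.log_pos one_lt_two
  have hC : 0 ≤ C := by
    have h1 := (zero_le_logHeight₁ (w 0)).trans (hw 0)
    simp only [CharP.cast_eq_zero, zero_add] at h1
    exact nonneg_of_mul_nonneg_left h1 hlog2
  obtain ⟨c₁, hc₁⟩ := siegel K
  set N := Module.finrank ℚ K with hN
  set ell : ℕ → ℝ := fun m => Real.log (m + 2) with hell
  have hell2 : ∀ m, Real.log 2 ≤ ell m := by
    intro m
    apply Real.log_le_log (by norm_num)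
    have : (0 : ℝ) ≤ m := Nat.cast_nonneg _
    linarith
  have hell0 : ∀ m, 0 ≤ ell m := fun m => hlog2.le.trans (hell2 m)
  have hellmono : ∀ m m', m ≤ m' → ell m ≤ ell m' := by
    intro m m' h
    apply Real.log_le_log (by positivity)
    have : (m : ℝ) ≤ m' := by exact_mod_cast h
    linarith
  set B₀ : ℝ := Real.log q / Real.log 2 with hB₀
  have hlogq : 0 ≤ Real.log q := Real.log_natCast_nonneg q
  have hB₀0 : 0 ≤ B₀ := by positivity
  have hqle : ∀ m, Real.log q ≤ B₀ * ell m := by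
    intro m
    calc Real.log q = B₀ * Real.log 2 := by rw [hB₀]; field_simp
      _ ≤ B₀ * ell m := mul_le_mul_of_nonneg_left (hell2 m) hB₀0
  have hqpos : (0 : ℝ) < q := by exact_mod_cast Nat.pos_of_ne_zero hq
  have hq1 : (1 : ℝ) ≤ q := by exact_mod_cast Nat.pos_of_ne_zero hq
  have hqexp : ∀ m, (q : ℝ) ≤ Real.exp (B₀ * ell m) := by
    intro m
    rw [← Real.log_le_iff_le_exp hqpos]
    exact hqle m
  set C₁ : ℝ := 2 * B₀ + 4 * C with hC₁
  set C₂ : ℝ := C₁ + (c₁ ^ 2 / Real.log 2 + 2) + (2 * B₀ + 4 * C) with hC₂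
  have hC₁0 : 0 ≤ C₁ := by positivity
  have hC₂0 : 0 ≤ C₂ := by positivity
  obtain ⟨D, hD0, hD⟩ := log_small (N * C₂) lam (by positivity) hlampos
  choose n hn0 hn hnint hnconj using fun m => exists_den_conj (w m) _ (hw m)
  have hcoef : ∀ (m : ℕ) (a b : ℕ), a < 2 * D → b < D →
      IsIntegral ℤ ((q : K) ^ (2 * D) * (n m : K) ^ D * (t m ^ a * w m ^ b)) := by
    intro m a b ha hb
    have h1 : (q : K) ^ (2 * D) * (n m : K) ^ D * (t m ^ a * w m ^ b) =
        ((q : K) ^ (2 * D - a) * (q * t m) ^ a) * ((n m : K) ^ (D - b) * (n m * w m) ^ b) := by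
      have h2 : (q : K) ^ (2 * D) = q ^ (2 * D - a) * q ^ a := by
        rw [← pow_add]; congr 1; omega
      have h3 : (n m : K) ^ D = (n m : K) ^ (D - b) * (n m : K) ^ b := by
        rw [← pow_add]; congr 1; omega
      rw [h2, h3]
      ring
    rw [h1]
    exact (((isIntegral_natCast' q).pow _).mul ((ht m).pow _)).mul
      (((isIntegral_natCast' (n m)).pow _).mul ((hnint m).pow _))
  have hnormcoef : ∀ (m : ℕ) (a b : ℕ), a < 2 * D → b < D → ∀ σ : K →+* ℂ,
      ‖σ ((q : K) ^ (2 * D) * (n m : K) ^ D * (t m ^ a * w m ^ b))‖ ≤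
        Real.exp (C₁ * (D * ell m)) := by
    intro m a b ha hb σ
    have hE1 : (1 : ℝ) ≤ Real.exp (C * ell m) := Real.one_le_exp (mul_nonneg hC (hell0 m))
    have h1 : ‖σ (t m)‖ ^ a ≤ Real.exp (C * ell m) ^ (2 * D) :=
      (pow_le_pow_left₀ (norm_nonneg _) (htn m σ) a).trans (pow_le_pow_right₀ hE1 ha.le)
    have h2 : ‖σ (w m)‖ ^ b ≤ Real.exp (C * ell m) ^ D :=
      (pow_le_pow_left₀ (norm_nonneg _) (hnconj m σ) b).trans (pow_le_pow_right₀ hE1 hb.le)
    have h3 : (q : ℝ) ^ (2 * D) ≤ Real.exp (B₀ * ell m) ^ (2 * D) :=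
      pow_le_pow_left₀ hqpos.le (hqexp m) _
    have h4 : (n m : ℝ) ^ D ≤ Real.exp (C * ell m) ^ D :=
      pow_le_pow_left₀ (Nat.cast_nonneg _) (hn m) _
    simp only [map_mul, map_pow, map_natCast, norm_mul, norm_pow, Complex.norm_natCast]
    calc (q : ℝ) ^ (2 * D) * (n m : ℝ) ^ D * (‖σ (t m)‖ ^ a * ‖σ (w m)‖ ^ b) ≤
          Real.exp (B₀ * ell m) ^ (2 * D) * Real.exp (C * ell m) ^ D *
            (Real.exp (C * ell m) ^ (2 * D) * Real.exp (C * ell m) ^ D) := by
          apply mul_le_mul (mul_le_mul h3 h4 (by positivity) (by positivity))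
            (mul_le_mul h1 h2 (by positivity) (by positivity)) (by positivity) (by positivity)
      _ = Real.exp (C₁ * (D * ell m)) := by
          simp only [← Real.exp_nat_mul, ← Real.exp_add]
          congr 1
          rw [hC₁]
          push_cast
          ring
  -- the matrix
  let E : Matrix (Fin (D ^ 2)) (Fin (2 * D) × Fin D) (𝓞 K) := fun i ab =>
    ⟨(q : K) ^ (2 * D) * (n (D ^ 2 + i) : K) ^ D *
      (t (D ^ 2 + i) ^ (ab.1 : ℕ) * w (D ^ 2 + i) ^ (ab.2 : ℕ)),
      hcoef _ _ _ ab.1.2 ab.2.2⟩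
  have hqK : (q : K) ≠ 0 := Nat.cast_ne_zero.2 hq
  have hnK : ∀ m, (n m : K) ≠ 0 := fun m => Nat.cast_ne_zero.2 (hn0 m)
  have hD2 : 0 < D ^ 2 := by positivity
  have hE0 : E ≠ 0 := by
    intro h
    have h1 := congrFun (congrFun h ⟨0, hD2⟩) (⟨0, by omega⟩, ⟨0, hD0⟩)
    have h2 := congrArg (fun x : 𝓞 K => (x : K)) h1
    simp only [E, Matrix.zero_apply, pow_zero, mul_one] at h2
    have h3 : (q : K) ^ (2 * D) * (n (D ^ 2 + 0) : K) ^ D = 0 := h2
    exact mul_ne_zero (pow_ne_zero _ hqK) (pow_ne_zero _ (hnK _)) h3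
  obtain ⟨ξ, hξ0, hξ1, hξ2⟩ := hc₁ (Fin (D ^ 2)) (Fin (2 * D) × Fin D) E hE0
    (Real.exp (C₁ * (D * ell (2 * D ^ 2)))) (by
      intro i ab
      apply house_le (Real.exp_pos _).le
      intro σ
      refine (hnormcoef (D ^ 2 + i) ab.1 ab.2 ab.1.2 ab.2.2 σ).trans ?_
      apply Real.exp_le_exp.2
      apply mul_le_mul_of_nonneg_left _ hC₁0
      apply mul_le_mul_of_nonneg_left _ (Nat.cast_nonneg _)
      apply hellmono
      have := i.2
      omega) (by rw [Fintype.card_fin]; exact hD2) (by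
      rw [Fintype.card_prod, Fintype.card_fin, Fintype.card_fin, Fintype.card_fin]
      ring)
  let c : ℕ → ℕ → K := fun a b =>
    if h : a < 2 * D ∧ b < D then ((ξ (⟨a, h.1⟩, ⟨b, h.2⟩) : 𝓞 K) : K) else 0
  have hcint : ∀ a b, IsIntegral ℤ (c a b) := by
    intro a b
    simp only [c]
    split_ifs with h
    · exact RingOfIntegers.isIntegral_coe _
    · exact isIntegral_zero
  have hcard : ((Fintype.card (Fin (2 * D) × Fin D) : ℕ) : ℝ) = 2 * (D : ℝ) ^ 2 := by
    rw [Fintype.card_prod, Fintype.card_fin, Fintype.card_fin]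
    push_cast
    ring
  set Aξ : ℝ := c₁ * (c₁ * (2 * (D : ℝ) ^ 2) * Real.exp (C₁ * (D * ell (2 * D ^ 2)))) with hAξ
  have hAξ0 : 0 ≤ Aξ := by
    have : Aξ = c₁ ^ 2 * (2 * (D : ℝ) ^ 2) * Real.exp (C₁ * (D * ell (2 * D ^ 2))) := by
      rw [hAξ]; ring
    rw [this]
    positivity
  have hcnorm : ∀ a b (σ : K →+* ℂ), ‖σ (c a b)‖ ≤ Aξ := by
    intro a b σ
    simp only [c]
    split_ifs with h
    · have h1 := hξ2 (⟨a, h.1⟩, ⟨b, h.2⟩)
      rw [hcard] at h1
      exact (norm_embedding_le_house _ σ).trans h1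
    · rw [map_zero, norm_zero]
      exact hAξ0
  -- the first zeros
  have hfirst : ∀ m, D ^ 2 ≤ m → m < 2 * D ^ 2 → pval (2 * D) D c (t m) (w m) = 0 := by
    intro m hm hm'
    have h1 := congrFun hξ1 ⟨m - D ^ 2, by omega⟩
    have hidx : D ^ 2 + (m - D ^ 2) = m := by omega
    have h2 := congrArg (algebraMap (𝓞 K) K) h1
    rw [Matrix.mulVec, dotProduct, map_sum, Pi.zero_apply, map_zero] at h2
    have h3 : (q : K) ^ (2 * D) * (n m : K) ^ D * pval (2 * D) D c (t m) (w m) = 0 := by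
      rw [← h2, pval, Finset.mul_sum, Fintype.sum_prod_type, ← Fin.sum_univ_eq_sum_range
        (fun a => (q : K) ^ (2 * D) * (n m : K) ^ D *
          ∑ b ∈ Finset.range D, c a b * t m ^ a * w m ^ b)]
      apply Finset.sum_congr rfl
      intro a _
      rw [Finset.mul_sum, ← Fin.sum_univ_eq_sum_range (fun b => (q : K) ^ (2 * D) *
        (n m : K) ^ D * (c a b * t m ^ (a : ℕ) * w m ^ b))]
      apply Finset.sum_congr rfl
      intro b _
      have h4 : (algebraMap (𝓞 K) K) (E ⟨m - D ^ 2, by omega⟩ (a, b) * ξ (a, b)) =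
          (q : K) ^ (2 * D) * (n (D ^ 2 + (m - D ^ 2)) : K) ^ D *
          (t (D ^ 2 + (m - D ^ 2)) ^ (a : ℕ) * w (D ^ 2 + (m - D ^ 2)) ^ (b : ℕ)) *
          ((ξ (a, b) : 𝓞 K) : K) := by
        rw [map_mul]
        rfl
      rw [h4, hidx]
      have h5 : c a b = ((ξ (a, b) : 𝓞 K) : K) := by
        simp only [c]
        rw [dif_pos ⟨a.2, b.2⟩]
      rw [h5]
      ring
    exact (mul_eq_zero.1 h3).resolve_left
      (mul_ne_zero (pow_ne_zero _ hqK) (pow_ne_zero _ (hnK _)))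
  have hall : ∀ m, D ^ 2 ≤ m → pval (2 * D) D c (t m) (w m) = 0 := by
    intro m
    induction m using Nat.strong_induction_on with
    | _ m ih =>
      intro hm
      by_cases hm' : m < 2 * D ^ 2
      · exact hfirst m hm hm'
      push Not at hm'
      by_contra hne
      have h1 := hwin (2 * D) D c hcint (m / 2) m (by omega) (by
        intro m' h1 h2
        exact ih m' h2 (by omega))
      set x : K := (q : K) ^ (2 * D) * (n m : K) ^ D * pval (2 * D) D c (t m) (w m) with hx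
      have hx0 : x ≠ 0 := mul_ne_zero (mul_ne_zero (pow_ne_zero _ hqK) (pow_ne_zero _ (hnK _))) hne
      have hxint : IsIntegral ℤ x := pval_integral _ _ _ _ _ _ _ hcint (ht m) (hnint m)
      have hmR : 2 * (D : ℝ) ^ 2 ≤ m := by exact_mod_cast hm'
      have hD1 : (1 : ℝ) ≤ D := by exact_mod_cast hD0
      have hDell : ell m ≤ D * ell m := by nlinarith [hell0 m]
      have hB : ∀ σ : K →+* ℂ, ‖σ x‖ ≤ Real.exp (C₂ * (D * ell m)) := by
        intro σ
        have hE1 : (1 : ℝ) ≤ Real.exp (C * ell m) := Real.one_le_exp (mul_nonneg hC (hell0 m))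
        have h2 := pval_norm_le σ (2 * D) D c (t m) (w m) Aξ _ _ (fun a b => hcnorm a b σ) hE1 hE1
          (htn m σ) (hnconj m σ)
        have h3 : (q : ℝ) ^ (2 * D) ≤ Real.exp (B₀ * ell m) ^ (2 * D) :=
          pow_le_pow_left₀ hqpos.le (hqexp m) _
        have h4 : (n m : ℝ) ^ D ≤ Real.exp (C * ell m) ^ D :=
          pow_le_pow_left₀ (Nat.cast_nonneg _) (hn m) _
        have h5 : Aξ ≤ Real.exp ((c₁ ^ 2 / Real.log 2) * (D * ell m)) *
            Real.exp (D * ell m) * Real.exp (C₁ * (D * ell m)) := by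
          have h6 : Aξ = c₁ ^ 2 * (2 * (D : ℝ) ^ 2) * Real.exp (C₁ * (D * ell (2 * D ^ 2))) := by
            rw [hAξ]; ring
          rw [h6]
          have h7 : c₁ ^ 2 ≤ Real.exp ((c₁ ^ 2 / Real.log 2) * (D * ell m)) := by
            have h8 : c₁ ^ 2 ≤ (c₁ ^ 2 / Real.log 2) * (D * ell m) := by
              calc c₁ ^ 2 = (c₁ ^ 2 / Real.log 2) * Real.log 2 := by field_simp
                _ ≤ (c₁ ^ 2 / Real.log 2) * (D * ell m) := by
                  apply mul_le_mul_of_nonneg_left _ (by positivity)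
                  exact (hell2 m).trans hDell
            have h9 := Real.add_one_le_exp (c₁ ^ 2)
            calc c₁ ^ 2 ≤ Real.exp (c₁ ^ 2) := by linarith
              _ ≤ _ := Real.exp_le_exp.2 h8
          have h8 : 2 * (D : ℝ) ^ 2 ≤ Real.exp (D * ell m) := by
            calc 2 * (D : ℝ) ^ 2 ≤ (m : ℝ) + 2 := by linarith
              _ = Real.exp (ell m) := by
                rw [hell]
                exact (Real.exp_log (by positivity)).symm
              _ ≤ _ := Real.exp_le_exp.2 hDell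
          have h9 : Real.exp (C₁ * (D * ell (2 * D ^ 2))) ≤ Real.exp (C₁ * (D * ell m)) := by
            apply Real.exp_le_exp.2
            apply mul_le_mul_of_nonneg_left _ hC₁0
            apply mul_le_mul_of_nonneg_left _ (Nat.cast_nonneg _)
            exact hellmono _ _ hm'
          exact mul_le_mul (mul_le_mul h7 h8 (by positivity) (by positivity)) h9 (by positivity)
            (by positivity)
        have h10 : (((2 * D : ℕ) : ℝ) * D) ≤ Real.exp (D * ell m) := by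
          calc (((2 * D : ℕ) : ℝ) * D) = 2 * (D : ℝ) ^ 2 := by push_cast; ring
            _ ≤ (m : ℝ) + 2 := by linarith
            _ = Real.exp (ell m) := by
              rw [hell]
              exact (Real.exp_log (by positivity)).symm
            _ ≤ _ := Real.exp_le_exp.2 hDell
        rw [hx]
        simp only [map_mul, map_pow, map_natCast, norm_mul, norm_pow, Complex.norm_natCast]
        calc (q : ℝ) ^ (2 * D) * (n m : ℝ) ^ D * ‖σ (pval (2 * D) D c (t m) (w m))‖ ≤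
            (Real.exp (B₀ * ell m) ^ (2 * D) * Real.exp (C * ell m) ^ D) *
            (Real.exp (D * ell m) * (Real.exp ((c₁ ^ 2 / Real.log 2) * (D * ell m)) *
            Real.exp (D * ell m) * Real.exp (C₁ * (D * ell m)) *
              Real.exp (C * ell m) ^ (2 * D) * Real.exp (C * ell m) ^ D)) := by
              apply mul_le_mul (mul_le_mul h3 h4 (by positivity) (by positivity)) _
                (norm_nonneg _) (by positivity)
              refine h2.trans ?_
              apply mul_le_mul h10 _ (by positivity) (by positivity)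
              apply mul_le_mul_of_nonneg_right _ (by positivity)
              exact mul_le_mul_of_nonneg_right h5 (by positivity)
          _ = Real.exp (C₂ * (D * ell m)) := by
              simp only [← Real.exp_nat_mul, ← Real.exp_add]
              congr 1
              rw [hC₂]
              push_cast
              ring
      have h2 := liouville K τ hxint hx0 hB
      have h3 : ‖τ x‖ ≤ ‖(p : PadicAlgCl p)‖ ^ (2 * (m / 2)) := by
        rw [hx, map_mul, norm_mul]
        have h4 : ‖τ ((q : K) ^ (2 * D) * (n m : K) ^ D)‖ ≤ 1 :=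
          norm_integral_le_one τ (((isIntegral_natCast' q).pow _).mul
            ((isIntegral_natCast' _).pow _))
        calc _ ≤ 1 * ‖τ (pval (2 * D) D c (t m) (w m))‖ :=
              mul_le_mul_of_nonneg_right h4 (norm_nonneg _)
          _ = _ := one_mul _
          _ ≤ _ := h1
      have h4 : ‖(p : PadicAlgCl p)‖ ^ (2 * (m / 2)) = Real.exp (-(lam * ((2 * (m / 2) : ℕ) : ℝ))) := by
        have h5 : -(lam * ((2 * (m / 2) : ℕ) : ℝ)) =
            ((2 * (m / 2) : ℕ) : ℝ) * Real.log ‖(p : PadicAlgCl p)‖ := by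
          rw [hlam]; ring
        rw [h5, Real.exp_nat_mul, Real.exp_log hp0]
      have h5 : (1 : ℝ) ≤ Real.exp (-(lam * ((2 * (m / 2) : ℕ) : ℝ))) *
          Real.exp (C₂ * (D * ell m)) ^ N := by
        refine h2.trans ?_
        apply mul_le_mul_of_nonneg_right _ (by positivity)
        rw [← h4]
        exact h3
      rw [← Real.exp_nat_mul, ← Real.exp_add] at h5
      have h6 : 0 ≤ -(lam * ((2 * (m / 2) : ℕ) : ℝ)) + (N : ℝ) * (C₂ * (D * ell m)) := by
        by_contra hlt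
        push Not at hlt
        have := Real.exp_lt_exp.2 hlt
        rw [Real.exp_zero] at this
        linarith
      have h7 := hD m hm'
      have h8 : (m : ℝ) - 1 ≤ ((2 * (m / 2) : ℕ) : ℝ) := by
        have : m ≤ 2 * (m / 2) + 1 := by omega
        have h9 : (m : ℝ) ≤ ((2 * (m / 2) : ℕ) : ℝ) + 1 := by exact_mod_cast this
        linarith
      have h9 : lam * ((m : ℝ) - 1) ≤ lam * ((2 * (m / 2) : ℕ) : ℝ) :=
        mul_le_mul_of_nonneg_left h8 hlampos.le
      have h10 : (N : ℝ) * C₂ * (D * Real.log (m + 2)) = (N : ℝ) * (C₂ * (D * ell m)) := by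
        rw [hell]; ring
      linarith
  refine ⟨2 * D, D, c, hcint, ?_, D ^ 2, hall⟩
  by_contra hcon
  push Not at hcon
  apply hξ0
  funext ab
  have h1 := hcon ab.1 ab.1.2 ab.2 ab.2.2
  simp only [c] at h1
  rw [dif_pos ⟨ab.1.2, ab.2.2⟩] at h1
  exact RingOfIntegers.ext h1

end Pool.Agent.T2H18
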