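import Pool.Agent.R847.Gap.Core

set_option autoImplicit false

/-! Skew products with one-dimensional fibres over etale maps, at a prime. -/

namespace Pool.Agent.T2H18

open MvPolynomial Pool.Agent.H936R2 Pool.Agent.R847.Gap

section taylor

variable {O : Type} [CommRing O] {ι : Type}

/-- The Taylor expansion in the fibre coordinate `none`. -/
noncomputable def tay : MvPolynomial (Option ι) O →+* Polynomial (MvPolynomial (Option ι) O) :=
  eval₂Hom (Polynomial.C.comp C)
    (fun i => Polynomial.C (X i) + i.elim Polynomial.X fun _ => 0)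

lemma tay_eval (Q : MvPolynomial (Option ι) O) (x : Option ι → O) (κ : O) :
    Polynomial.eval κ ((tay Q).map (eval x)) = eval (fun i => x i + i.elim κ fun _ => 0) Q := by
  induction Q using MvPolynomial.induction_on with
  | C a =>
    simp [tay]
  | add p q hp hq => rw [map_add, Polynomial.map_add, Polynomial.eval_add, hp, hq, map_add]
  | mul_X p i hp =>
    rw [map_mul, Polynomial.map_mul, Polynomial.eval_mul, hp, map_mul, eval_X]
    congr 1
    cases i <;> simp [tay]

/-- The skew product. -/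
noncomputable def skew (G : ι → MvPolynomial ι O) (h : MvPolynomial (Option ι) O) :
    Option ι → MvPolynomial (Option ι) O :=
  fun i => i.elim h fun j => rename some (G j)

lemma skew_base (G : ι → MvPolynomial ι O) (h : MvPolynomial (Option ι) O) (a : Option ι → O)
    (n : ℕ) : (fun i => (pt (skew G h))^[n] a (some i)) = (pt G)^[n] (fun i => a (some i)) := by
  induction n with
  | zero => rfl
  | succ n ih =>
    rw [Function.iterate_succ_apply', Function.iterate_succ_apply', ← ih]
    funext i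
    simp only [pt, skew, Option.elim_some]
    rw [eval_rename]
    rfl

end taylor

variable {ι : Type} [Fintype ι] [DecidableEq ι] (p : ℕ) [hp : Fact p.Prime]

omit [Fintype ι] [DecidableEq ι] in
/-- The zeros and the very small values of an analytic sequence are exponentially sparse. -/
lemma sparse_small (H : ι → MvPolynomial ι (unitBall (PadicAlgCl p)))
    (y : ι → unitBall (PadicAlgCl p)) (q : MvPolynomial ι (unitBall (PadicAlgCl p)))
    (h2 : ∀ j, ‖(((fwdDiff 1)^[j] (valSeq H y q) 0 : unitBall (PadicAlgCl p)) : PadicAlgCl p)‖ ≤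
        ‖(p : PadicAlgCl p)‖ ^ (2 * j))
    (hne : ∃ n, valSeq H y q n ≠ 0) :
    ExpSparse {t | ‖((valSeq H y q t : unitBall (PadicAlgCl p)) : PadicAlgCl p)‖ ≤
      ‖(p : PadicAlgCl p)‖ ^ (2 * t)} := by
  have hp0 := norm_p_pos p
  have hp1 := norm_p_lt p
  obtain ⟨j, c, hc, hgap⟩ := newton_gap (K := PadicAlgCl p)
    (fun n => (((fwdDiff 1)^[n] (valSeq H y q) 0 : unitBall (PadicAlgCl p)) : PadicAlgCl p) /
      ((n.factorial : ℕ) : PadicAlgCl p))
    (fun n => ((valSeq H y q n : unitBall (PadicAlgCl p)) : PadicAlgCl p)) (by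
      intro n
      have h3 := shift_eq_sum_fwdDiff_iter (1 : ℕ) (valSeq H y q) n 0
      simp only [zero_add, smul_eq_mul, mul_one] at h3
      rw [h3]
      push_cast
      apply Finset.sum_congr rfl
      intro k _
      rw [Nat.descFactorial_eq_factorial_mul_choose]
      have : ((k.factorial : ℕ) : PadicAlgCl p) ≠ 0 := Nat.cast_ne_zero.2 (Nat.factorial_ne_zero k)
      push_cast
      rw [nsmul_eq_mul]
      field_simp) (by
      rw [Metric.tendsto_atTop]
      intro ε hε
      obtain ⟨m, hm⟩ := exists_pow_lt_of_lt_one hε hp1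
      refine ⟨m, fun n hn => ?_⟩
      rw [dist_zero_right, norm_div]
      have h3 := norm_prime_pow_le_factorial (K := PadicAlgCl p) p hp1 n
      have h4 : 0 < ‖((n.factorial : ℕ) : PadicAlgCl p)‖ :=
        norm_pos_iff.2 (Nat.cast_ne_zero.2 (Nat.factorial_ne_zero n))
      calc _ ≤ (‖(p : PadicAlgCl p)‖ ^ (2 * n)) / ‖(p : PadicAlgCl p)‖ ^ n := by
            apply div_le_div₀ (by positivity) (h2 n) (by positivity) h3
        _ = ‖(p : PadicAlgCl p)‖ ^ n := by
            rw [two_mul, pow_add]; field_simp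
        _ ≤ ‖(p : PadicAlgCl p)‖ ^ m := pow_le_pow_of_le_one hp0.le hp1.le hn
        _ < ε := hm) (one_le_norm_int p) (by
      obtain ⟨n, hn⟩ := hne
      refine ⟨n, fun h0 => hn ?_⟩
      exact Subtype.ext h0)
  set ρ := ‖(p : PadicAlgCl p)‖ with hρ
  obtain ⟨n₁, hn₁⟩ := exists_pow_lt_of_lt_one hc hp1
  have hlog : 0 < -Real.log ρ := by
    have := Real.log_neg hp0 hp1
    linarith
  refine ⟨j, -Real.log ρ / (j + 1), n₁, by positivity, fun n hn T hT => ?_⟩
  by_contra hcard
  push Not at hcard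
  obtain ⟨Z, hZT, hZ⟩ := Finset.exists_subset_card_eq (s := T) (n := j + 1) hcard
  have h3 := hgap Z (Real.exp (-Real.log ρ / (j + 1) * n)) (ρ ^ (2 * n)) hZ (by
    intro m hm m' hm'
    obtain ⟨-, h4, h5⟩ := hT m (hZT hm)
    obtain ⟨-, h6, h7⟩ := hT m' (hZT hm')
    have h8 : (0 : ℝ) ≤ m := Nat.cast_nonneg _
    have h9 : (0 : ℝ) ≤ m' := Nat.cast_nonneg _
    rw [abs_le]
    constructor <;> linarith) (by
    intro m hm
    obtain ⟨h4, h5, -⟩ := hT m (hZT hm)
    rw [Set.mem_ofPred_eq] at h4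
    exact h4.trans (pow_le_pow_of_le_one hp0.le hp1.le (by omega)))
  have h4 : Real.exp (-Real.log ρ / (j + 1) * n) ^ j ≤ (ρ ^ n)⁻¹ := by
    rw [← Real.exp_nat_mul]
    have h5 : (ρ ^ n)⁻¹ = Real.exp (n * -Real.log ρ) := by
      rw [mul_neg, Real.exp_neg, Real.exp_nat_mul, Real.exp_log hp0]
    rw [h5]
    apply Real.exp_le_exp.2
    have h6 : (0 : ℝ) ≤ n := Nat.cast_nonneg _
    have h7 : (j : ℝ) * (-Real.log ρ / (j + 1) * n) = (j / (j + 1)) * (n * -Real.log ρ) := by
      field_simp
    rw [h7]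
    have h8 : (j : ℝ) / (j + 1) ≤ 1 := by
      rw [div_le_one (by positivity)]
      linarith
    calc _ ≤ 1 * (n * -Real.log ρ) := mul_le_mul_of_nonneg_right h8 (by positivity)
      _ = _ := one_mul _
  have h5 : c ≤ ρ ^ n := by
    calc c ≤ _ := h3
      _ ≤ ρ ^ (2 * n) * (ρ ^ n)⁻¹ := mul_le_mul_of_nonneg_left h4 (by positivity)
      _ = ρ ^ n := by rw [two_mul, pow_add]; field_simp
  have h6 : ρ ^ n ≤ ρ ^ n₁ := pow_le_pow_of_le_one hp0.le hp1.le hn
  linarith

/-- An etale map is isometric on residue classes. -/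
lemma iso_step (G : ι → MvPolynomial ι (unitBall (PadicAlgCl p)))
    (u v : ι → unitBall (PadicAlgCl p)) (hdet : IsUnit (jac G v).det)
    (hlt : ∀ i, ‖((u i : unitBall (PadicAlgCl p)) : PadicAlgCl p) - v i‖ < 1) (ρ : ℝ)
    (hρ : ∀ i, ‖((pt G u i : unitBall (PadicAlgCl p)) : PadicAlgCl p) - pt G v i‖ ≤ ρ) :
    ∀ i, ‖((u i : unitBall (PadicAlgCl p)) : PadicAlgCl p) - v i‖ ≤ ρ := by
  classical
  by_contra hcon
  push Not at hcon
  obtain ⟨i1, hi1⟩ := hcon
  obtain ⟨i0, -, hmax⟩ := Finset.exists_max_image Finset.univ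
    (fun i => ‖((u i : unitBall (PadicAlgCl p)) : PadicAlgCl p) - v i‖) ⟨i1, Finset.mem_univ _⟩
  have hδ : ρ < ‖((u i0 : unitBall (PadicAlgCl p)) : PadicAlgCl p) - v i0‖ :=
    hi1.trans_le (hmax i1 (Finset.mem_univ _))
  have hρ0 : 0 ≤ ρ := (norm_nonneg _).trans (hρ i0)
  set π : unitBall (PadicAlgCl p) := u i0 - v i0 with hπ
  have hπc : (π : PadicAlgCl p) = (u i0 : PadicAlgCl p) - v i0 := by rw [hπ]; push_cast; rfl
  have hπ0 : 0 < ‖(π : PadicAlgCl p)‖ := by rw [hπc]; exact hρ0.trans_lt hδ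
  have hπne : (π : PadicAlgCl p) ≠ 0 := norm_pos_iff.1 hπ0
  have hy : ∀ i, ∃ y : unitBall (PadicAlgCl p), u i = v i + π * y := by
    intro i
    refine ⟨⟨((u i : PadicAlgCl p) - v i) / π, ?_⟩, ?_⟩
    · rw [mem_unitBall, norm_div, div_le_one hπ0, hπc]
      exact hmax i (Finset.mem_univ _)
    · apply Subtype.ext
      push_cast
      rw [mul_div_cancel₀ _ hπne]
      ring
  choose y hy using hy
  have hy0 : ‖(y i0 : PadicAlgCl p)‖ = 1 := by
    have h1 : (y i0 : PadicAlgCl p) = 1 := by
      have h2 := congrArg (fun z : unitBall (PadicAlgCl p) => (z : PadicAlgCl p)) (hy i0)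
      push_cast at h2
      have h3 : (π : PadicAlgCl p) * y i0 = π * 1 := by
        rw [mul_one]
        conv_rhs => rw [hπc]
        linear_combination -h2
      exact mul_left_cancel₀ hπne h3
    rw [h1, norm_one]
  -- first order expansion
  have htay : ∀ i, ∃ r : unitBall (PadicAlgCl p), pt G u i = pt G v i +
      π * ((jac G v).mulVec y i) + π ^ 2 * r := by
    intro i
    obtain ⟨r, hr⟩ := taylor_one π v y (G i)
    refine ⟨r, ?_⟩
    have h1 : u = fun i => algebraMap (unitBall (PadicAlgCl p)) (unitBall (PadicAlgCl p)) (v i) +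
        algebraMap (unitBall (PadicAlgCl p)) (unitBall (PadicAlgCl p)) π * y i := by
      funext i
      exact hy i
    have h2 : pt G u i = aeval u (G i) := by
      rw [pt, ← MvPolynomial.coe_aeval_eq_eval]
      rfl
    rw [h2, h1, hr]
    rfl
  have hsmall : ∀ i, ‖(((jac G v).mulVec y i : unitBall (PadicAlgCl p)) : PadicAlgCl p)‖ < 1 := by
    intro i
    obtain ⟨r, hr⟩ := htay i
    have h1 := hρ i
    have h2 : ((pt G u i : unitBall (PadicAlgCl p)) : PadicAlgCl p) - pt G v i =
        π * ((((jac G v).mulVec y i : unitBall (PadicAlgCl p)) : PadicAlgCl p) + π * r) := by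
      rw [hr]
      push_cast
      ring
    rw [h2, norm_mul] at h1
    have h3 : ‖(((jac G v).mulVec y i : unitBall (PadicAlgCl p)) : PadicAlgCl p) + π * r‖ < 1 := by
      by_contra hge
      push Not at hge
      have : ‖(π : PadicAlgCl p)‖ * 1 ≤ ρ := (mul_le_mul_of_nonneg_left hge hπ0.le).trans h1
      rw [mul_one, hπc] at this
      linarith
    have h4 : ‖(π : PadicAlgCl p) * r‖ < 1 := by
      rw [norm_mul]
      calc ‖(π : PadicAlgCl p)‖ * ‖(r : PadicAlgCl p)‖ ≤ ‖(π : PadicAlgCl p)‖ * 1 :=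
            mul_le_mul_of_nonneg_left (unitBall_norm_le r) hπ0.le
        _ = ‖(π : PadicAlgCl p)‖ := mul_one _
        _ < 1 := by rw [hπc]; exact hlt i0
    have h5 : (((jac G v).mulVec y i : unitBall (PadicAlgCl p)) : PadicAlgCl p) =
        ((((jac G v).mulVec y i : unitBall (PadicAlgCl p)) : PadicAlgCl p) + π * r) +
          (-(π * r)) := by ring
    rw [h5]
    refine (IsUltrametricDist.norm_add_le_max _ _).trans_lt (max_lt h3 ?_)
    rwa [norm_neg]
  -- invert the matrix
  have hinv : y i0 = ∑ j, (jac G v)⁻¹ i0 j * ((jac G v).mulVec y j) := by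
    have h1 : (jac G v)⁻¹.mulVec ((jac G v).mulVec y) = y := by
      rw [Matrix.mulVec_mulVec, Matrix.nonsing_inv_mul _ hdet, Matrix.one_mulVec]
    conv_lhs => rw [← h1]
    rfl
  have h1 : ‖(y i0 : PadicAlgCl p)‖ < 1 := by
    rw [hinv]
    push_cast
    rcases isEmpty_or_nonempty ι with he | he
    · simp
    obtain ⟨j, -, hj⟩ := IsUltrametricDist.exists_norm_finsetSum_le_of_nonempty
      (Finset.univ_nonempty (α := ι)) (fun j => (((jac G v)⁻¹ i0 j : unitBall (PadicAlgCl p)) :
        PadicAlgCl p) * (((jac G v).mulVec y j : unitBall (PadicAlgCl p)) : PadicAlgCl p))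
    refine hj.trans_lt ?_
    rw [norm_mul]
    calc _ ≤ 1 * ‖(((jac G v).mulVec y j : unitBall (PadicAlgCl p)) : PadicAlgCl p)‖ :=
          mul_le_mul_of_nonneg_right (unitBall_norm_le _) (norm_nonneg _)
      _ < 1 := by rw [one_mul]; exact hsmall j
  rw [hy0] at h1
  exact lt_irrefl _ h1

/-- Polynomial maps are nonexpanding. -/
lemma lip_eval {κ : Type} (q : MvPolynomial κ (unitBall (PadicAlgCl p)))
    (u v : κ → unitBall (PadicAlgCl p)) (ρ : ℝ) (hρ0 : 0 ≤ ρ)
    (hρ : ∀ i, ‖((u i : unitBall (PadicAlgCl p)) : PadicAlgCl p) - v i‖ ≤ ρ) :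
    ‖((eval u q : unitBall (PadicAlgCl p)) : PadicAlgCl p) - eval v q‖ ≤ ρ := by
  induction q using MvPolynomial.induction_on with
  | C a => simpa using hρ0
  | add f g hf hg =>
    have h1 : ((eval u (f + g) : unitBall (PadicAlgCl p)) : PadicAlgCl p) - eval v (f + g) =
        (eval u f - eval v f) + (eval u g - eval v g) := by
      rw [map_add, map_add]; push_cast; ring
    rw [h1]
    exact (IsUltrametricDist.norm_add_le_max _ _).trans (max_le hf hg)
  | mul_X q i hq =>
    have h1 : ((eval u (q * X i) : unitBall (PadicAlgCl p)) : PadicAlgCl p) - eval v (q * X i) =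
        (eval u q - eval v q) * u i + eval v q * (u i - v i) := by
      rw [map_mul, map_mul, eval_X, eval_X]; push_cast; ring
    rw [h1]
    refine (IsUltrametricDist.norm_add_le_max _ _).trans (max_le ?_ ?_)
    · rw [norm_mul]
      calc _ ≤ ρ * 1 := mul_le_mul hq (unitBall_norm_le _) (norm_nonneg _) hρ0
        _ = ρ := mul_one _
    · rw [norm_mul]
      calc _ ≤ 1 * ρ := mul_le_mul (unitBall_norm_le _) (hρ i) (norm_nonneg _) zero_le_one
        _ = ρ := one_mul _

/-- Etale orbits in one residue class with distances tending to zero are equal. -/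
lemma iso_orbit (G : ι → MvPolynomial ι (unitBall (PadicAlgCl p)))
    (u v : ι → unitBall (PadicAlgCl p)) (hdet : ∀ n, IsUnit (jac G ((pt G)^[n] v)).det)
    (hlt : ∀ i, ‖((u i : unitBall (PadicAlgCl p)) : PadicAlgCl p) - v i‖ < 1) (n : ℕ) (ρ : ℝ)
    (hρ : ∀ i, ‖(((pt G)^[n] u i : unitBall (PadicAlgCl p)) : PadicAlgCl p) -
      (pt G)^[n] v i‖ ≤ ρ) :
    ∀ i, ‖((u i : unitBall (PadicAlgCl p)) : PadicAlgCl p) - v i‖ ≤ ρ := by
  classical
  induction n generalizing u v with
  | zero => exact hρ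
  | succ n ih =>
    apply iso_step p G u v (hdet 0) hlt
    apply ih (pt G u) (pt G v)
    · intro m
      rw [← Function.iterate_succ_apply]
      exact hdet (m + 1)
    · intro i
      rcases isEmpty_or_nonempty ι with he | he
      · exact (he.false i).elim
      obtain ⟨i0, -, hmax⟩ := Finset.exists_max_image Finset.univ
        (fun i => ‖((u i : unitBall (PadicAlgCl p)) : PadicAlgCl p) - v i‖) Finset.univ_nonempty
      exact (lip_eval p (G i) u v _ (norm_nonneg _)
        (fun j => hmax j (Finset.mem_univ _))).trans_lt (hlt i0)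
    · exact hρ

end Pool.Agent.T2H18
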