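import Pool.Agent.T2H18.SkewQ
import Pool.Agent.R847.Gap.Affine

set_option autoImplicit false

/-! Skew products with fibres in the projective line over etale maps, over the complex numbers. -/

namespace Pool.Agent.T2H18

open MvPolynomial Pool.Agent.H936R2 Pool.Agent.R847.Gap

/-- Packaging. -/
lemma pack (R : Set ℕ) (n0 k : ℕ) (hk : 0 < k)
    (h : ∀ r, (∀ t, n0 + r + k * t ∈ R) ∨ ExpSparse {t | n0 + r + k * t ∈ R}) :
    ∃ (T : Finset (ℕ × ℕ)) (E : Set ℕ), ExpSparse E ∧
      R = {n : ℕ | ∃ q ∈ T, ∃ m : ℕ, n = q.1 * m + q.2} ∪ E := by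
  classical
  let Gd : Finset ℕ := (Finset.range k).filter fun r => ∀ t, n0 + r + k * t ∈ R
  let Bd : Finset ℕ := (Finset.range k).filter fun r => ¬ ∀ t, n0 + r + k * t ∈ R
  refine ⟨Gd.image fun r => (k, n0 + r),
    {n | n ∈ R ∧ n < n0} ∪ ⋃ r ∈ Bd, {n | n ∈ R ∧ ∃ t, n = (n0 + r) + k * t}, ?_, ?_⟩
  · refine ExpSparse.union (ExpSparse.finite ((Set.finite_lt_nat n0).subset fun n hn => hn.2))
      (ExpSparse.biUnion Bd _ fun r hr => ?_)
    apply ExpSparse.affine _ _ hk
    have h1 : ¬ ∀ t, n0 + r + k * t ∈ R := by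
      simp only [Bd, Finset.mem_filter] at hr
      exact hr.2
    exact (h r).resolve_left h1
  · ext n
    simp only [Set.mem_union, Set.mem_ofPred_eq, Finset.mem_image, Set.mem_iUnion]
    constructor
    · intro hn
      by_cases hlt : n < n0
      · right; left; exact ⟨hn, hlt⟩
      · have hr : (n - n0) % k < k := Nat.mod_lt _ hk
        have hn' : n = n0 + (n - n0) % k + k * ((n - n0) / k) := by
          have := Nat.mod_add_div (n - n0) k
          omega
        by_cases hg : ∀ t, n0 + (n - n0) % k + k * t ∈ R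
        · left
          refine ⟨(k, n0 + (n - n0) % k), ⟨(n - n0) % k, ?_, rfl⟩, (n - n0) / k, ?_⟩
          · simp only [Gd, Finset.mem_filter, Finset.mem_range]
            exact ⟨hr, hg⟩
          · simp only
            omega
        · right; right
          refine ⟨(n - n0) % k, ?_, hn, (n - n0) / k, hn'⟩
          simp only [Bd, Finset.mem_filter, Finset.mem_range]
          exact ⟨hr, hg⟩
    · rintro (⟨q, ⟨r, hr, rfl⟩, m, rfl⟩ | (⟨h1, -⟩ | ⟨r, -, h1, -⟩))
      · simp only [Gd, Finset.mem_filter] at hr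
        have := hr.2 m
        simp only
        rwa [Nat.add_comm]
      · exact h1
      · exact h1

section forms

variable {ι : Type}

lemma eval_map_equiv {K L : Type} [Field K] [Field L] (τ : K ≃+* L) {κ : Type} (z : κ → K)
    (g : MvPolynomial κ K) :
    eval (fun i => τ (z i)) (map (τ : K →+* L) g) = τ (eval z g) := by
  rw [eval_map]
  have h := eval₂_comp_left (τ : K →+* L) (RingHom.id _) z g
  rw [RingHom.comp_id] at h
  exact h.symm

lemma FForm.map_equiv {K L : Type} [Field K] [Field L] (τ : K ≃+* L)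
    {P : MvPolynomial (ι ⊕ Fin 2) K} {e : ℕ} (h : FForm P e) :
    FForm (map (τ : K →+* L) P) e := by
  intro t x v
  have h1 := h (τ.symm t) (fun i => τ.symm (x i)) (fun s => τ.symm (v s))
  have h2 := congrArg τ h1
  rw [map_mul, map_pow, τ.apply_symm_apply, ← eval_map_equiv, ← eval_map_equiv] at h2
  have h3 : (fun i => τ (Sum.elim (fun i => τ.symm (x i))
      (fun s => τ.symm t * τ.symm (v s)) i)) = Sum.elim x fun s => t * v s := by
    funext i; cases i <;> simp
  have h4 : (fun i => τ (Sum.elim (fun i => τ.symm (x i))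
      (fun s => τ.symm (v s)) i)) = Sum.elim x v := by
    funext i; cases i <;> simp
  rw [h3, h4] at h2
  exact h2

lemma FForm.of_map {K : Type} [NormedField K] [IsUltrametricDist K] [CharZero K]
    {Q : MvPolynomial (ι ⊕ Fin 2) (unitBall K)} {e : ℕ}
    (h : FForm (map (unitBall K).subtype Q) e) : FForm Q e := by
  intro t x v
  apply Subtype.ext
  have h1 := h (t : K) (fun i => (x i : K)) (fun s => (v s : K))
  push_cast
  rw [eval_coe, eval_coe]
  have h2 : (fun i => ((Sum.elim x (fun s => t * v s) i : unitBall K) : K)) =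
      Sum.elim (fun i => (x i : K)) fun s => (t : K) * (v s : K) := by
    funext i; cases i <;> simp
  have h3 : (fun i => ((Sum.elim x v i : unitBall K) : K)) =
      Sum.elim (fun i => (x i : K)) fun s => (v s : K) := by
    funext i; cases i <;> simp
  rw [h2, h3]
  exact h1

end forms

section main

variable {ι : Type} [Fintype ι] [DecidableEq ι]

/-- The points of the quasiprojective variety in `A^ι × P^1` (in homogeneous coordinates). -/
def InX (A : Set (MvPolynomial (ι ⊕ Fin 2) ℂ)) {l : ℕ} (B : Fin l → MvPolynomial (ι ⊕ Fin 2) ℂ)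
    (z : ι ⊕ Fin 2 → ℂ) : Prop :=
  (∃ s : Fin 2, z (Sum.inr s) ≠ 0) ∧ (∀ P ∈ A, eval z P = 0) ∧ ∃ j, eval z (B j) ≠ 0

/-- The certificates of the Nullstellensatz. -/
lemma certificate (G : ι → MvPolynomial ι ℂ) (h : Fin 2 → MvPolynomial (ι ⊕ Fin 2) ℂ)
    (A : Set (MvPolynomial (ι ⊕ Fin 2) ℂ)) {l : ℕ} (B : Fin l → MvPolynomial (ι ⊕ Fin 2) ℂ)
    (hX : ∀ z, InX A B z → InX A B (pt (skew2 G h) z))
    (het : ∀ z, InX A B z → (jac G fun i => z (Sum.inl i)).det ≠ 0) (s : Fin 2) (j : Fin l) :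
    ∃ (m : ℕ) (c : Fin l × Fin 2 → MvPolynomial (ι ⊕ Fin 2) ℂ), ∀ z, (∀ P ∈ A, eval z P = 0) →
      (z (Sum.inr s) * eval z (B j)) ^ m = ∑ q : Fin l × Fin 2, eval z (c q) *
        (eval (pt (skew2 G h) z) (B q.1) * pt (skew2 G h) z (Sum.inr q.2) *
          (jac G fun i => z (Sum.inl i)).det) := by
  classical
  let DP : MvPolynomial (ι ⊕ Fin 2) ℂ :=
    rename Sum.inl (Matrix.det (Matrix.of fun i j => pderiv j (G i)))
  have hDP : ∀ z : ι ⊕ Fin 2 → ℂ, eval z DP = (jac G fun i => z (Sum.inl i)).det := by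
    intro z
    simp only [DP]
    rw [eval_rename, RingHom.map_det]
    congr 1
  let g : Fin l × Fin 2 → MvPolynomial (ι ⊕ Fin 2) ℂ := fun q =>
    aeval (skew2 G h) (B q.1) * skew2 G h (Sum.inr q.2) * DP
  have hg : ∀ z q, eval z (g q) = eval (pt (skew2 G h) z) (B q.1) *
      pt (skew2 G h) z (Sum.inr q.2) * (jac G fun i => z (Sum.inl i)).det := by
    intro z q
    simp only [g]
    rw [map_mul, map_mul, hDP, eval_aeval_poly]
    rfl
  have h1 : (X (Sum.inr s) * B j : MvPolynomial (ι ⊕ Fin 2) ℂ) ∈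
      (Ideal.span A ⊔ Ideal.span (Set.range g)).radical := by
    rw [← MvPolynomial.vanishingIdeal_zeroLocus_eq_radical (K := ℂ),
      MvPolynomial.mem_vanishingIdeal_iff]
    intro z hz
    rw [MvPolynomial.mem_zeroLocus_iff] at hz
    by_contra hne
    rw [map_mul, aeval_X] at hne
    have h2 : aeval z (B j) = eval z (B j) := rfl
    rw [h2] at hne
    have hA : ∀ P ∈ A, eval z P = 0 := fun P hP => hz P (Ideal.mem_sup_left (Ideal.subset_span hP))
    have hin : InX A B z := ⟨⟨s, left_ne_zero_of_mul hne⟩, hA, j, right_ne_zero_of_mul hne⟩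
    obtain ⟨⟨s', hs'⟩, -, j', hj'⟩ := hX z hin
    have h3 := hz (g (j', s')) (Ideal.mem_sup_right (Ideal.subset_span ⟨_, rfl⟩))
    have h4 : aeval z (g (j', s')) = eval z (g (j', s')) := rfl
    rw [h4, hg] at h3
    exact mul_ne_zero (mul_ne_zero hj' hs') (het z hin) h3
  obtain ⟨m, hm⟩ := h1
  rw [Submodule.mem_sup] at hm
  obtain ⟨u, hu, w, hw, huw⟩ := hm
  rw [Ideal.mem_span_range_iff_exists_fun] at hw
  obtain ⟨c, hc⟩ := hw
  refine ⟨m, c, fun z hz => ?_⟩
  have hu0 : eval z u = 0 := by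
    have h2 : Ideal.span A ≤ RingHom.ker (eval z) := by
      rw [Ideal.span_le]
      intro P hP
      exact hz P hP
    exact h2 hu
  have h3 := congrArg (eval z) huw
  rw [map_add, hu0, zero_add, ← hc, map_sum, map_pow, map_mul, eval_X] at h3
  rw [← h3]
  apply Finset.sum_congr rfl
  intro q _
  rw [map_mul, hg]

/-- **Skew products over etale maps with fibres in the projective line.** -/
theorem skew_complex (G : ι → MvPolynomial ι ℂ) (h : Fin 2 → MvPolynomial (ι ⊕ Fin 2) ℂ) (d : ℕ)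
    (hh : ∀ s, FForm (h s) d)
    (A : Set (MvPolynomial (ι ⊕ Fin 2) ℂ)) {l : ℕ} (B : Fin l → MvPolynomial (ι ⊕ Fin 2) ℂ)
    (hX : ∀ z, InX A B z → InX A B (pt (skew2 G h) z))
    (het : ∀ z, InX A B z → (jac G fun i => z (Sum.inl i)).det ≠ 0)
    (a : ι ⊕ Fin 2 → ℂ) (ha : InX A B a)
    (S : Set (MvPolynomial (ι ⊕ Fin 2) ℂ)) (hS : ∀ P ∈ S, ∃ e, FForm P e) :
    ∃ (T : Finset (ℕ × ℕ)) (E : Set ℕ), ExpSparse E ∧
      {n : ℕ | ∀ P ∈ S, eval ((pt (skew2 G h))^[n] a) P = 0} =
        {n : ℕ | ∃ q ∈ T, ∃ m : ℕ, n = q.1 * m + q.2} ∪ E := by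
  classical
  choose m c hcert using certificate G h A B hX het
  have hXn : ∀ n, InX A B ((pt (skew2 G h))^[n] a) := by
    intro n
    induction n with
    | zero => exact ha
    | succ n ih => rw [Function.iterate_succ_apply']; exact hX _ ih
  obtain ⟨⟨s0, hs0⟩, hA0, j0, hj0⟩ := ha
  -- the finite set of numbers
  let cf : {κ : Type} → MvPolynomial κ ℂ → Set ℂ := fun P => (fun μ => P.coeff μ) '' (P.support : Set _)
  let s1 : Set ℂ := ⋃ i, cf (G i)
  let s2 : Set ℂ := ⋃ s, cf (h s)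
  let s3 : Set ℂ := ⋃ j, cf (B j)
  let s4 : Set ℂ := ⋃ s, ⋃ j, ⋃ q, cf (c s j q)
  let s5 : Set ℂ := Set.range a
  let s6 : Set ℂ := {(a (Sum.inr s0))⁻¹, (eval a (B j0))⁻¹}
  have hcf : ∀ {κ : Type} (P : MvPolynomial κ ℂ), (cf P).Finite := fun P =>
    P.support.finite_toSet.image _
  have hs : (s1 ∪ s2 ∪ s3 ∪ s4 ∪ s5 ∪ s6).Finite := by
    refine (((((Set.finite_iUnion fun i => hcf _).union (Set.finite_iUnion fun i => hcf _)).union
      (Set.finite_iUnion fun i => hcf _)).union (Set.finite_iUnion fun i => Set.finite_iUnion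
      fun j => Set.finite_iUnion fun q => hcf _)).union (Set.finite_range a)).union ?_
    exact (Set.finite_singleton _).insert _
  obtain ⟨N₀, hN₀⟩ := emb_finite hs.toFinset
  obtain ⟨p, hpN, hp⟩ := Nat.exists_infinite_primes (N₀ + 1)
  have : Fact p.Prime := ⟨hp⟩
  obtain ⟨τ, hτ⟩ := hN₀ p (by omega)
  have hτ' : ∀ x ∈ s1 ∪ s2 ∪ s3 ∪ s4 ∪ s5 ∪ s6, ‖τ x‖ ≤ 1 :=
    fun x hx => hτ x (hs.mem_toFinset.2 hx)
  -- lifts
  have hlift : ∀ {κ : Type} (P : MvPolynomial κ ℂ), (∀ x ∈ cf P, ‖τ x‖ ≤ 1) →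
      ∃ Q : MvPolynomial κ (unitBall (PadicAlgCl p)),
        map (unitBall (PadicAlgCl p)).subtype Q = map (τ : ℂ →+* PadicAlgCl p) P := by
    intro κ P hP
    apply Pool.Agent.R847.Gap.exists_lift
    intro μ
    rw [coeff_map]
    by_cases hμ : μ ∈ P.support
    · exact hP _ ⟨μ, hμ, rfl⟩
    · rw [notMem_support_iff.1 hμ, map_zero, norm_zero]
      exact zero_le_one
  choose GO hGO using fun i => hlift (G i) (fun x hx => hτ' x (by
    left; left; left; left; left; exact Set.mem_iUnion.2 ⟨i, hx⟩))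
  choose hO hhO using fun s => hlift (h s) (fun x hx => hτ' x (by
    left; left; left; left; right; exact Set.mem_iUnion.2 ⟨s, hx⟩))
  choose BO hBO using fun j => hlift (B j) (fun x hx => hτ' x (by
    left; left; left; right; exact Set.mem_iUnion.2 ⟨j, hx⟩))
  choose cO hcO using fun s j q => hlift (c s j q) (fun x hx => hτ' x (by
    left; left; right
    exact Set.mem_iUnion.2 ⟨s, Set.mem_iUnion.2 ⟨j, Set.mem_iUnion.2 ⟨q, hx⟩⟩⟩))
  let aO : ι ⊕ Fin 2 → unitBall (PadicAlgCl p) := fun i => ⟨τ (a i), hτ' _ (by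
    left; right; exact ⟨i, rfl⟩)⟩
  -- comparison of values
  have hev : ∀ {κ : Type} (P : MvPolynomial κ ℂ) (Q : MvPolynomial κ (unitBall (PadicAlgCl p)))
      (_ : map (unitBall (PadicAlgCl p)).subtype Q = map (τ : ℂ →+* PadicAlgCl p) P)
      (z : κ → ℂ) (w : κ → unitBall (PadicAlgCl p)) (_ : ∀ i, (w i : PadicAlgCl p) = τ (z i)),
      ((eval w Q : unitBall (PadicAlgCl p)) : PadicAlgCl p) = τ (eval z P) := by
    intro κ P Q hPQ z w hw
    rw [eval_coe, hPQ, show (fun i => (w i : PadicAlgCl p)) = fun i => τ (z i) from funext hw,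
      eval_map_equiv]
  have hskew : ∀ i, map (unitBall (PadicAlgCl p)).subtype (skew2 GO hO i) =
      map (τ : ℂ →+* PadicAlgCl p) (skew2 G h i) := by
    intro i
    cases i with
    | inl i =>
      simp only [skew2, Sum.elim_inl]
      rw [map_rename, map_rename, hGO]
    | inr s =>
      simp only [skew2, Sum.elim_inr]
      exact hhO s
  have horb : ∀ n i, (((pt (skew2 GO hO))^[n] aO i : unitBall (PadicAlgCl p)) : PadicAlgCl p) =
      τ ((pt (skew2 G h))^[n] a i) := by
    intro n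
    induction n with
    | zero => intro i; rfl
    | succ n ih =>
      intro i
      rw [Function.iterate_succ_apply', Function.iterate_succ_apply']
      exact hev _ _ (hskew i) _ _ ih
  have hjac : ∀ n, (((jac GO ((pt GO)^[n] fun i => aO (Sum.inl i))).det :
      unitBall (PadicAlgCl p)) : PadicAlgCl p) =
      τ ((jac G fun i => (pt (skew2 G h))^[n] a (Sum.inl i)).det) := by
    intro n
    have e1 : (pt GO)^[n] (fun i => aO (Sum.inl i)) =
        fun i => (pt (skew2 GO hO))^[n] aO (Sum.inl i) := (skew2_base GO hO aO n).symm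
    rw [e1]
    have e2 := jac_map (unitBall (PadicAlgCl p)).subtype GO
      (fun i => (pt (skew2 GO hO))^[n] aO (Sum.inl i))
    have e3 := jac_map (τ : ℂ →+* PadicAlgCl p) G (fun i => (pt (skew2 G h))^[n] a (Sum.inl i))
    have e4 : (fun i => map (unitBall (PadicAlgCl p)).subtype (GO i)) =
      fun i => map (τ : ℂ →+* PadicAlgCl p) (G i) := funext hGO
    have e5 : (fun i => (unitBall (PadicAlgCl p)).subtype
        ((pt (skew2 GO hO))^[n] aO (Sum.inl i))) =
        fun i => (τ : ℂ →+* PadicAlgCl p) ((pt (skew2 G h))^[n] a (Sum.inl i)) :=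
      funext fun i => horb n _
    rw [e4, e5, e3] at e2
    have e6 := congrArg Matrix.det e2
    rw [← RingHom.map_det, ← RingHom.map_det] at e6
    exact e6.symm
  -- unit criterion
  have hmulunit : ∀ x y : unitBall (PadicAlgCl p), ‖((x * y : unitBall (PadicAlgCl p)) :
      PadicAlgCl p)‖ = 1 → ‖(x : PadicAlgCl p)‖ = 1 ∧ ‖(y : PadicAlgCl p)‖ = 1 := by
    intro x y hxy
    have hu : IsUnit (x * y) := (unitBall_isUnit_iff _).2 hxy
    exact ⟨(unitBall_isUnit_iff _).1 (isUnit_of_mul_isUnit_left hu),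
      (unitBall_isUnit_iff _).1 (isUnit_of_mul_isUnit_right hu)⟩
  -- good points
  have hgood : ∀ n, ∃ s j, ‖(((pt (skew2 GO hO))^[n] aO (Sum.inr s) : unitBall (PadicAlgCl p)) :
      PadicAlgCl p)‖ = 1 ∧ ‖((eval ((pt (skew2 GO hO))^[n] aO) (BO j) : unitBall (PadicAlgCl p)) :
      PadicAlgCl p)‖ = 1 := by
    intro n
    have hstep : ∀ n, (∃ s j, ‖(((pt (skew2 GO hO))^[n] aO (Sum.inr s) : unitBall (PadicAlgCl p)) :
        PadicAlgCl p)‖ = 1 ∧ ‖((eval ((pt (skew2 GO hO))^[n] aO) (BO j) :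
        unitBall (PadicAlgCl p)) : PadicAlgCl p)‖ = 1) →
        (∃ s j, ‖(((pt (skew2 GO hO))^[n + 1] aO (Sum.inr s) : unitBall (PadicAlgCl p)) :
        PadicAlgCl p)‖ = 1 ∧ ‖((eval ((pt (skew2 GO hO))^[n + 1] aO) (BO j) :
        unitBall (PadicAlgCl p)) : PadicAlgCl p)‖ = 1) ∧
        ‖(((jac GO ((pt GO)^[n] fun i => aO (Sum.inl i))).det : unitBall (PadicAlgCl p)) :
          PadicAlgCl p)‖ = 1 := by
      rintro n ⟨s, j, hs1, hj1⟩
      set z := (pt (skew2 G h))^[n] a with hz
      set w := (pt (skew2 GO hO))^[n] aO with hw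
      have h1 := hcert s j z (hXn n).2.1
      have h2 := congrArg τ h1
      rw [map_pow, map_mul, map_sum] at h2
      have h3 : ‖∑ q : Fin l × Fin 2, τ (eval z (c s j q) *
          (eval (pt (skew2 G h) z) (B q.1) * pt (skew2 G h) z (Sum.inr q.2) *
            (jac G fun i => z (Sum.inl i)).det))‖ = 1 := by
        rw [← h2, norm_pow, norm_mul, ← horb n, ← hev _ _ (hBO j) z w (horb n), ← hw, hs1, hj1]
        norm_num
      have hne : (Finset.univ : Finset (Fin l × Fin 2)).Nonempty := ⟨(j, s), Finset.mem_univ _⟩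
      obtain ⟨q, -, hq⟩ := IsUltrametricDist.exists_norm_finsetSum_le_of_nonempty hne
        (fun q : Fin l × Fin 2 => τ (eval z (c s j q) *
          (eval (pt (skew2 G h) z) (B q.1) * pt (skew2 G h) z (Sum.inr q.2) *
            (jac G fun i => z (Sum.inl i)).det)))
      rw [h3] at hq
      -- the corresponding integral element
      have e1 : τ (eval z (c s j q)) = ((eval w (cO s j q) : unitBall (PadicAlgCl p)) :
        PadicAlgCl p) := (hev _ _ (hcO s j q) z w (horb n)).symm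
      have e2 : τ (eval (pt (skew2 G h) z) (B q.1)) =
          ((eval ((pt (skew2 GO hO))^[n + 1] aO) (BO q.1) : unitBall (PadicAlgCl p)) :
            PadicAlgCl p) := by
        rw [hev _ _ (hBO q.1) ((pt (skew2 G h))^[n + 1] a) _ (horb (n + 1)),
          Function.iterate_succ_apply']
      have e3 : τ (pt (skew2 G h) z (Sum.inr q.2)) =
          (((pt (skew2 GO hO))^[n + 1] aO (Sum.inr q.2) : unitBall (PadicAlgCl p)) :
            PadicAlgCl p) := by
        rw [horb (n + 1), Function.iterate_succ_apply']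
      have e4 : τ ((jac G fun i => z (Sum.inl i)).det) =
          (((jac GO ((pt GO)^[n] fun i => aO (Sum.inl i))).det : unitBall (PadicAlgCl p)) :
            PadicAlgCl p) := (hjac n).symm
      rw [map_mul, map_mul, map_mul, e1, e2, e3, e4] at hq
      have h5 : ‖((eval w (cO s j q) * (eval ((pt (skew2 GO hO))^[n + 1] aO) (BO q.1) *
          (pt (skew2 GO hO))^[n + 1] aO (Sum.inr q.2) *
            (jac GO ((pt GO)^[n] fun i => aO (Sum.inl i))).det) : unitBall (PadicAlgCl p)) :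
              PadicAlgCl p)‖ = 1 := by
        apply le_antisymm (unitBall_norm_le _)
        push_cast
        exact hq
      obtain ⟨-, h6⟩ := hmulunit _ _ h5
      obtain ⟨h7, h8⟩ := hmulunit _ _ h6
      obtain ⟨h9, h10⟩ := hmulunit _ _ h7
      exact ⟨⟨q.2, q.1, h10, h9⟩, h8⟩
    induction n with
    | zero =>
      refine ⟨s0, j0, ?_, ?_⟩
      · have h1 : ‖τ (a (Sum.inr s0))‖ ≤ 1 := hτ' _ (by left; right; exact ⟨_, rfl⟩)
        have h2 : ‖τ (a (Sum.inr s0))⁻¹‖ ≤ 1 := hτ' _ (by right; left; rfl)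
        rw [map_inv₀, norm_inv] at h2
        have h3 : 0 < ‖τ (a (Sum.inr s0))‖ := norm_pos_iff.2 ((map_ne_zero τ).2 hs0)
        exact le_antisymm h1 ((inv_le_one₀ h3).1 h2)
      · have h1 : ((eval ((pt (skew2 GO hO))^[0] aO) (BO j0) : unitBall (PadicAlgCl p)) :
            PadicAlgCl p) = τ (eval a (B j0)) := hev _ _ (hBO j0) _ _ (horb 0)
        have h2 : ‖τ (eval a (B j0))⁻¹‖ ≤ 1 := hτ' _ (by right; right; rfl)
        rw [map_inv₀, norm_inv] at h2
        have h3 : 0 < ‖τ (eval a (B j0))‖ := norm_pos_iff.2 ((map_ne_zero τ).2 hj0)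
        have h4 : ‖τ (eval a (B j0))‖ ≤ 1 := by rw [← h1]; exact unitBall_norm_le _
        rw [h1]
        exact le_antisymm h4 ((inv_le_one₀ h3).1 h2)
    | succ n ih => exact (hstep n ih).1
  have hdetn : ∀ n, IsUnit (jac GO ((pt GO)^[n] fun i => aO (Sum.inl i))).det := by
    intro n
    rw [unitBall_isUnit_iff]
    obtain ⟨s, j, hs1, hj1⟩ := hgood n
    set z := (pt (skew2 G h))^[n] a with hz
    set w := (pt (skew2 GO hO))^[n] aO with hw
    have h1 := hcert s j z (hXn n).2.1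
    have h2 := congrArg τ h1
    rw [map_pow, map_mul, map_sum] at h2
    have h3 : ‖∑ q : Fin l × Fin 2, τ (eval z (c s j q) *
        (eval (pt (skew2 G h) z) (B q.1) * pt (skew2 G h) z (Sum.inr q.2) *
          (jac G fun i => z (Sum.inl i)).det))‖ = 1 := by
      rw [← h2, norm_pow, norm_mul, ← horb n, ← hev _ _ (hBO j) z w (horb n), ← hw, hs1, hj1]
      norm_num
    have hne : (Finset.univ : Finset (Fin l × Fin 2)).Nonempty := ⟨(j, s), Finset.mem_univ _⟩
    obtain ⟨q, -, hq⟩ := IsUltrametricDist.exists_norm_finsetSum_le_of_nonempty hne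
      (fun q : Fin l × Fin 2 => τ (eval z (c s j q) *
        (eval (pt (skew2 G h) z) (B q.1) * pt (skew2 G h) z (Sum.inr q.2) *
          (jac G fun i => z (Sum.inl i)).det)))
    rw [h3] at hq
    have e1 : τ (eval z (c s j q)) = ((eval w (cO s j q) : unitBall (PadicAlgCl p)) :
      PadicAlgCl p) := (hev _ _ (hcO s j q) z w (horb n)).symm
    have e2 : τ (eval (pt (skew2 G h) z) (B q.1)) =
        ((eval ((pt (skew2 GO hO))^[n + 1] aO) (BO q.1) : unitBall (PadicAlgCl p)) :
          PadicAlgCl p) := by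
      rw [hev _ _ (hBO q.1) ((pt (skew2 G h))^[n + 1] a) _ (horb (n + 1)),
        Function.iterate_succ_apply']
    have e3 : τ (pt (skew2 G h) z (Sum.inr q.2)) =
        (((pt (skew2 GO hO))^[n + 1] aO (Sum.inr q.2) : unitBall (PadicAlgCl p)) :
          PadicAlgCl p) := by
      rw [horb (n + 1), Function.iterate_succ_apply']
    have e4 : τ ((jac G fun i => z (Sum.inl i)).det) =
        (((jac GO ((pt GO)^[n] fun i => aO (Sum.inl i))).det : unitBall (PadicAlgCl p)) :
          PadicAlgCl p) := (hjac n).symm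
    rw [map_mul, map_mul, map_mul, e1, e2, e3, e4] at hq
    have h5 : ‖((eval w (cO s j q) * (eval ((pt (skew2 GO hO))^[n + 1] aO) (BO q.1) *
        (pt (skew2 GO hO))^[n + 1] aO (Sum.inr q.2) *
          (jac GO ((pt GO)^[n] fun i => aO (Sum.inl i))).det) : unitBall (PadicAlgCl p)) :
            PadicAlgCl p)‖ = 1 := by
      apply le_antisymm (unitBall_norm_le _)
      push_cast
      exact hq
    obtain ⟨-, h6⟩ := hmulunit _ _ h5
    exact (hmulunit _ _ h6).2
  -- apply the theorem at the prime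
  obtain ⟨n0, k, hk, hmain⟩ := skew2_padic p GO hO d
    (fun s => FForm.of_map (by rw [hhO]; exact (hh s).map_equiv τ)) aO hdetn (fun n => by
      obtain ⟨s, j, hs1, -⟩ := hgood n
      exact ⟨s, (unitBall_isUnit_iff _).2 hs1⟩)
    ((fun P => map (τ : ℂ →+* PadicAlgCl p) P) '' S) (by
      rintro _ ⟨P, hP, rfl⟩
      obtain ⟨e, he⟩ := hS P hP
      exact ⟨e, he.map_equiv τ⟩)
  have hiff : ∀ n, (∀ P ∈ (fun P => map (τ : ℂ →+* PadicAlgCl p) P) '' S,
      eval (fun i => (((pt (skew2 GO hO))^[n] aO i : unitBall (PadicAlgCl p)) : PadicAlgCl p)) P = 0) ↔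
      ∀ P ∈ S, eval ((pt (skew2 G h))^[n] a) P = 0 := by
    intro n
    have e1 : (fun i => (((pt (skew2 GO hO))^[n] aO i : unitBall (PadicAlgCl p)) :
        PadicAlgCl p)) = fun i => τ ((pt (skew2 G h))^[n] a i) := funext (horb n)
    rw [e1]
    constructor
    · intro h1 P hP
      have h2 := h1 _ ⟨P, hP, rfl⟩
      rw [eval_map_equiv] at h2
      exact (map_eq_zero τ).1 h2
    · rintro h1 _ ⟨P, hP, rfl⟩
      rw [eval_map_equiv, h1 P hP, map_zero]
  simp only [hiff] at hmain
  exact pack _ n0 k hk hmain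

end main

end Pool.Agent.T2H18
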