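import Pool.Agent.T2H18.Skew

set_option autoImplicit false

/-! The return sets of skew products with one-dimensional fibres over etale maps, at a prime. -/

namespace Pool.Agent.T2H18

open MvPolynomial Pool.Agent.H936R2 Pool.Agent.R847.Gap

/-- The lowest coefficient of a polynomial at a small root. -/
lemma coeff_le_root (p : ℕ) [hp : Fact p.Prime] (f : Polynomial (unitBall (PadicAlgCl p)))
    (κ : unitBall (PadicAlgCl p)) (hκ : κ ≠ 0) (j : ℕ) (hj : ∀ i, i < j → f.coeff i = 0)
    (hroot : f.eval κ = 0) :
    ‖((f.coeff j : unitBall (PadicAlgCl p)) : PadicAlgCl p)‖ ≤ ‖(κ : PadicAlgCl p)‖ := by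
  obtain ⟨g, rfl⟩ := Polynomial.X_pow_dvd_iff.2 hj
  rw [Polynomial.eval_mul, Polynomial.eval_pow, Polynomial.eval_X] at hroot
  have h1 : g.eval κ = 0 := (mul_eq_zero.1 hroot).resolve_left (pow_ne_zero _ hκ)
  have h2 : (Polynomial.X ^ j * g).coeff j = g.coeff 0 := by
    have := Polynomial.coeff_X_pow_mul g j 0
    rwa [Nat.zero_add] at this
  rw [h2]
  have h3 := Polynomial.X_mul_divX_add g
  have h4 : g.coeff 0 = -(κ * (g.divX).eval κ) := by
    have h5 := congrArg (Polynomial.eval κ) h3
    rw [Polynomial.eval_add, Polynomial.eval_mul, Polynomial.eval_X, Polynomial.eval_C, h1] at h5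
    linear_combination h5
  rw [h4]
  push_cast
  rw [norm_neg, norm_mul]
  calc _ ≤ ‖(κ : PadicAlgCl p)‖ * 1 :=
        mul_le_mul_of_nonneg_left (unitBall_norm_le _) (norm_nonneg _)
    _ = _ := mul_one _

variable {ι : Type} [Fintype ι] [DecidableEq ι] (p : ℕ) [hp : Fact p.Prime]

theorem skew_padic (G : ι → MvPolynomial ι (unitBall (PadicAlgCl p)))
    (h : MvPolynomial (Option ι) (unitBall (PadicAlgCl p))) (a : Option ι → unitBall (PadicAlgCl p))
    (hdet : ∀ n, IsUnit (jac G ((pt G)^[n] (fun i => a (some i)))).det)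
    (S : Set (MvPolynomial (Option ι) (PadicAlgCl p))) :
    ∃ n0 k : ℕ, 0 < k ∧ ∀ r,
      (∀ t, ∀ P ∈ S, eval (fun i => ((pt (skew G h))^[n0 + r + k * t] a i : PadicAlgCl p)) P = 0) ∨
      ExpSparse {t | ∀ P ∈ S,
        eval (fun i => ((pt (skew G h))^[n0 + r + k * t] a i : PadicAlgCl p)) P = 0} := by
  classical
  have hp0 := norm_p_pos p
  have hp1 := norm_p_lt p
  set F := skew G h with hF
  obtain ⟨n0, k, H, hk, hwin, hH⟩ := exists_window p F a
  obtain ⟨y, hy⟩ := exists_shadow p H hH 0
  set b := (pt F)^[n0] a with hb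
  set π : unitBall (PadicAlgCl p) := (p : unitBall (PadicAlgCl p)) ^ 2 with hπ
  have hit : ∀ (v : Option ι → unitBall (PadicAlgCl p)) t, (pt F)^[k * t] (fun i => b i + π * v i) =
      fun i => b i + π * (pt H)^[t] v i := by
    intro v t
    induction t with
    | zero => funext i; simp
    | succ t ih =>
      rw [Nat.mul_succ, Nat.add_comm, Function.iterate_add_apply, ih, hwin,
        Function.iterate_succ_apply']
  have hb0 : (fun i => b i + π * (0 : Option ι → unitBall (PadicAlgCl p)) i) = b := by
    funext i; simp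
  -- the pulled back polynomials
  let q : ℕ → MvPolynomial (Option ι) (unitBall (PadicAlgCl p)) →
      MvPolynomial (Option ι) (unitBall (PadicAlgCl p)) :=
    fun r P => aeval (fun i => C (b i) + C π * X i) (pullback F r P)
  have hq : ∀ r P v t, valSeq H v (q r P) t = eval ((pt F)^[r + k * t] (fun i => b i + π * v i)) P := by
    intro r P v t
    rw [Function.iterate_add_apply, ← eval_pullback, hit, valSeq]
    simp only [q]
    rw [eval_aeval_poly]
    congr 2
    funext i
    simp
  -- the shadow
  set bs : Option ι → unitBall (PadicAlgCl p) := fun i => b i + π * y i with hbs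
  have hclose : ∀ r t P, ‖((eval ((pt F)^[r + k * t] b) P : unitBall (PadicAlgCl p)) : PadicAlgCl p) -
      eval ((pt F)^[r + k * t] bs) P‖ ≤ ‖(p : PadicAlgCl p)‖ ^ (2 * t) := by
    intro r t P
    have h1 := (hy (q r P)).1 t
    rw [hq, hq, hb0] at h1
    exact h1
  -- the base coordinates agree
  have hbase : ∀ i : ι, bs (some i) = b (some i) := by
    have hbb : (fun i => b (some i)) = (pt G)^[n0] (fun i => a (some i)) := by
      rw [hb, hF]
      exact skew_base G h a n0
    have h1 : ∀ t : ℕ, ∀ i, ‖((bs (some i) : unitBall (PadicAlgCl p)) : PadicAlgCl p) -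
        b (some i)‖ ≤ ‖(p : PadicAlgCl p)‖ ^ (2 * t) := by
      intro t
      refine iso_orbit p G (fun i => bs (some i)) (fun i => b (some i)) ?_ ?_ (k * t) _ ?_
      · intro n
        rw [hbb, ← Function.iterate_add_apply]
        exact hdet _
      · intro i
        have h2 : ((bs (some i) : unitBall (PadicAlgCl p)) : PadicAlgCl p) - b (some i) =
            π * y (some i) := by
          rw [hbs]; push_cast; ring
        rw [h2, norm_mul]
        have h3 : ‖(π : PadicAlgCl p)‖ < 1 := by
          rw [hπ]
          push_cast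
          rw [norm_pow]
          exact pow_lt_one₀ hp0.le hp1 (by norm_num)
        calc _ ≤ ‖(π : PadicAlgCl p)‖ * 1 :=
              mul_le_mul_of_nonneg_left (unitBall_norm_le _) (norm_nonneg _)
          _ < 1 := by rw [mul_one]; exact h3
      · intro i
        have h2 := hclose 0 t (X (some i))
        rw [eval_X, eval_X, Nat.zero_add] at h2
        have h3 := congrFun (skew_base G h bs (k * t)) i
        have h4 := congrFun (skew_base G h b (k * t)) i
        rw [← h3, ← h4, norm_sub_rev]
        exact h2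
    intro i
    apply Subtype.ext
    by_contra hne
    have h2 : 0 < ‖((bs (some i) : unitBall (PadicAlgCl p)) : PadicAlgCl p) - b (some i)‖ :=
      norm_pos_iff.2 (sub_ne_zero.2 hne)
    obtain ⟨m, hm⟩ := exists_pow_lt_of_lt_one h2 hp1
    have h3 := h1 m i
    have h4 : ‖(p : PadicAlgCl p)‖ ^ (2 * m) ≤ ‖(p : PadicAlgCl p)‖ ^ m :=
      pow_le_pow_of_le_one hp0.le hp1.le (by omega)
    linarith
  have hbase' : ∀ m (i : ι), (pt F)^[m] bs (some i) = (pt F)^[m] b (some i) := by
    intro m i
    have h3 := congrFun (skew_base G h bs m) i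
    have h4 := congrFun (skew_base G h b m) i
    rw [hF]
    rw [h3, h4, show (fun i => bs (some i)) = fun i => b (some i) from funext hbase]
  -- the fibre coordinate of the difference
  let κ : ℕ → unitBall (PadicAlgCl p) := fun m => (pt F)^[m] b none - (pt F)^[m] bs none
  have hκ : ∀ m, (pt F)^[m] b = fun i => (pt F)^[m] bs i + i.elim (κ m) fun _ => 0 := by
    intro m
    funext i
    cases i with
    | none => simp [κ]
    | some i => simp [hbase' m i]
  have hκle : ∀ r t, ‖(κ (r + k * t) : PadicAlgCl p)‖ ≤ ‖(p : PadicAlgCl p)‖ ^ (2 * t) := by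
    intro r t
    have h1 := hclose r t (X none)
    rw [eval_X, eval_X] at h1
    have h2 : (κ (r + k * t) : PadicAlgCl p) = ((pt F)^[r + k * t] b none : PadicAlgCl p) -
        (pt F)^[r + k * t] bs none := by simp only [κ]; push_cast; rfl
    rw [h2]
    exact h1
  have hκ0 : ∀ m, κ m = 0 → ∀ l, κ (l + m) = 0 := by
    intro m hm l
    have h1 : (pt F)^[m] b = (pt F)^[m] bs := by
      rw [hκ m, hm]
      funext i
      cases i <;> simp
    simp only [κ]
    rw [Function.iterate_add_apply, Function.iterate_add_apply, h1, sub_self]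
  -- the values
  have hpK : ‖(p : PadicAlgCl p)‖ < 1 := hp1
  choose c Q hc hQ using fun P : MvPolynomial (Option ι) (PadicAlgCl p) => exists_scale p hpK P
  have hval : ∀ m P, eval (fun i => ((pt F)^[m + n0] a i : PadicAlgCl p)) P = 0 ↔
      Polynomial.eval (κ m) ((tay (Q P)).map (eval ((pt F)^[m] bs))) = 0 := by
    intro m P
    rw [tay_eval, ← hκ m, Function.iterate_add_apply, ← hb]
    have h1 := eval_coe ((pt F)^[m] b) (Q P)
    rw [hQ, map_mul, eval_C] at h1
    constructor
    · intro h2
      apply Subtype.ext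
      rw [h1, h2, mul_zero]
      rfl
    · intro h2
      rw [h2] at h1
      exact (mul_eq_zero.1 h1.symm).resolve_left (hc P)
  -- the shift
  obtain ⟨s, hs⟩ : ∃ s, (∀ m, κ (m + s) = 0) ∨ (∀ m, κ (m + s) ≠ 0) := by
    by_cases hex : ∃ m, κ m = 0
    · obtain ⟨m, hm⟩ := hex
      exact ⟨m, Or.inl (hκ0 m hm)⟩
    · push Not at hex
      exact ⟨0, Or.inr fun m => hex _⟩
  refine ⟨n0 + s, k, hk, fun r => ?_⟩
  -- the coefficients
  have hidx : ∀ t, n0 + s + r + k * t = (r + s + k * t) + n0 := fun t => by ring
  have hcoef : ∀ P j t, ((tay (Q P)).map (eval ((pt F)^[r + s + k * t] bs))).coeff j =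
      valSeq H y (q (r + s) ((tay (Q P)).coeff j)) t := by
    intro P j t
    rw [hq, Polynomial.coeff_map]
  simp only [hidx, hval]
  have hκs : ∀ t, κ (r + s + k * t) = κ ((r + k * t) + s) := fun t => by
    congr 1; ring
  have hsmall : ∀ P j, (∃ t, valSeq H y (q (r + s) ((tay (Q P)).coeff j)) t ≠ 0) →
      ExpSparse {t | ‖((valSeq H y (q (r + s) ((tay (Q P)).coeff j)) t : unitBall (PadicAlgCl p)) :
        PadicAlgCl p)‖ ≤ ‖(p : PadicAlgCl p)‖ ^ (2 * t)} := fun P j hne =>
    sparse_small p H y _ (hy _).2 hne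
  rcases hs with hs | hs
  · -- the orbit is analytic
    by_cases hall : ∀ P ∈ S, ∀ t, valSeq H y (q (r + s) ((tay (Q P)).coeff 0)) t = 0
    · left
      intro t P hP
      rw [hκs, hs, ← Polynomial.coeff_zero_eq_eval_zero, hcoef]
      exact hall P hP t
    · right
      push Not at hall
      obtain ⟨P, hP, hne⟩ := hall
      refine (hsmall P 0 hne).mono ?_
      intro t ht
      have h1 := ht P hP
      rw [hκs, hs, ← Polynomial.coeff_zero_eq_eval_zero, hcoef] at h1
      rw [Set.mem_ofPred_eq, h1]
      push_cast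
      rw [norm_zero]
      positivity
  · by_cases hall : ∀ P ∈ S, ∀ j t, valSeq H y (q (r + s) ((tay (Q P)).coeff j)) t = 0
    · left
      intro t P hP
      have h1 : (tay (Q P)).map (eval ((pt F)^[r + s + k * t] bs)) = 0 := by
        ext1 j
        rw [hcoef, hall P hP j t, Polynomial.coeff_zero]
      rw [h1, Polynomial.eval_zero]
    · right
      push Not at hall
      obtain ⟨P, hP, hex⟩ := hall
      -- the first nonzero coefficient
      have hmin := Nat.find_spec hex
      set j := Nat.find hex with hj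
      have hlt : ∀ i, i < j → ∀ t, valSeq H y (q (r + s) ((tay (Q P)).coeff i)) t = 0 := by
        intro i hi t
        by_contra hne
        exact Nat.find_min hex hi ⟨t, hne⟩
      refine (hsmall P j hmin).mono ?_
      intro t ht
      have h1 := ht P hP
      have h2 := coeff_le_root p _ _ (by rw [hκs]; exact hs _) j (by
        intro i hi
        rw [hcoef, hlt i hi t]) h1
      rw [hcoef] at h2
      exact h2.trans (hκle _ _)

end Pool.Agent.T2H18
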