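import Pool.Agent.T2H18.SkewP

set_option autoImplicit false

/-! Skew products with fibres in the projective line over etale maps, at a prime. -/

namespace Pool.Agent.T2H18

open MvPolynomial Pool.Agent.H936R2 Pool.Agent.R847.Gap

section algebra

variable {O : Type} [CommRing O] {ι : Type}

/-- The skew product with fibre coordinates indexed by `Fin 2`. -/
noncomputable def skew2 (G : ι → MvPolynomial ι O) (h : Fin 2 → MvPolynomial (ι ⊕ Fin 2) O) :
    ι ⊕ Fin 2 → MvPolynomial (ι ⊕ Fin 2) O :=
  Sum.elim (fun i => rename Sum.inl (G i)) h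

lemma skew2_base (G : ι → MvPolynomial ι O) (h : Fin 2 → MvPolynomial (ι ⊕ Fin 2) O)
    (a : ι ⊕ Fin 2 → O) (n : ℕ) :
    (fun i => (pt (skew2 G h))^[n] a (Sum.inl i)) = (pt G)^[n] (fun i => a (Sum.inl i)) := by
  induction n with
  | zero => rfl
  | succ n ih =>
    rw [Function.iterate_succ_apply', Function.iterate_succ_apply', ← ih]
    funext i
    simp only [pt, skew2, Sum.elim_inl]
    rw [eval_rename]
    rfl

/-- A form of degree `e` in the fibre coordinates. -/
def FForm (P : MvPolynomial (ι ⊕ Fin 2) O) (e : ℕ) : Prop :=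
  ∀ (t : O) (x : ι → O) (v : Fin 2 → O),
    eval (Sum.elim x fun s => t * v s) P = t ^ e * eval (Sum.elim x v) P

/-- Dehomogenization with respect to the fibre coordinate `s`. -/
noncomputable def deh (s : Fin 2) :
    MvPolynomial (ι ⊕ Fin 2) O →+* Polynomial (MvPolynomial ι O) :=
  eval₂Hom (Polynomial.C.comp C)
    (Sum.elim (fun i => Polynomial.C (X i)) fun s' => if s' = s then 1 else Polynomial.X)

lemma deh_eval (s : Fin 2) (P : MvPolynomial (ι ⊕ Fin 2) O) (x : ι → O) (t : O) :
    Polynomial.eval t ((deh s P).map (eval x)) =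
      eval (Sum.elim x fun s' => if s' = s then 1 else t) P := by
  induction P using MvPolynomial.induction_on with
  | C a => simp [deh]
  | add p q hp hq => rw [map_add, Polynomial.map_add, Polynomial.eval_add, hp, hq, map_add]
  | mul_X p i hp =>
    rw [map_mul, Polynomial.map_mul, Polynomial.eval_mul, hp, map_mul, eval_X]
    congr 1
    rcases i with i | i
    · simp [deh]
    · by_cases h : i = s
      · simp [deh, h]
      · simp [deh, h]

/-- Homogenization. -/
noncomputable def homog (s : Fin 2) (D : ℕ) (g : Polynomial (MvPolynomial ι O)) :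
    MvPolynomial (ι ⊕ Fin 2) O :=
  ∑ i ∈ Finset.range (D + 1),
    rename Sum.inl (g.coeff i) * X (Sum.inr (s + 1)) ^ i * X (Sum.inr s) ^ (D - i)

lemma homog_eval (s : Fin 2) (D : ℕ) (g : Polynomial (MvPolynomial ι O)) (hg : g.natDegree ≤ D)
    (x : ι → O) (v : Fin 2 → O) (t : O) (ht : v (s + 1) = t * v s) :
    eval (Sum.elim x v) (homog s D g) = v s ^ D * Polynomial.eval t (g.map (eval x)) := by
  rw [homog, map_sum, Polynomial.eval_eq_sum_range' (n := D + 1)
    (lt_of_le_of_lt Polynomial.natDegree_map_le (Nat.lt_succ_of_le hg)), Finset.mul_sum]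
  apply Finset.sum_congr rfl
  intro i hi
  rw [Finset.mem_range] at hi
  rw [map_mul, map_mul, map_pow, map_pow, eval_X, eval_X, eval_rename, Polynomial.coeff_map]
  simp only [Sum.elim_inr, ht]
  have h1 : (Sum.elim x v ∘ Sum.inl) = x := rfl
  have h2 : v s ^ D = v s ^ i * v s ^ (D - i) := by rw [← pow_add]; congr 1; omega
  rw [h1, h2]
  ring

lemma fin2_add_one_ne (s : Fin 2) : s + 1 ≠ s := by
  fin_cases s <;> decide

lemma fin2_cases (s s' : Fin 2) : s' = s ∨ s' = s + 1 := by
  fin_cases s <;> fin_cases s' <;> decide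

/-- The value of a form through the dehomogenization. -/
lemma form_eval (s : Fin 2) (P : MvPolynomial (ι ⊕ Fin 2) O) (e : ℕ) (hP : FForm P e)
    (x : ι → O) (v : Fin 2 → O) (t : O) (ht : v (s + 1) = t * v s) :
    eval (Sum.elim x v) P = v s ^ e * Polynomial.eval t ((deh s P).map (eval x)) := by
  rw [deh_eval, ← hP]
  have h1 : (fun s' => v s * (if s' = s then 1 else t)) = v := by
    funext s'
    rcases fin2_cases s s' with rfl | rfl
    · simp
    · rw [if_neg (fin2_add_one_ne s), ht]
      ring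
  rw [h1]

end algebra

variable {ι : Type} [Fintype ι] [DecidableEq ι] (p : ℕ) [hp : Fact p.Prime]

theorem skew2_padic (G : ι → MvPolynomial ι (unitBall (PadicAlgCl p)))
    (h : Fin 2 → MvPolynomial (ι ⊕ Fin 2) (unitBall (PadicAlgCl p))) (d : ℕ)
    (hh : ∀ s, FForm (h s) d)
    (a : ι ⊕ Fin 2 → unitBall (PadicAlgCl p))
    (hdet : ∀ n, IsUnit (jac G ((pt G)^[n] (fun i => a (Sum.inl i)))).det)
    (hprim : ∀ n, ∃ s : Fin 2, IsUnit ((pt (skew2 G h))^[n] a (Sum.inr s)))
    (S : Set (MvPolynomial (ι ⊕ Fin 2) (PadicAlgCl p))) (hS : ∀ P ∈ S, ∃ e, FForm P e) :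
    ∃ n0 k : ℕ, 0 < k ∧ ∀ r,
      (∀ t, ∀ P ∈ S, eval (fun i => ((pt (skew2 G h))^[n0 + r + k * t] a i : PadicAlgCl p)) P = 0) ∨
      ExpSparse {t | ∀ P ∈ S,
        eval (fun i => ((pt (skew2 G h))^[n0 + r + k * t] a i : PadicAlgCl p)) P = 0} := by
  classical
  have hp0 := norm_p_pos p
  have hp1 := norm_p_lt p
  set F := skew2 G h with hF
  obtain ⟨n0, k, H, hk, hwin, hH⟩ := exists_window p F a
  obtain ⟨y, hy⟩ := exists_shadow p H hH 0
  set b := (pt F)^[n0] a with hb
  set π : unitBall (PadicAlgCl p) := (p : unitBall (PadicAlgCl p)) ^ 2 with hπ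
  have hπ1 : ‖(π : PadicAlgCl p)‖ < 1 := by
    rw [hπ]
    push_cast
    rw [norm_pow]
    exact pow_lt_one₀ hp0.le hp1 (by norm_num)
  have hit : ∀ (v : ι ⊕ Fin 2 → unitBall (PadicAlgCl p)) t,
      (pt F)^[k * t] (fun i => b i + π * v i) = fun i => b i + π * (pt H)^[t] v i := by
    intro v t
    induction t with
    | zero => funext i; simp
    | succ t ih =>
      rw [Nat.mul_succ, Nat.add_comm, Function.iterate_add_apply, ih, hwin,
        Function.iterate_succ_apply']
  have hb0 : (fun i => b i + π * (0 : ι ⊕ Fin 2 → unitBall (PadicAlgCl p)) i) = b := by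
    funext i; simp
  -- the pulled back polynomials
  let q : ℕ → MvPolynomial (ι ⊕ Fin 2) (unitBall (PadicAlgCl p)) →
      MvPolynomial (ι ⊕ Fin 2) (unitBall (PadicAlgCl p)) :=
    fun r P => aeval (fun i => C (b i) + C π * X i) (pullback F r P)
  have hq : ∀ r P v t, valSeq H v (q r P) t =
      eval ((pt F)^[r + k * t] (fun i => b i + π * v i)) P := by
    intro r P v t
    rw [Function.iterate_add_apply, ← eval_pullback, hit, valSeq]
    simp only [q]
    rw [eval_aeval_poly]
    congr 2
    funext i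
    simp
  -- the shadow
  set bs : ι ⊕ Fin 2 → unitBall (PadicAlgCl p) := fun i => b i + π * y i with hbs
  have hclose : ∀ r t P, ‖((eval ((pt F)^[r + k * t] b) P : unitBall (PadicAlgCl p)) :
      PadicAlgCl p) - eval ((pt F)^[r + k * t] bs) P‖ ≤ ‖(p : PadicAlgCl p)‖ ^ (2 * t) := by
    intro r t P
    have h1 := (hy (q r P)).1 t
    rw [hq, hq, hb0] at h1
    exact h1
  have hbsb : ∀ i, ‖((bs i : unitBall (PadicAlgCl p)) : PadicAlgCl p) - b i‖ ≤
      ‖(π : PadicAlgCl p)‖ := by
    intro i
    have h2 : ((bs i : unitBall (PadicAlgCl p)) : PadicAlgCl p) - b i = π * y i := by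
      rw [hbs]; push_cast; ring
    rw [h2, norm_mul]
    calc _ ≤ ‖(π : PadicAlgCl p)‖ * 1 :=
          mul_le_mul_of_nonneg_left (unitBall_norm_le _) (norm_nonneg _)
      _ = _ := mul_one _
  have hlip : ∀ m i, ‖(((pt F)^[m] bs i : unitBall (PadicAlgCl p)) : PadicAlgCl p) -
      (pt F)^[m] b i‖ ≤ ‖(π : PadicAlgCl p)‖ := by
    intro m
    induction m with
    | zero => exact hbsb
    | succ m ih =>
      intro i
      rw [Function.iterate_succ_apply', Function.iterate_succ_apply']
      exact lip_eval p (F i) _ _ _ (norm_nonneg _) ih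
  -- the base coordinates agree
  have hbase : ∀ i : ι, bs (Sum.inl i) = b (Sum.inl i) := by
    have hbb : (fun i => b (Sum.inl i)) = (pt G)^[n0] (fun i => a (Sum.inl i)) := by
      rw [hb, hF]
      exact skew2_base G h a n0
    have h1 : ∀ t : ℕ, ∀ i, ‖((bs (Sum.inl i) : unitBall (PadicAlgCl p)) : PadicAlgCl p) -
        b (Sum.inl i)‖ ≤ ‖(p : PadicAlgCl p)‖ ^ (2 * t) := by
      intro t
      refine iso_orbit p G (fun i => bs (Sum.inl i)) (fun i => b (Sum.inl i)) ?_ ?_ (k * t) _ ?_
      · intro n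
        rw [hbb, ← Function.iterate_add_apply]
        exact hdet _
      · intro i
        exact (hbsb _).trans_lt hπ1
      · intro i
        have h2 := hclose 0 t (X (Sum.inl i))
        rw [eval_X, eval_X, Nat.zero_add] at h2
        have h3 := congrFun (skew2_base G h bs (k * t)) i
        have h4 := congrFun (skew2_base G h b (k * t)) i
        rw [← h3, ← h4, norm_sub_rev]
        exact h2
    intro i
    apply Subtype.ext
    by_contra hne
    have h2 : 0 < ‖((bs (Sum.inl i) : unitBall (PadicAlgCl p)) : PadicAlgCl p) - b (Sum.inl i)‖ :=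
      norm_pos_iff.2 (sub_ne_zero.2 hne)
    obtain ⟨m, hm⟩ := exists_pow_lt_of_lt_one h2 hp1
    have h3 := h1 m i
    have h4 : ‖(p : PadicAlgCl p)‖ ^ (2 * m) ≤ ‖(p : PadicAlgCl p)‖ ^ m :=
      pow_le_pow_of_le_one hp0.le hp1.le (by omega)
    linarith
  have hbase' : ∀ m (i : ι), (pt F)^[m] bs (Sum.inl i) = (pt F)^[m] b (Sum.inl i) := by
    intro m i
    have h3 := congrFun (skew2_base G h bs m) i
    have h4 := congrFun (skew2_base G h b m) i
    rw [hF]
    rw [h3, h4, show (fun i => bs (Sum.inl i)) = fun i => b (Sum.inl i) from funext hbase]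
  -- coordinates
  let xx : ℕ → ι → unitBall (PadicAlgCl p) := fun m i => (pt F)^[m] b (Sum.inl i)
  let vv : ℕ → Fin 2 → unitBall (PadicAlgCl p) := fun m s => (pt F)^[m] b (Sum.inr s)
  let vs : ℕ → Fin 2 → unitBall (PadicAlgCl p) := fun m s => (pt F)^[m] bs (Sum.inr s)
  have hbel : ∀ m, (pt F)^[m] b = Sum.elim (xx m) (vv m) := by
    intro m; funext i; cases i <;> rfl
  have hbsel : ∀ m, (pt F)^[m] bs = Sum.elim (xx m) (vs m) := by
    intro m; funext i
    cases i with
    | inl i => exact hbase' m i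
    | inr i => rfl
  -- units
  have hunit : ∀ m s, IsUnit (vv m s) ↔ IsUnit (vs m s) := by
    intro m s
    have h1 := hlip m (Sum.inr s)
    rw [unitBall_isUnit_iff, unitBall_isUnit_iff]
    have h2 : ‖((vs m s : unitBall (PadicAlgCl p)) : PadicAlgCl p) - vv m s‖ < 1 :=
      h1.trans_lt hπ1
    constructor
    · intro h3
      have h4 : ((vs m s : unitBall (PadicAlgCl p)) : PadicAlgCl p) =
        (vs m s - vv m s) + vv m s := by ring
      rw [h4]
      rw [IsUltrametricDist.norm_add_eq_max_of_norm_ne_norm (by rw [h3]; exact h2.ne), h3]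
      exact max_eq_right h2.le
    · intro h3
      have h4 : ((vv m s : unitBall (PadicAlgCl p)) : PadicAlgCl p) =
        -(vs m s - vv m s) + vs m s := by ring
      rw [h4]
      rw [IsUltrametricDist.norm_add_eq_max_of_norm_ne_norm (by
        rw [h3, norm_neg]; exact h2.ne), h3, norm_neg]
      exact max_eq_right h2.le
  have hprim' : ∀ m, ∃ s : Fin 2, IsUnit (vv m s) := by
    intro m
    obtain ⟨s, hs⟩ := hprim (m + n0)
    rw [Function.iterate_add_apply] at hs
    exact ⟨s, hs⟩
  -- units are constant along progressions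
  have hprog : ∀ r t s, IsUnit (vv r s) → IsUnit (vv (r + k * t) s) := by
    intro r t s hs
    have h1 : ∀ m i, ‖(((pt F)^[m] ((pt F)^[k * t] b) i : unitBall (PadicAlgCl p)) : PadicAlgCl p) -
        (pt F)^[m] b i‖ ≤ ‖(π : PadicAlgCl p)‖ := by
      intro m
      induction m with
      | zero =>
        intro i
        have h2 := congrFun (hit 0 t) i
        rw [hb0] at h2
        simp only [Function.iterate_zero, id_eq]
        rw [h2]
        have h3 : ((b i + π * (pt H)^[t] 0 i : unitBall (PadicAlgCl p)) : PadicAlgCl p) - b i =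
            π * (pt H)^[t] 0 i := by push_cast; ring
        rw [h3, norm_mul]
        calc _ ≤ ‖(π : PadicAlgCl p)‖ * 1 :=
              mul_le_mul_of_nonneg_left (unitBall_norm_le _) (norm_nonneg _)
          _ = _ := mul_one _
      | succ m ih =>
        intro i
        rw [Function.iterate_succ_apply', Function.iterate_succ_apply']
        exact lip_eval p (F i) _ _ _ (norm_nonneg _) ih
    have h2 := h1 r (Sum.inr s)
    rw [← Function.iterate_add_apply] at h2
    rw [unitBall_isUnit_iff] at hs ⊢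
    have h3 : ‖((vv (r + k * t) s : unitBall (PadicAlgCl p)) : PadicAlgCl p) - vv r s‖ < 1 :=
      h2.trans_lt hπ1
    have h4 : ((vv (r + k * t) s : unitBall (PadicAlgCl p)) : PadicAlgCl p) =
        (vv (r + k * t) s - vv r s) + vv r s := by ring
    rw [h4]
    rw [IsUltrametricDist.norm_add_eq_max_of_norm_ne_norm (by rw [hs]; exact h3.ne), hs]
    exact max_eq_right h3.le
  -- the cross product
  let δ : ℕ → unitBall (PadicAlgCl p) := fun m => vv m 0 * vs m 1 - vv m 1 * vs m 0
  have hδ0 : ∀ m, δ m = 0 → δ (m + 1) = 0 := by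
    intro m hm
    obtain ⟨s, hs⟩ := hprim' m
    have hs' := (hunit m s).1 hs
    obtain ⟨u, hu⟩ := hs'
    set lam : unitBall (PadicAlgCl p) := vv m s * ↑u⁻¹ with hlam
    have hus : vs m s * ↑u⁻¹ = 1 := by rw [← hu]; exact u.mul_inv
    have hcross : ∀ s', vv m s' * vs m s = vv m s * vs m s' := by
      intro s'
      have hm' : vv m 0 * vs m 1 = vv m 1 * vs m 0 := sub_eq_zero.1 hm
      fin_cases s <;> fin_cases s'
      · rfl
      · exact hm'.symm
      · exact hm'
      · rfl
    have hv : ∀ s', vv m s' = lam * vs m s' := by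
      intro s'
      rw [hlam]
      calc vv m s' = vv m s' * (vs m s * ↑u⁻¹) := by rw [hus, mul_one]
        _ = (vv m s' * vs m s) * ↑u⁻¹ := by ring
        _ = (vv m s * vs m s') * ↑u⁻¹ := by rw [hcross]
        _ = vv m s * ↑u⁻¹ * vs m s' := by ring
    have hnext : ∀ s', vv (m + 1) s' = lam ^ d * vs (m + 1) s' := by
      intro s'
      have h1 : vv (m + 1) s' = eval (Sum.elim (xx m) (vv m)) (h s') := by
        change (pt F)^[m + 1] b (Sum.inr s') = _
        rw [Function.iterate_succ_apply', hbel]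
        rfl
      have h2 : vs (m + 1) s' = eval (Sum.elim (xx m) (vs m)) (h s') := by
        change (pt F)^[m + 1] bs (Sum.inr s') = _
        rw [Function.iterate_succ_apply', hbsel]
        rfl
      rw [h1, h2, ← hh s' lam (xx m) (vs m), show vv m = fun s => lam * vs m s from funext hv]
    simp only [δ]
    rw [hnext, hnext]
    ring
  have hδ0' : ∀ m, δ m = 0 → ∀ l, δ (l + m) = 0 := by
    intro m hm l
    induction l with
    | zero => rwa [Nat.zero_add]
    | succ l ih =>
      have : l + 1 + m = l + m + 1 := by ring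
      rw [this]
      exact hδ0 _ ih
  -- the shift
  obtain ⟨s0, hs0⟩ : ∃ s, (∀ m, δ (m + s) = 0) ∨ (∀ m, δ (m + s) ≠ 0) := by
    by_cases hex : ∃ m, δ m = 0
    · obtain ⟨m, hm⟩ := hex
      exact ⟨m, Or.inl (hδ0' m hm)⟩
    · push Not at hex
      exact ⟨0, Or.inr fun m => hex _⟩
  refine ⟨n0 + s0, k, hk, fun r => ?_⟩
  have hidx : ∀ t, n0 + s0 + r + k * t = (r + s0 + k * t) + n0 := fun t => by ring
  -- the unit coordinate of the class
  obtain ⟨s, hs⟩ := hprim' (r + s0)
  have hsv : ∀ t, IsUnit (vv (r + s0 + k * t) s) := fun t => hprog _ t s hs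
  have hss : ∀ t, IsUnit (vs (r + s0 + k * t) s) := fun t => (hunit _ s).1 (hsv t)
  choose u hu using hsv
  choose us hus using hss
  let tt : ℕ → unitBall (PadicAlgCl p) := fun t => vv (r + s0 + k * t) (s + 1) * ↑(u t)⁻¹
  let ts : ℕ → unitBall (PadicAlgCl p) := fun t => vs (r + s0 + k * t) (s + 1) * ↑(us t)⁻¹
  have htt : ∀ t, vv (r + s0 + k * t) (s + 1) = tt t * vv (r + s0 + k * t) s := by
    intro t
    simp only [tt]
    rw [← hu t, mul_assoc, Units.inv_mul, mul_one]
  have hts : ∀ t, vs (r + s0 + k * t) (s + 1) = ts t * vs (r + s0 + k * t) s := by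
    intro t
    simp only [ts]
    rw [← hus t, mul_assoc, Units.inv_mul, mul_one]
  let κ : ℕ → unitBall (PadicAlgCl p) := fun t => tt t - ts t
  have hκδ : ∀ t, κ t * (vv (r + s0 + k * t) s * vs (r + s0 + k * t) s) =
      vv (r + s0 + k * t) (s + 1) * vs (r + s0 + k * t) s -
        vv (r + s0 + k * t) s * vs (r + s0 + k * t) (s + 1) := by
    intro t
    rw [htt t, hts t]
    simp only [κ]
    ring
  have hκδ' : ∀ t, κ t * (vv (r + s0 + k * t) s * vs (r + s0 + k * t) s) = δ (r + s0 + k * t) ∨
      κ t * (vv (r + s0 + k * t) s * vs (r + s0 + k * t) s) = -δ (r + s0 + k * t) := by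
    intro t
    rw [hκδ]
    simp only [δ]
    fin_cases s
    · right
      simp only [Fin.zero_eta, zero_add]
      ring
    · left
      have h1 : ((⟨1, by norm_num⟩ : Fin 2) + 1) = 0 := by decide
      rw [h1]
      simp only [Fin.mk_one]
  have hunits : ∀ t, vv (r + s0 + k * t) s * vs (r + s0 + k * t) s ≠ 0 := by
    intro t
    rw [← hu t, ← hus t]
    exact mul_ne_zero (u t).ne_zero (us t).ne_zero
  have hκ0 : ∀ t, κ t = 0 ↔ δ (r + s0 + k * t) = 0 := by
    intro t
    rcases hκδ' t with h1 | h1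
    · rw [← h1]
      constructor
      · intro h2; rw [h2, zero_mul]
      · intro h2; exact (mul_eq_zero.1 h2).resolve_right (hunits t)
    · rw [← neg_eq_zero (a := δ (r + s0 + k * t)), ← h1]
      constructor
      · intro h2; rw [h2, zero_mul]
      · intro h2; exact (mul_eq_zero.1 h2).resolve_right (hunits t)
  have hκle : ∀ t, ‖(κ t : PadicAlgCl p)‖ ≤ ‖(p : PadicAlgCl p)‖ ^ (2 * t) := by
    intro t
    have h1 := congrArg (fun z : unitBall (PadicAlgCl p) => ‖(z : PadicAlgCl p)‖) (hκδ t)
    have h2 : ‖((vv (r + s0 + k * t) s : unitBall (PadicAlgCl p)) : PadicAlgCl p)‖ = 1 := by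
      rw [← hu t]; exact (unitBall_isUnit_iff _).1 (u t).isUnit
    have h3 : ‖((vs (r + s0 + k * t) s : unitBall (PadicAlgCl p)) : PadicAlgCl p)‖ = 1 := by
      rw [← hus t]; exact (unitBall_isUnit_iff _).1 (us t).isUnit
    push_cast at h1
    rw [norm_mul, norm_mul, h2, h3, mul_one, mul_one] at h1
    rw [h1]
    have h4 := hclose (r + s0) t (X (Sum.inr (s + 1)))
    have h5 := hclose (r + s0) t (X (Sum.inr s))
    rw [eval_X, eval_X] at h4 h5
    have h6 : ((vv (r + s0 + k * t) (s + 1) : unitBall (PadicAlgCl p)) : PadicAlgCl p) *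
        vs (r + s0 + k * t) s - vv (r + s0 + k * t) s * vs (r + s0 + k * t) (s + 1) =
        (vv (r + s0 + k * t) (s + 1) - vs (r + s0 + k * t) (s + 1)) * vs (r + s0 + k * t) s +
        -(vs (r + s0 + k * t) (s + 1) * (vv (r + s0 + k * t) s - vs (r + s0 + k * t) s)) := by
      ring
    rw [h6]
    refine (IsUltrametricDist.norm_add_le_max _ _).trans (max_le ?_ ?_)
    · rw [norm_mul, h3, mul_one]
      exact h4
    · rw [norm_neg, norm_mul]
      calc _ ≤ 1 * ‖(p : PadicAlgCl p)‖ ^ (2 * t) :=
            mul_le_mul (unitBall_norm_le _) h5 (norm_nonneg _) zero_le_one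
        _ = _ := one_mul _
  -- the values
  have hpK : ‖(p : PadicAlgCl p)‖ < 1 := hp1
  choose c Q hc hQ using fun P : MvPolynomial (ι ⊕ Fin 2) (PadicAlgCl p) => exists_scale p hpK P
  have hQform : ∀ P ∈ S, ∃ e, FForm (Q P) e := by
    intro P hP
    obtain ⟨e, he⟩ := hS P hP
    refine ⟨e, fun t x v => ?_⟩
    apply Subtype.ext
    have h1 : ∀ z : ι ⊕ Fin 2 → unitBall (PadicAlgCl p),
        ((eval z (Q P) : unitBall (PadicAlgCl p)) : PadicAlgCl p) =
          c P * eval (fun i => (z i : PadicAlgCl p)) P := by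
      intro z
      rw [eval_coe, hQ, map_mul, eval_C]
    push_cast
    rw [h1, h1]
    have h2 : (fun i => ((Sum.elim x (fun s => t * v s) i : unitBall (PadicAlgCl p)) :
        PadicAlgCl p)) = Sum.elim (fun i => (x i : PadicAlgCl p))
          fun s => (t : PadicAlgCl p) * (v s : PadicAlgCl p) := by
      funext i; cases i <;> simp
    have h3 : (fun i => ((Sum.elim x v i : unitBall (PadicAlgCl p)) : PadicAlgCl p)) =
        Sum.elim (fun i => (x i : PadicAlgCl p)) fun s => (v s : PadicAlgCl p) := by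
      funext i; cases i <;> simp
    rw [h2, h3, he]
    ring
  let f : MvPolynomial (ι ⊕ Fin 2) (PadicAlgCl p) →
      Polynomial (MvPolynomial ι (unitBall (PadicAlgCl p))) := fun P => deh s (Q P)
  let D : MvPolynomial (ι ⊕ Fin 2) (PadicAlgCl p) → ℕ := fun P => (f P).natDegree
  let R : MvPolynomial (ι ⊕ Fin 2) (PadicAlgCl p) → ℕ →
      MvPolynomial (ι ⊕ Fin 2) (unitBall (PadicAlgCl p)) :=
    fun P j => homog s (D P) (Polynomial.hasseDeriv j (f P))
  -- the polynomial in the small parameter
  let g : MvPolynomial (ι ⊕ Fin 2) (PadicAlgCl p) → ℕ → Polynomial (unitBall (PadicAlgCl p)) :=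
    fun P t => Polynomial.C (vs (r + s0 + k * t) s ^ D P) *
      Polynomial.taylor (ts t) ((f P).map (eval (xx (r + s0 + k * t))))
  have hval : ∀ P ∈ S, ∀ t, eval (fun i => ((pt F)^[r + s0 + k * t + n0] a i : PadicAlgCl p)) P = 0 ↔
      (g P t).eval (κ t) = 0 := by
    intro P hP t
    obtain ⟨e, he⟩ := hQform P hP
    rw [Function.iterate_add_apply, ← hb]
    have h1 := eval_coe ((pt F)^[r + s0 + k * t] b) (Q P)
    rw [hQ, map_mul, eval_C] at h1
    have h2 : eval ((pt F)^[r + s0 + k * t] b) (Q P) = vv (r + s0 + k * t) s ^ e *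
        Polynomial.eval (tt t) ((f P).map (eval (xx (r + s0 + k * t)))) := by
      rw [hbel]
      exact form_eval s (Q P) e he _ _ _ (htt t)
    have h3 : (g P t).eval (κ t) = vs (r + s0 + k * t) s ^ D P *
        Polynomial.eval (tt t) ((f P).map (eval (xx (r + s0 + k * t)))) := by
      simp only [g, κ]
      rw [Polynomial.eval_mul, Polynomial.eval_C, Polynomial.taylor_eval, sub_add_cancel]
    have hv0 : vv (r + s0 + k * t) s ^ e ≠ 0 := by
      rw [← hu t]; exact pow_ne_zero _ (u t).ne_zero
    have hv1 : vs (r + s0 + k * t) s ^ D P ≠ 0 := by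
      rw [← hus t]; exact pow_ne_zero _ (us t).ne_zero
    rw [h3]
    constructor
    · intro h4
      rw [h4, mul_zero] at h1
      have h5 : eval ((pt F)^[r + s0 + k * t] b) (Q P) = 0 := Subtype.ext h1
      rw [h2] at h5
      rw [(mul_eq_zero.1 h5).resolve_left hv0, mul_zero]
    · intro h4
      have h5 := (mul_eq_zero.1 h4).resolve_left hv1
      rw [h2, h5, mul_zero] at h1
      exact (mul_eq_zero.1 h1.symm).resolve_left (hc P)
  have hcoef : ∀ P j t, (g P t).coeff j = valSeq H y (q (r + s0) (R P j)) t := by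
    intro P j t
    rw [hq, ← hbs, hbsel]
    simp only [R, g]
    rw [homog_eval s (D P) _ (by
      refine (Polynomial.natDegree_hasseDeriv_le _ _).trans (Nat.sub_le _ _)) _ _ _ (hts t)]
    rw [Polynomial.coeff_C_mul, Polynomial.taylor_coeff]
    congr 2
    ext1 i
    rw [Polynomial.coeff_map, Polynomial.hasseDeriv_coeff, Polynomial.hasseDeriv_coeff,
      Polynomial.coeff_map, map_mul, map_natCast]
  simp only [hidx]
  have hsmall : ∀ P j, (∃ t, valSeq H y (q (r + s0) (R P j)) t ≠ 0) →
      ExpSparse {t | ‖((valSeq H y (q (r + s0) (R P j)) t : unitBall (PadicAlgCl p)) :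
        PadicAlgCl p)‖ ≤ ‖(p : PadicAlgCl p)‖ ^ (2 * t)} := fun P j hne =>
    sparse_small p H y _ (hy _).2 hne
  have hκs : ∀ t, r + s0 + k * t = (r + k * t) + s0 := fun t => by ring
  rcases hs0 with hs0 | hs0
  · -- the orbit is analytic
    have hκz : ∀ t, κ t = 0 := fun t => by
      rw [hκ0, hκs]
      exact hs0 _
    by_cases hall : ∀ P ∈ S, ∀ t, valSeq H y (q (r + s0) (R P 0)) t = 0
    · left
      intro t P hP
      rw [hval P hP, hκz, ← Polynomial.coeff_zero_eq_eval_zero, hcoef]
      exact hall P hP t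
    · right
      push Not at hall
      obtain ⟨P, hP, hne⟩ := hall
      refine (hsmall P 0 hne).mono ?_
      intro t ht
      have h1 := (hval P hP t).1 (ht P hP)
      rw [hκz, ← Polynomial.coeff_zero_eq_eval_zero, hcoef] at h1
      rw [Set.mem_ofPred_eq, h1]
      push_cast
      rw [norm_zero]
      positivity
  · by_cases hall : ∀ P ∈ S, ∀ j t, valSeq H y (q (r + s0) (R P j)) t = 0
    · left
      intro t P hP
      have h1 : g P t = 0 := by
        ext1 j
        rw [hcoef, hall P hP j t, Polynomial.coeff_zero]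
      rw [hval P hP, h1, Polynomial.eval_zero]
    · right
      push Not at hall
      obtain ⟨P, hP, hex⟩ := hall
      -- the first nonzero coefficient
      have hmin := Nat.find_spec hex
      set j := Nat.find hex with hj
      have hlt : ∀ i, i < j → ∀ t, valSeq H y (q (r + s0) (R P i)) t = 0 := by
        intro i hi t
        by_contra hne
        exact Nat.find_min hex hi ⟨t, hne⟩
      refine (hsmall P j hmin).mono ?_
      intro t ht
      have h1 := (hval P hP t).1 (ht P hP)
      have h2 := coeff_le_root p (g P t) (κ t) (by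
        rw [Ne, hκ0, hκs]
        exact hs0 _) j (by
        intro i hi
        rw [hcoef, hlt i hi t]) h1
      rw [hcoef] at h2
      exact h2.trans (hκle _)

end Pool.Agent.T2H18
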