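import Pool.Agent.T2H18.Num

set_option autoImplicit false

/-! A sequence of `b`-integral elements of slow height growth whose differences are highly
divisible by `p` is eventually polynomial. -/

namespace Pool.Agent.T2H18

open NumberField Height Filter

/-- A sequence with vanishing differences is eventually polynomial. -/
lemma poly_of_diff (K : Type) [Field K] [CharZero K] (s : ℕ → K) (m1 : ℕ)
    (h : ∀ m, m1 ≤ m → (fwdDiff 1)^[m1] s m = 0) :
    ∃ Q : Polynomial K, ∀ m, m1 ≤ m → s m = Q.eval (m : K) := by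
  have hz : ∀ j, m1 ≤ j → (fwdDiff 1)^[j] s m1 = 0 := by
    have h1 : ∀ i m, m1 ≤ m → (fwdDiff 1)^[m1 + i] s m = 0 := by
      intro i
      induction i with
      | zero => intro m hm; exact h m hm
      | succ i ih =>
        intro m hm
        rw [← Nat.add_assoc, Function.iterate_succ_apply']
        simp only [fwdDiff]
        rw [ih m hm, ih (m + 1) (by omega), sub_zero]
    intro j hj
    obtain ⟨i, rfl⟩ : ∃ i, j = m1 + i := ⟨j - m1, by omega⟩
    exact h1 i m1 le_rfl
  let D : ℕ → Polynomial K := fun k => (descPochhammer K k)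
  refine ⟨(∑ j ∈ Finset.range m1, Polynomial.C ((fwdDiff 1)^[j] s m1 / (j.factorial : K)) *
    D j).comp (Polynomial.X - Polynomial.C (m1 : K)), fun m hm => ?_⟩
  obtain ⟨i, rfl⟩ : ∃ i, m = m1 + i := ⟨m - m1, by omega⟩
  have h1 := shift_eq_sum_fwdDiff_iter (1 : ℕ) s i m1
  rw [smul_eq_mul, mul_one] at h1
  rw [h1, Polynomial.eval_comp]
  have h2 : Polynomial.eval ((m1 + i : ℕ) : K) (Polynomial.X - Polynomial.C (m1 : K)) = (i : K) := by
    simp
  rw [h2, Polynomial.eval_finsetSum]
  have h3 : ∀ j, i.choose j • (fwdDiff 1)^[j] s m1 =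
      Polynomial.eval (i : K) (Polynomial.C ((fwdDiff 1)^[j] s m1 / (j.factorial : K)) * D j) := by
    intro j
    have h4 : Polynomial.eval (i : K) (D j) = (j.factorial : K) * (i.choose j : K) := by
      simp only [D]
      rw [descPochhammer_eval_eq_descFactorial, Nat.descFactorial_eq_factorial_mul_choose]
      push_cast
      ring
    have h5 : (j.factorial : K) ≠ 0 := Nat.cast_ne_zero.2 (Nat.factorial_ne_zero j)
    rw [Polynomial.eval_mul, Polynomial.eval_C, h4, nsmul_eq_mul]
    field_simp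
  rw [Finset.sum_congr rfl fun j _ => h3 j]
  -- compare the two sums
  have hA : ∀ j, i + 1 ≤ j →
      Polynomial.eval (i : K) (Polynomial.C ((fwdDiff 1)^[j] s m1 / (j.factorial : K)) * D j) = 0 := by
    intro j hj
    rw [← h3, Nat.choose_eq_zero_of_lt (by omega), zero_smul]
  have hB : ∀ j, m1 ≤ j →
      Polynomial.eval (i : K) (Polynomial.C ((fwdDiff 1)^[j] s m1 / (j.factorial : K)) * D j) = 0 := by
    intro j hj
    rw [← h3, hz j hj, smul_zero]
  rcases le_total (i + 1) m1 with hle | hle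
  · apply Finset.sum_subset (Finset.range_subset_range.2 hle)
    intro j _ hj
    rw [Finset.mem_range, not_lt] at hj
    exact hA j hj
  · symm
    apply Finset.sum_subset (Finset.range_subset_range.2 hle)
    intro j _ hj
    rw [Finset.mem_range, not_lt] at hj
    exact hB j hj

/-- Sizes of differences. -/
lemma norm_diff_le (s : ℕ → ℂ) (j m : ℕ) (B : ℝ) (hB : ∀ i, i ≤ j → ‖s (m + i)‖ ≤ B) :
    ‖(fwdDiff 1)^[j] s m‖ ≤ 2 ^ j * B := by
  rw [fwdDiff_iter_eq_sum_shift]
  refine (norm_sum_le _ _).trans ?_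
  have h1 : ∀ i ∈ Finset.range (j + 1),
      ‖((-1 : ℤ) ^ (j - i) * (j.choose i : ℤ)) • s (m + i • 1)‖ ≤ (j.choose i : ℝ) * B := by
    intro i hi
    rw [Finset.mem_range] at hi
    rw [zsmul_eq_mul, norm_mul]
    have h2 : ‖(((-1 : ℤ) ^ (j - i) * (j.choose i : ℤ) : ℤ) : ℂ)‖ = (j.choose i : ℝ) := by
      push_cast
      rw [norm_mul, norm_pow, norm_neg, norm_one, one_pow, one_mul, Complex.norm_natCast]
    rw [h2, smul_eq_mul, mul_one]
    exact mul_le_mul_of_nonneg_left (hB i (by omega)) (Nat.cast_nonneg _)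
  refine (Finset.sum_le_sum h1).trans ?_
  rw [← Finset.sum_mul]
  have h3 : ∑ i ∈ Finset.range (j + 1), (j.choose i : ℝ) = 2 ^ j := by
    exact_mod_cast Nat.sum_range_choose j
  rw [h3]

lemma map_fwdDiff {R S : Type} [AddCommGroup R] [AddCommGroup S] (φ : R →+ S) (s : ℕ → R)
    (j m : ℕ) : φ ((fwdDiff 1)^[j] s m) = (fwdDiff 1)^[j] (fun n => φ (s n)) m := by
  rw [fwdDiff_iter_eq_sum_shift, fwdDiff_iter_eq_sum_shift, map_sum]
  apply Finset.sum_congr rfl
  intro i _
  rw [map_zsmul]

/-- The main estimate. -/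
theorem poly_of_slow (K : Type) [Field K] [NumberField K] (b p : ℕ) (hb : b ≠ 0)
    (hbp : Nat.Coprime p b) (hp : 3 ≤ p) (s : ℕ → sInt K b)
    (hdiff : ∀ k n j, k ≤ n → k ≤ j → ∃ z, (fwdDiff 1)^[j] s n = (p : sInt K b) ^ k * z)
    (C0 C1 : ℝ) (hC0 : 0 ≤ C0)
    (hC : (1 + Real.log b / Real.log 2) * (2 * C0) < Real.log p - Real.log 2)
    (hh : ∀ᶠ m in atTop, logHeight₁ (s m : K) ≤ C0 * m + C1) :
    ∃ Q : Polynomial K, ∀ᶠ m in atTop, (s m : K) = Q.eval (m : K) := by
  have hlog2 : 0 < Real.log 2 := Real.log_pos one_lt_two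
  have hlogb : 0 ≤ Real.log b := Real.log_natCast_nonneg b
  set A : ℝ := 1 + Real.log b / Real.log 2 with hA
  have hA1 : 1 ≤ A := by
    rw [hA]
    have : 0 ≤ Real.log b / Real.log 2 := by positivity
    linarith
  obtain ⟨m0, hm0⟩ := eventually_atTop.1 hh
  -- the common bound
  have key : ∀ m j, m0 ≤ m → m ≤ j → j ≤ m + 1 → (fwdDiff 1)^[j] s m ≠ 0 →
      (Real.log p - Real.log 2 - A * (2 * C0)) * m ≤ Real.log 2 + A * (C0 + max C1 0) := by
    intro m j hm hj1 hj2 hne
    set G : ℝ := C0 * (2 * m + 1) + max C1 0 with hG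
    have hG0 : 0 ≤ G := by positivity
    have hGi : ∀ i, i ≤ j → logHeight₁ (s (m + i) : K) ≤ G := by
      intro i hi
      refine (hm0 (m + i) (by omega)).trans ?_
      rw [hG]
      have h1 : ((m + i : ℕ) : ℝ) ≤ 2 * m + 1 := by
        have : m + i ≤ 2 * m + 1 := by omega
        exact_mod_cast this
      exact add_le_add (mul_le_mul_of_nonneg_left h1 hC0) (le_max_left _ _)
    set e : ℕ := ⌊G / Real.log 2⌋₊ with he
    have heG : (e : ℝ) * Real.log 2 ≤ G := by
      have h1 : (e : ℝ) ≤ G / Real.log 2 := Nat.floor_le (by positivity)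
      rwa [le_div_iff₀ hlog2] at h1
    have hint : ∀ i, i ≤ j → IsIntegral ℤ ((b : K) ^ e * (s (m + i) : K)) := by
      intro i hi
      obtain ⟨e', he', hint'⟩ := exists_den K b hb (s (m + i) : K) (s (m + i)).2
      have h1 : e' ≤ e := by
        rw [he]
        apply Nat.le_floor
        rw [le_div_iff₀ hlog2]
        exact he'.trans (hGi i hi)
      obtain ⟨l, hl⟩ : ∃ l, e = l + e' := ⟨e - e', by omega⟩
      rw [hl, pow_add, mul_assoc]
      exact (isIntegral_nat_pow _ _).mul hint'
    obtain ⟨z, hz⟩ := hdiff m m j le_rfl hj1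
    have hval : (((fwdDiff 1)^[j] s m : sInt K b) : K) =
        ∑ i ∈ Finset.range (j + 1), ((-1 : ℤ) ^ (j - i) * (j.choose i : ℤ)) • (s (m + i) : K) := by
      rw [fwdDiff_iter_eq_sum_shift]
      push_cast
      apply Finset.sum_congr rfl
      intro i _
      simp
    set x : K := (((fwdDiff 1)^[j] s m : sInt K b) : K) with hx
    have hx0 : x ≠ 0 := fun h0 => hne (Subtype.ext h0)
    have hxint : IsIntegral ℤ ((b : K) ^ e * x) := by
      rw [hval, Finset.mul_sum]
      apply IsIntegral.sum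
      intro i hi
      rw [Finset.mem_range] at hi
      rw [zsmul_eq_mul]
      have h1 : (b : K) ^ e * ((((-1 : ℤ) ^ (j - i) * (j.choose i : ℤ) : ℤ) : K) * (s (m + i) : K)) =
          (((-1 : ℤ) ^ (j - i) * (j.choose i : ℤ) : ℤ) : K) * ((b : K) ^ e * (s (m + i) : K)) := by
        ring
      rw [h1]
      exact (isIntegral_int _).mul (hint i (by omega))
    have hxp : x = (p : K) ^ m * z := by
      rw [hx, hz]
      push_cast
      rfl
    have hsize := size_bound K b p hb hbp (by omega) x z m e (2 ^ j * Real.exp G) hxp hx0 hxint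
      (by
        intro σ
        rw [hx]
        have h1 : σ (((fwdDiff 1)^[j] s m : sInt K b) : K) =
            (fwdDiff 1)^[j] (fun n => σ (s n : K)) m :=
          map_fwdDiff (σ.toAddMonoidHom.comp (sInt K b).subtype.toAddMonoidHom) s j m
        rw [h1]
        apply norm_diff_le
        intro i hi
        exact (norm_le_exp K _ σ).trans (Real.exp_le_exp.2 (hGi i hi)))
    have hpR : (0 : ℝ) < p := by
      have : 0 < p := by omega
      exact_mod_cast this
    have hbR : (0 : ℝ) < b := by exact_mod_cast Nat.pos_of_ne_zero hb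
    have h2 := Real.log_le_log (by positivity) hsize
    rw [Real.log_pow, Real.log_mul (by positivity) (by positivity), Real.log_pow,
      Real.log_mul (by positivity) (by positivity), Real.log_pow, Real.log_exp] at h2
    have h3 : (j : ℝ) ≤ m + 1 := by exact_mod_cast hj2
    have h4 : (e : ℝ) * Real.log b ≤ (A - 1) * G := by
      have h5 : (A - 1) * G = (G / Real.log 2) * Real.log b := by
        rw [hA]; ring
      rw [h5]
      apply mul_le_mul_of_nonneg_right _ hlogb
      rw [le_div_iff₀ hlog2]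
      exact heG
    have h5 : (j : ℝ) * Real.log 2 ≤ (m + 1) * Real.log 2 :=
      mul_le_mul_of_nonneg_right h3 hlog2.le
    have h6 : (m : ℝ) * Real.log p ≤ (m + 1) * Real.log 2 + A * G := by linarith
    rw [hG] at h6
    nlinarith
  -- the differences vanish
  obtain ⟨m1, hm1⟩ : ∃ m1 : ℕ, ∀ m, m1 ≤ m → ∀ j, m ≤ j → j ≤ m + 1 →
      (fwdDiff 1)^[j] s m = 0 := by
    have hpos : 0 < Real.log p - Real.log 2 - A * (2 * C0) := by linarith
    obtain ⟨m2, hm2⟩ := exists_nat_gt ((Real.log 2 + A * (C0 + max C1 0)) /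
      (Real.log p - Real.log 2 - A * (2 * C0)))
    refine ⟨max m0 m2, fun m hm j hj1 hj2 => ?_⟩
    by_contra hne
    have h1 := key m j ((le_max_left _ _).trans hm) hj1 hj2 hne
    rw [div_lt_iff₀ hpos] at hm2
    have h2 : (m2 : ℝ) ≤ m := by exact_mod_cast (le_max_right _ _).trans hm
    have h3 := mul_le_mul_of_nonneg_left h2 hpos.le
    linarith
  have hA' : ∀ i, ∀ j, m1 ≤ j → j ≤ m1 + i + 1 → (fwdDiff 1)^[j] s (m1 + i) = 0 := by
    intro i
    induction i with
    | zero =>
      intro j h1 h2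
      exact hm1 m1 le_rfl j h1 (by omega)
    | succ i ih =>
      intro j h1 h2
      rcases Nat.lt_or_ge j (m1 + i + 1) with h3 | h3
      · have h4 := ih j h1 (by omega)
        have h5 := ih (j + 1) (by omega) (by omega)
        rw [Function.iterate_succ_apply'] at h5
        simp only [fwdDiff] at h5
        rw [h4, sub_zero] at h5
        exact h5
      · exact hm1 (m1 + (i + 1)) (by omega) j (by omega) (by omega)
  obtain ⟨Q, hQ⟩ := poly_of_diff K (fun n => (s n : K)) m1 (by
    intro m hm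
    obtain ⟨i, rfl⟩ : ∃ i, m = m1 + i := ⟨m - m1, by omega⟩
    have h1 := hA' i m1 le_rfl (by omega)
    have h2 := map_fwdDiff ((sInt K b).subtype.toAddMonoidHom) s m1 (m1 + i)
    rw [h1, map_zero] at h2
    exact h2.symm)
  exact ⟨Q, eventually_atTop.2 ⟨m1, hQ⟩⟩

end Pool.Agent.T2H18
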