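import Pool.Agent.T2H18.Base

set_option autoImplicit false

/-! Dynamical Mordell-Lang for split skew products over the translation. -/

namespace Pool.Agent.T2H18

open MvPolynomial Height NumberField Pool.Agent.H936R2 Pool.Agent.R847.Gap

variable {K : Type} [Field K] [NumberField K] {ι : Type} [Fintype ι] [DecidableEq ι]

theorem split_one (σ : K →+* ℂ) (d : ι → ℕ) (hd : ∀ i j, 2 ≤ d i → d i = d j → i = j)
    (h : ι → Fin 2 → MvPolynomial (Option (Fin 2)) K)
    (hh : ∀ i s, ∀ a ∈ (h i s).support, wt a = d i)
    (hne : ∀ i (z : Option (Fin 2) → ℂ), (∃ s, z (some s) ≠ 0) →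
      ∃ s, eval z (map σ (h i s)) ≠ 0)
    (x : ℕ → K) (y : ℕ → ι → Fin 2 → K) (hx : ∀ n, x (n + 1) = x n + 1)
    (hy0 : ∀ i, y 0 i ≠ 0) (hy : ∀ n i s, y (n + 1) i s = eval (pnt (x n) (y n i)) (h i s))
    (F : MvPolynomial (Option (ι × Fin 2)) K) (m : ι → ℕ) (hF : MultiForm F m) :
    EvPer {n | eval (zz x y n) F = 0} := by
  classical
  have hcert := fun i => cert_small σ (h i) (d i) (hh i) (hne i)
  choose M U hU hcert using hcert
  -- the fibre coordinates are not zero
  have hyn : ∀ n i, y n i ≠ 0 := by
    intro n
    induction n with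
    | zero => exact hy0
    | succ n ih =>
      intro i h0
      obtain ⟨k, hk⟩ := Function.ne_iff.1 (ih i)
      have h1 := congrArg (eval (pnt (x n) (y n i))) (hcert i k)
      rw [map_sum, map_pow, eval_X] at h1
      have h2 : ∑ s, eval (pnt (x n) (y n i)) (U i (k, s) * h i s) = 0 := by
        apply Finset.sum_eq_zero
        intro s _
        rw [map_mul, ← hy, h0, Pi.zero_apply, mul_zero]
      rw [h2] at h1
      exact hk (eq_zero_of_pow_eq_zero h1.symm)
  have hfib : ∀ n i, fib (zz x y n) i = y n i := fun n i => rfl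
  have hfib0 : ∀ n i, fib (zz x y n) i ≠ 0 := fun n i => hyn n i
  have hval : ∀ n i, (fun s => eval (zz x y n) (rename (emb i) (h i s))) = y (n + 1) i := by
    intro n i
    funext s
    rw [hy, eval_rename_emb]
    congr 2
    funext v
    cases v <;> rfl
  -- the base coordinate
  have hxn : ∀ n, x n = x 0 + n := by
    intro n
    induction n with
    | zero => simp
    | succ n ih =>
      rw [hx, ih]
      push_cast
      ring
  obtain ⟨Cx, hCx⟩ : Slow fun n : ℕ => x n := by
    have h2 : (fun n : ℕ => x n) = fun n : ℕ => x 0 + (n : K) := by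
      funext n
      exact hxn n
    rw [h2]
    exact (Slow.const (x 0)).add (slow_natCast K)
  have hlog : ∀ n : ℕ, 0 ≤ Real.log ((n : ℝ) + 2) := fun n =>
    log_two_pos.le.trans (log_ge_log_two n)
  have hCx0 : 0 ≤ Cx := by
    have h1 := (zero_le_logHeight₁ (x 0)).trans (hCx 0)
    simp only [CharP.cast_eq_zero, zero_add] at h1
    exact nonneg_of_mul_nonneg_left h1 log_two_pos
  have hbase : ∀ (C : ℝ) (D : ℕ), 0 ≤ C → ∀ n : ℕ, C + D * logHeight₁ (x n) ≤
      (C / Real.log 2 + D * Cx) * Real.log (n + 2) := by
    intro C D hC n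
    have h1 := const_le_log C hC n
    have h2 : (D : ℝ) * logHeight₁ (x n) ≤ D * (Cx * Real.log (n + 2)) :=
      mul_le_mul_of_nonneg_left (hCx n) (Nat.cast_nonneg _)
    rw [add_mul]
    linarith
  -- the height inequalities
  have hupper : ∀ i, ∃ C : ℝ, 0 ≤ C ∧ ∀ n : ℕ, logHeight (y (n + 1) i) ≤
      d i * logHeight (y n i) + C * Real.log (n + 2) := by
    intro i
    obtain ⟨C, D, hC, hCD⟩ := upper (fun s => rename (emb i) (h i s)) (Pi.single i (d i))
      (fun s => multiForm_rename i (h i s) (d i) (hh i s))
    have h2 := log_two_pos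
    refine ⟨C / Real.log 2 + D * Cx, by positivity, fun n => ?_⟩
    have h1 := hCD (zz x y n) (hfib0 n)
    rw [hval] at h1
    have h6 : ∑ j, ((Pi.single i (d i) : ι → ℕ) j : ℝ) * logHeight (fib (zz x y n) j) =
        d i * logHeight (y n i) := by
      rw [Finset.sum_eq_single i]
      · rw [Pi.single_eq_same, hfib]
      · intro j _ hj
        rw [Pi.single_eq_of_ne hj, Nat.cast_zero, zero_mul]
      · simp
    rw [h6] at h1
    have h3 := hbase C D hC n
    have h4 : zz x y n none = x n := rfl
    rw [h4] at h1
    linarith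
  have hlower : ∀ i, ∃ C : ℝ, 0 ≤ C ∧ ∀ n : ℕ, d i * logHeight (y n i) ≤
      logHeight (y (n + 1) i) + C * Real.log (n + 2) := by
    intro i
    obtain ⟨C, D, hC, hCD⟩ := lower i (M i) (d i) (fun q => rename (emb i) (U i q))
      (fun q => multiForm_rename i (U i q) (M i) (hU i q)) (fun s => rename (emb i) (h i s))
      (fun k => by
        have h1 := congrArg (rename (emb i)) (hcert i k)
        rw [map_sum, map_pow, rename_X] at h1
        simp only [map_mul] at h1
        exact h1)
    have h2 := log_two_pos
    refine ⟨C / Real.log 2 + D * Cx, by positivity, fun n => ?_⟩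
    have h1 := hCD (zz x y n) (hfib0 n)
    rw [hval, hfib] at h1
    have h3 := hbase C D hC n
    have h4 : zz x y n none = x n := rfl
    rw [h4] at h1
    linarith
  -- the classification of the coordinates
  have hclass : ∀ i, ((∃ C : ℝ, ∀ n : ℕ, logHeight (y n i) ≤ C * Real.log (n + 2)) ∨ d i = 1) ∨
      (2 ≤ d i ∧ ∃ c : ℝ, 0 < c ∧ ∃ n₁, ∀ n, n₁ ≤ n → c * (d i : ℝ) ^ n ≤ logHeight (y n i)) := by
    intro i
    rcases Nat.lt_or_ge (d i) 2 with h2 | h2
    · left
      rcases Nat.lt_or_ge (d i) 1 with h3 | h3
      · left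
        have h4 : d i = 0 := by omega
        obtain ⟨C, hC, hCn⟩ := hupper i
        refine ⟨logHeight (y 0 i) / Real.log 2 + 2 * C, fun n => ?_⟩
        have h5 := const_le_log (logHeight (y 0 i)) (logHeight_nonneg _) n
        have h7 := logHeight_nonneg (y 0 i)
        have h8 := mul_nonneg hC (hlog n)
        cases n with
        | zero =>
          rw [add_mul, mul_assoc 2 C]
          exact h5.trans (le_add_of_nonneg_right (mul_nonneg zero_le_two h8))
        | succ n =>
          have h6 := hCn n
          rw [h4, Nat.cast_zero, zero_mul, zero_add] at h6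
          have h9 : Real.log ((n : ℝ) + 2) ≤ Real.log (((n + 1 : ℕ) : ℝ) + 2) := by
            apply Real.log_le_log (by positivity)
            push_cast
            linarith
          have h10 := mul_le_mul_of_nonneg_left h9 hC
          rw [add_mul, mul_assoc 2 C]
          linarith
      · right
        omega
    · obtain ⟨C, hC, hCn⟩ := hlower i
      rcases dichotomy (fun n => logHeight (y n i)) (d i) h2 C hC hCn with h3 | h3
      · left; left
        exact ⟨3 * C, h3⟩
      · right
        exact ⟨h2, h3⟩
  obtain ⟨n0, k, hk, hbc⟩ := base_case σ d h hh (fun i => ⟨M i, U i, hcert i⟩) x y hx hy0 hy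
  -- induction on the number of wild coordinates
  let tame : ι → Prop := fun i =>
    (∃ C : ℝ, ∀ n : ℕ, logHeight (y n i) ≤ C * Real.log (n + 2)) ∨ d i = 1
  have main : ∀ (N : ℕ) (m : ι → ℕ) (F : MvPolynomial (Option (ι × Fin 2)) K), MultiForm F m →
      (Finset.univ.filter fun i => ¬ tame i ∧ m i ≠ 0).card = N →
      EvPer {n | eval (zz x y n) F = 0} := by
    intro N
    induction N using Nat.strong_induction_on with
    | _ N ih =>
      intro m F hF hN
      by_cases hall : ∀ i, m i ≠ 0 → tame i
      · apply EvPer.of_classes n0 k hk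
        intro r _
        exact hbc F m hF hall r
      push Not at hall
      obtain ⟨i₁, hi₁m, hi₁⟩ := hall
      obtain ⟨i, hi, hmax⟩ := (Finset.univ.filter fun i => ¬ tame i ∧ m i ≠ 0).exists_max_image
        d ⟨i₁, by simp [hi₁m, hi₁]⟩
      rw [Finset.mem_filter] at hi
      obtain ⟨-, hiw, him⟩ := hi
      obtain ⟨hd2, c, hc, n₁, hbig⟩ := (hclass i).resolve_left hiw
      -- the coefficient forms
      set m' := Function.update m i 0 with hm'
      have hpart : ∀ β : Fin (m i + 1), MultiForm (part F i β) m' :=
        fun β => part_form F m hF i β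
      have hcard : (Finset.univ.filter fun j => ¬ tame j ∧ m' j ≠ 0).card < N := by
        rw [← hN]
        apply Finset.card_lt_card
        rw [Finset.ssubset_iff_of_subset]
        · refine ⟨i, by simp [hiw, him], ?_⟩
          simp [hm']
        · intro j hj
          rw [Finset.mem_filter] at hj ⊢
          refine ⟨hj.1, hj.2.1, ?_⟩
          intro h0
          apply hj.2.2
          rw [hm']
          by_cases hji : j = i
          · rw [hji, Function.update_self]
          · rw [Function.update_of_ne hji, h0]
      have hEP : EvPer {n | ∀ β ∈ (Finset.univ : Finset (Fin (m i + 1))),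
          n ∈ {n | eval (zz x y n) (part F i β) = 0}} :=
        EvPer.biInter _ _ fun β _ => ih _ hcard m' (part F i β) (hpart β) rfl
      obtain ⟨C₁, D₁, hC₁, hup⟩ := upper (fun β : Fin (m i + 1) => part F i β) m' hpart
      obtain ⟨C₂, hC₂, hroot⟩ := root_bound (K := K) (m i)
      -- everything else is dominated
      have hdom : Dom (d i) fun n => (C₂ / Real.log 2 + (C₁ / Real.log 2 + D₁ * Cx)) *
          Real.log (n + 2) + ∑ j, m' j * logHeight (y n j) := by
        have h2 := log_two_pos
        apply Dom.add hd2
        · exact Dom.log hd2 _ (by positivity) fun n => le_rfl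
        · apply Dom.sum hd2
          intro j _
          by_cases hj : m' j = 0
          · refine ⟨0, le_rfl, fun n => ?_⟩
            rw [hj]
            simp
          apply Dom.const_mul _ (Nat.cast_nonneg _)
          have hji : j ≠ i := by
            rintro rfl
            apply hj
            rw [hm', Function.update_self]
          have hmj : m j ≠ 0 := by
            rwa [hm', Function.update_of_ne hji] at hj
          obtain ⟨C, hC, hCn⟩ := hupper j
          rcases hclass j with (⟨C', hC'⟩ | hj1) | ⟨hj2, hj3⟩
          · have hC'0 : 0 ≤ C' := by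
              have h1 := (logHeight_nonneg (y 0 j)).trans (hC' 0)
              simp only [CharP.cast_eq_zero, zero_add] at h1
              exact nonneg_of_mul_nonneg_left h1 log_two_pos
            exact Dom.log hd2 C' hC'0 hC'
          · exact Dom.of_rec hd2 _ (fun n => logHeight_nonneg _) (d j) (by omega) C hC hCn
          · by_cases hjt : tame j
            · rcases hjt with ⟨C', hC'⟩ | hj1
              · have hC'0 : 0 ≤ C' := by
                  have h1 := (logHeight_nonneg (y 0 j)).trans (hC' 0)
                  simp only [CharP.cast_eq_zero, zero_add] at h1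
                  exact nonneg_of_mul_nonneg_left h1 log_two_pos
                exact Dom.log hd2 C' hC'0 hC'
              · omega
            · have h4 := hmax j (by simp [hjt, hmj])
              have h5 : d j ≠ d i := fun h0 => hji (hd j i hj2 h0)
              exact Dom.of_rec hd2 _ (fun n => logHeight_nonneg _) (d j)
                (lt_of_le_of_ne h4 h5) C hC hCn
      obtain ⟨n₂, hn₂⟩ := hdom.lt hd2 c hc
      refine hEP.congr (max n₁ n₂) fun n hn => ?_
      have hn1 : n₁ ≤ n := (le_max_left _ _).trans hn
      have hn2 : n₂ ≤ n := (le_max_right _ _).trans hn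
      have hev := eval_part F m hF i (zz x y n)
      constructor
      · intro hz
        rw [Set.mem_ofPred_eq, hev]
        apply Finset.sum_eq_zero
        intro β _
        have h1 : eval (zz x y n) (part F i β) = 0 := hz β (Finset.mem_univ _)
        rw [h1, zero_mul]
      · intro hz
        rw [Set.mem_ofPred_eq, hev] at hz
        by_contra hcon
        have hc0 : (fun β : Fin (m i + 1) => eval (zz x y n) (part F i β)) ≠ 0 := by
          intro h0
          apply hcon
          intro β _
          exact congrFun h0 β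
        have h1 := hroot _ (y n i) hc0 (hyn n i) hz
        have h2 := hup (zz x y n) (hfib0 n)
        have h3 := hbig n hn1
        have h4 := hn₂ n hn2
        have h5 := hbase C₁ D₁ hC₁ n
        have h6 := const_le_log C₂ hC₂ n
        have h7 : zz x y n none = x n := rfl
        rw [h7] at h2
        have h8 : (∑ j, (m' j : ℝ) * logHeight (fib (zz x y n) j)) =
            ∑ j, (m' j : ℝ) * logHeight (y n j) := rfl
        rw [h8] at h2
        rw [add_mul] at h4
        linarith
  exact main _ m F hF rfl

/-- **Dynamical Mordell-Lang for split skew products over the translation.** -/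
theorem split_main (σ : K →+* ℂ) (d : ι → ℕ) (hd : ∀ i j, 2 ≤ d i → d i = d j → i = j)
    (h : ι → Fin 2 → MvPolynomial (Option (Fin 2)) K)
    (hh : ∀ i s, ∀ a ∈ (h i s).support, wt a = d i)
    (hne : ∀ i (z : Option (Fin 2) → ℂ), (∃ s, z (some s) ≠ 0) →
      ∃ s, eval z (map σ (h i s)) ≠ 0)
    (x : ℕ → K) (y : ℕ → ι → Fin 2 → K) (hx : ∀ n, x (n + 1) = x n + 1)
    (hy0 : ∀ i, y 0 i ≠ 0) (hy : ∀ n i s, y (n + 1) i s = eval (pnt (x n) (y n i)) (h i s))
    (V : Set (MvPolynomial (Option (ι × Fin 2)) ℂ)) (hV : ∀ F ∈ V, ∃ m, MultiForm F m) :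
    ∃ T : Finset (ℕ × ℕ), {n | ∀ F ∈ V, eval (fun v => σ (zz x y n v)) F = 0} =
      {n : ℕ | ∃ q ∈ T, ∃ m : ℕ, n = q.1 * m + q.2} := by
  classical
  obtain ⟨W, hW, hVW⟩ := descend σ V hV
  apply EvPer.progressions
  have h1 : {n | ∀ F ∈ V, eval (fun v => σ (zz x y n v)) F = 0} =
      {n | ∀ G ∈ W, eval (zz x y n) G = 0} := by
    ext n
    exact hVW (zz x y n)
  rw [h1]
  have hfg : (Ideal.span W).FG := IsNoetherian.noetherian _
  obtain ⟨W', hW', hspan⟩ := (Submodule.fg_span_iff_fg_span_finset_subset W).1 hfg
  have h2 : {n | ∀ G ∈ W, eval (zz x y n) G = 0} =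
      {n | ∀ G ∈ W', n ∈ {n | eval (zz x y n) G = 0}} := by
    ext n
    constructor
    · intro h3 G hG
      exact h3 G (hW' hG)
    · intro h3 G hG
      have h4 : Ideal.span (W' : Set (MvPolynomial (Option (ι × Fin 2)) K)) ≤
          RingHom.ker (eval (zz x y n)) := by
        rw [Ideal.span_le]
        intro P hP
        exact h3 P hP
      have h5 : G ∈ Ideal.span (W' : Set (MvPolynomial (Option (ι × Fin 2)) K)) := by
        have h6 : G ∈ Ideal.span W := Ideal.subset_span hG
        rw [Ideal.span, hspan] at h6
        exact h6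
      exact h4 h5
  rw [h2]
  apply EvPer.biInter
  intro G hG
  obtain ⟨m, hm⟩ := hW G (hW' hG)
  exact split_one σ d hd h hh hne x y hx hy0 hy G m hm

end Pool.Agent.T2H18
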